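import Pool.Agent.SDN.St2

/-!
# SDN: [GS] smoothness of Minkowski functionals, seminorms
-/

set_option autoImplicit false

namespace SDN

open Set Topology Filter

private theorem GS_slope {E : Type} [NormedAddCommGroup E] [NormedSpace ℝ E] (Ψ : E → ℝ) (x : E)
    (O : Set E) (h0 : (0 : E) ∈ O) (hxO : x ∈ O) (hcv : ConvexOn ℝ O Ψ) (hΨ0 : Ψ 0 = 0)
    (hΨx : Ψ x = 1) (hd : DifferentiableAt ℝ Ψ x) : 1 ≤ fderiv ℝ Ψ x x := by
  have h1 : HasDerivAt (fun t : ℝ => Ψ (t • x)) (fderiv ℝ Ψ x x) 1 := by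
    have h2 : HasDerivAt (fun t : ℝ => t • x) x 1 := by
      have := (hasDerivAt_id (1 : ℝ)).smul_const x
      simpa using this
    have h3 : HasFDerivAt Ψ (fderiv ℝ Ψ x) ((fun t : ℝ => t • x) 1) := by
      simpa using hd.hasFDerivAt
    exact h3.comp_hasDerivAt (1 : ℝ) h2
  have h4 := hasDerivAt_iff_tendsto_slope.1 h1
  have h5 : Tendsto (slope (fun t : ℝ => Ψ (t • x)) 1) (𝓝[Ioo 0 1] 1)
      (𝓝 (fderiv ℝ Ψ x x)) :=
    h4.mono_left (nhdsWithin_mono _ (fun t ht => by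
      simp only [mem_compl_iff, mem_singleton_iff]
      exact ht.2.ne))
  have : NeBot (𝓝[Ioo (0 : ℝ) 1] 1) := right_nhdsWithin_Ioo_neBot (by norm_num)
  refine ge_of_tendsto h5 ?_
  filter_upwards [self_mem_nhdsWithin] with t ht
  have h6 : Ψ (t • x) ≤ t := by
    have := hcv.2 hxO h0 ht.1.le (sub_nonneg.2 ht.2.le) (by ring)
    simpa [hΨ0, hΨx] using this
  rw [slope_def_field]
  have h7 : t - 1 < 0 := sub_neg.2 ht.2
  rw [le_div_iff_of_neg h7]
  simp only [one_smul, one_mul, hΨx]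
  linarith

theorem thm_GS : St_GS := by
  intro E _ _ _ N hN
  have key : ∀ x, N x = 1 → ContDiffAt ℝ ((⊤ : ℕ∞) : WithTop ℕ∞) (⇑N) x := by
    intro x hx
    obtain ⟨O, Ψ, hO, h0, hxO, hΨ, hcv, hΨ0, hev⟩ := hN x hx
    have hcont : ContinuousAt Ψ x := hΨ.continuousAt
    have hx1 : Ψ x ≤ 1 := hev.self_of_nhds.1 hx.le
    have hsm : Tendsto (fun t : ℝ => t • x) (𝓝 1) (𝓝 x) := by
      have h : ContinuousAt (fun t : ℝ => t • x) 1 := by fun_prop
      simpa [ContinuousAt] using h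
    have hΨx : Ψ x = 1 := by
      by_contra hne
      have hlt : Ψ x < 1 := lt_of_le_of_ne hx1 hne
      have h1 : ∀ᶠ z in 𝓝 x, Ψ z < 1 := hcont.eventually (gt_mem_nhds hlt)
      have h3 := hsm.eventually (h1.and hev)
      have h4 : ∀ᶠ t in 𝓝[>] (1 : ℝ), Ψ (t • x) < 1 ∧ (N (t • x) ≤ 1 ↔ Ψ (t • x) ≤ 1) :=
        h3.filter_mono nhdsWithin_le_nhds
      obtain ⟨t, ht, ht1⟩ := (h4.and self_mem_nhdsWithin).exists
      have ht1' : (1 : ℝ) < t := ht1
      have h5 : N (t • x) ≤ 1 := ht.2.2 ht.1.le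
      rw [map_smul_eq_mul, hx, mul_one, Real.norm_of_nonneg (by linarith)] at h5
      linarith
    have hne : ((⊤ : ℕ∞) : WithTop ℕ∞) ≠ 0 := by simp
    have hd : DifferentiableAt ℝ Ψ x := hΨ.differentiableAt hne
    have hD := GS_slope Ψ x O h0 hxO hcv hΨ0 hΨx hd
    set D := fderiv ℝ Ψ x x with hDdef
    have hD0 : D ≠ 0 := by linarith
    -- the implicit function
    let G : E × ℝ → ℝ := fun p => Ψ (p.2 • p.1)
    have cdf : ContDiffAt ℝ ((⊤ : ℕ∞) : WithTop ℕ∞) G (x, 1) := by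
      have h1 : ContDiffAt ℝ ((⊤ : ℕ∞) : WithTop ℕ∞) Ψ ((fun p : E × ℝ => p.2 • p.1) (x, 1)) := by
        simpa using hΨ
      exact h1.comp (x, (1 : ℝ)) (contDiffAt_snd.smul contDiffAt_fst)
    have hfd : HasFDerivAt G ((fderiv ℝ Ψ x).comp
        ((1 : ℝ) • ContinuousLinearMap.fst ℝ E ℝ + (ContinuousLinearMap.snd ℝ E ℝ).smulRight x))
        (x, 1) := by
      have h1 : HasFDerivAt Ψ (fderiv ℝ Ψ x) ((fun p : E × ℝ => p.2 • p.1) (x, 1)) := by
        simpa using hd.hasFDerivAt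
      have h2 : HasFDerivAt (fun p : E × ℝ => p.2 • p.1)
          ((1 : ℝ) • ContinuousLinearMap.fst ℝ E ℝ + (ContinuousLinearMap.snd ℝ E ℝ).smulRight x)
          (x, 1) :=
        (hasFDerivAt_snd (𝕜 := ℝ) (E := E) (F := ℝ) (p := (x, 1))).smul
          (hasFDerivAt_fst (𝕜 := ℝ) (E := E) (F := ℝ) (p := (x, 1)))
      exact h1.comp (x, (1 : ℝ)) h2
    have if2 : (fderiv ℝ G (x, 1) ∘L ContinuousLinearMap.inr ℝ E ℝ).IsInvertible := by
      refine ⟨ContinuousLinearEquiv.unitsEquivAut ℝ (Units.mk0 D hD0), ?_⟩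
      rw [hfd.fderiv]
      ext
      simp [hDdef]
    set lam := cdf.implicitFunction hne if2 with hlam
    have hl1 : ContDiffAt ℝ ((⊤ : ℕ∞) : WithTop ℕ∞) lam x :=
      cdf.contDiffAt_implicitFunction hne if2
    have hl2 : lam x = 1 := cdf.implicitFunction_apply_self hne if2
    have hl3 : ∀ᶠ z in 𝓝 x, G (z, lam z) = G (x, 1) :=
      cdf.eventually_apply_implicitFunction hne if2
    have hGx : G (x, 1) = 1 := by simp [G, hΨx]
    -- a good open set
    obtain ⟨U, hUS, hUo, hxU⟩ := mem_nhds_iff.1 (hev.and (hO.mem_nhds hxO))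
    have hlc : ContinuousAt lam x := hl1.continuousAt
    have hlz : Tendsto (fun z => lam z • z) (𝓝 x) (𝓝 x) := by
      have h : ContinuousAt (fun z => lam z • z) x := hlc.smul continuousAt_id
      simpa [ContinuousAt, hl2] using h
    have hpos : ∀ᶠ z in 𝓝 x, 0 < lam z := by
      refine hlc.eventually (lt_mem_nhds ?_)
      rw [hl2]
      exact one_pos
    have hmain : (⇑N) =ᶠ[𝓝 x] fun z => (lam z)⁻¹ := by
      filter_upwards [hl3, hlz.eventually (hUo.mem_nhds hxU), hpos] with z hz1 hz2 hz3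
      set y := lam z • z with hy
      have hΨy : Ψ y = 1 := by
        have : G (z, lam z) = Ψ y := rfl
        rw [← this, hz1, hGx]
      have hNy : N y ≤ 1 := (hUS hz2).1.2 hΨy.le
      have hNy1 : N y = 1 := by
        by_contra hne1
        have hlt : N y < 1 := lt_of_le_of_ne hNy hne1
        have hs1 : Tendsto (fun t : ℝ => t • y) (𝓝 1) (𝓝 y) := by
          have h : ContinuousAt (fun t : ℝ => t • y) 1 := by fun_prop
          simpa [ContinuousAt] using h
        have hs2 : Tendsto (fun t : ℝ => t * N y) (𝓝 1) (𝓝 (N y)) := by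
          have h : ContinuousAt (fun t : ℝ => t * N y) 1 := by fun_prop
          simpa [ContinuousAt] using h
        have h4 : ∀ᶠ t in 𝓝[>] (1 : ℝ), t • y ∈ U ∧ t * N y < 1 :=
          ((hs1.eventually (hUo.mem_nhds hz2)).and
            (hs2.eventually (gt_mem_nhds hlt))).filter_mono nhdsWithin_le_nhds
        obtain ⟨t, ht, ht1⟩ := (h4.and self_mem_nhdsWithin).exists
        have ht1' : (1 : ℝ) < t := ht1
        have ht0 : 0 < t := by linarith
        have h5 : N (t • y) ≤ 1 := by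
          rw [map_smul_eq_mul, Real.norm_of_nonneg ht0.le]
          exact ht.2.le
        have h6 : Ψ (t • y) ≤ 1 := (hUS ht.1).1.1 h5
        have htO : t • y ∈ O := (hUS ht.1).2
        have hinv : t⁻¹ < 1 := inv_lt_one_of_one_lt₀ ht1'
        have h7 := hcv.2 htO h0 (inv_nonneg.2 ht0.le) (sub_nonneg.2 hinv.le) (by ring)
        have h8 : t⁻¹ • t • y + (1 - t⁻¹) • (0 : E) = y := by
          rw [smul_zero, add_zero, inv_smul_smul₀ ht0.ne']
        rw [h8, hΨ0, hΨy, smul_zero, add_zero, smul_eq_mul] at h7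
        have h9 : t⁻¹ * Ψ (t • y) ≤ t⁻¹ * 1 := mul_le_mul_of_nonneg_left h6 (inv_nonneg.2 ht0.le)
        linarith
      rw [hy, map_smul_eq_mul, Real.norm_of_nonneg hz3.le] at hNy1
      exact eq_inv_of_mul_eq_one_right hNy1
    have h10 : ContDiffAt ℝ ((⊤ : ℕ∞) : WithTop ℕ∞) (fun z => (lam z)⁻¹) x := by
      refine hl1.inv ?_
      rw [hl2]
      exact one_ne_zero
    exact h10.congr_of_eventuallyEq hmain
  intro x hc0
  have hc : 0 < N x := lt_of_le_of_ne (apply_nonneg N x) (Ne.symm hc0)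
  set c := N x with hcdef
  have h1 : N (c⁻¹ • x) = 1 := by
    rw [map_smul_eq_mul, Real.norm_of_nonneg (inv_nonneg.2 hc.le), ← hcdef]
    exact inv_mul_cancel₀ hc0
  have h2 := key _ h1
  have h3 : (⇑N) = fun z => c * N (c⁻¹ • z) := by
    funext z
    rw [map_smul_eq_mul, Real.norm_of_nonneg (inv_nonneg.2 hc.le), ← mul_assoc,
      mul_inv_cancel₀ hc0, one_mul]
  rw [h3]
  have h4 : ContDiffAt ℝ ((⊤ : ℕ∞) : WithTop ℕ∞) (fun z : E => c⁻¹ • z) x :=
    contDiffAt_id.const_smul c⁻¹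
  exact contDiffAt_const.mul (h2.comp x h4)

end SDN
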