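import Pool.Agent.SDN.St

/-!
# SDN: Minkowski functionals, elementary part
-/

set_option autoImplicit false

namespace SDN

open Set Topology Filter Pointwise

/-- the seminorm with a given closed unit ball -/
theorem MK_exists {E : Type} [NormedAddCommGroup E] [NormedSpace ℝ E] (B : Set E)
    (hconv : Convex ℝ B) (hcl : IsClosed B) (hbal : ∀ x ∈ B, ∀ a : ℝ, |a| ≤ 1 → a • x ∈ B)
    (h0 : B ∈ 𝓝 (0 : E)) : ∃ N : Seminorm ℝ E, ∀ x, N x ≤ 1 ↔ x ∈ B := by
  have hb : Balanced ℝ B := by
    intro a ha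
    rintro _ ⟨x, hx, rfl⟩
    exact hbal x hx a (by simpa using ha)
  refine ⟨gaugeSeminorm hb hconv (absorbent_nhds_zero h0), ?_⟩
  intro x
  have h1 := gauge_le_one_iff_mem_closure (x := x) hconv h0
  rw [hcl.closure_eq] at h1
  exact h1

/-- bounds are checked on the unit ball -/
theorem MK_bound {E : Type} [NormedAddCommGroup E] [NormedSpace ℝ E] (N p : Seminorm ℝ E) (R : ℝ)
    (hR : 0 ≤ R) (h : ∀ x, N x ≤ 1 → p x ≤ R) (x : E) : p x ≤ R * N x := by
  have h1 : ∀ c : ℝ, 0 < c → N x ≤ c → p x ≤ R * c := by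
    intro c hc hNc
    have h2 : N (c⁻¹ • x) ≤ 1 := by
      rw [map_smul_eq_mul, Real.norm_of_nonneg (inv_nonneg.2 hc.le)]
      rw [inv_mul_le_iff₀ hc, mul_one]
      exact hNc
    have h3 := h _ h2
    rw [map_smul_eq_mul, Real.norm_of_nonneg (inv_nonneg.2 hc.le), inv_mul_le_iff₀ hc] at h3
    linarith [mul_comm R c]
  rcases (apply_nonneg N x).eq_or_lt with h0 | h0
  · rw [← h0, mul_zero]
    refine le_of_forall_pos_le_add ?_
    intro δ hδ
    have h4 := h1 (δ / (R + 1)) (by positivity) (by rw [← h0]; positivity)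
    have h5 : R * (δ / (R + 1)) ≤ δ := by
      rw [mul_div_assoc', div_le_iff₀ (by linarith)]
      nlinarith
    linarith
  · exact h1 (N x) h0 le_rfl

theorem MK_finmin {Y : Type} (t : Finset Y) (e : Y → ℝ) (h : ∀ y, 0 < e y) :
    ∃ d : ℝ, 0 < d ∧ ∀ s ∈ t, d ≤ e s := by
  classical
  induction t using Finset.induction_on with
  | empty => exact ⟨1, one_pos, by simp⟩
  | insert a s ha ih =>
    obtain ⟨d, hd, hd2⟩ := ih
    refine ⟨min d (e a), lt_min hd (h a), ?_⟩
    intro y hy
    rcases Finset.mem_insert.1 hy with rfl | hy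
    · exact min_le_right _ _
    · exact (min_le_left _ _).trans (hd2 y hy)

theorem MK_sumconv {E : Type} [NormedAddCommGroup E] [NormedSpace ℝ E] {Y : Type} (O : Set E)
    (hO : Convex ℝ O) (T : Finset Y) (t : Y → E → ℝ) (h : ∀ y, ConvexOn ℝ O (t y)) :
    ConvexOn ℝ O (fun x => ∑ y ∈ T, t y x) := by
  classical
  induction T using Finset.induction_on with
  | empty => simpa using convexOn_const (0 : ℝ) hO
  | insert a s ha ih =>
    have h1 : (fun x => ∑ y ∈ insert a s, t y x) = (t a) + fun x => ∑ y ∈ s, t y x := by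
      funext x
      rw [Finset.sum_insert ha]
      rfl
    rw [h1]
    exact (h a).add ih

theorem MK_cont {E : Type} [NormedAddCommGroup E] [NormedSpace ℝ E] (p : Seminorm ℝ E) (C : ℝ)
    (hC : 0 ≤ C) (h : ∀ x, p x ≤ C * ‖x‖) : Continuous p := by
  have h1 : LipschitzWith (Real.toNNReal C) p := by
    refine LipschitzWith.of_le_add_mul _ ?_
    intro x y
    have h2 : p x ≤ p y + p (x - y) := by
      have := map_add_le_add p y (x - y)
      simpa using this
    have h3 := h (x - y)
    rw [dist_eq_norm, Real.coe_toNNReal C hC]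
    linarith
  exact h1.continuous

end SDN
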