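import Pool.Agent.SDN.CH

/-!
# SDN: the chain lemma, second part
-/

set_option autoImplicit false

namespace SDN

open Set Topology Filter

theorem thm_CH (hGTS : St_GTS) (hNRM : St_NRM) : St_CH := by
  classical
  intro K L X _ _ _ _ _ _ _ _ _ π q C hπ hC hqC hqs hfib hsing u w S huw huS hwS hSI hSc hwf hst
  have hqc : Continuous q := MK_cont q C hC.le hqC
  choose σ hσ using hπ
  have : Nonempty L := ⟨u⟩
  have : Nonempty K := ⟨σ u⟩
  -- the successor in `S`
  have hnx0 : ∀ s, s ∈ S → s < w → ∃ t, t ∈ S ∧ s < t ∧ ∀ r ∈ S, s < r → t ≤ r := by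
    intro s hs hsw
    obtain ⟨m, hm, hm2⟩ := hwf {t | t ∈ S ∧ s < t} (fun t ht => ht.1) ⟨w, hwS, hsw⟩
    exact ⟨m, hm.1, hm.2, fun r hr hsr => hm2 r ⟨hr, hsr⟩⟩
  choose! nx hnx using hnx0
  -- the pieces
  have hF0 : ∀ s : S, ∃ F : Set L, (s : L) ∈ F ∧ Good q (π ⁻¹' F) ∧
      ((s : L) < w → F ⊆ Icc (s : L) (nx s) ∧ ∀ y, (s : L) ≤ y → y < nx s → y ∈ F) ∧
      F ⊆ Icc u w := by
    rintro ⟨s, hs⟩
    by_cases hsw : s < w
    · obtain ⟨h1, h2, h3⟩ := hnx s hs hsw
      rcases hst s hs (nx s) h1 h2 (by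
        rintro r hr ⟨h4, h5⟩
        exact absurd (h3 r hr h4) (not_le.2 h5)) with h4 | h4
      · refine ⟨Icc s (nx s), ⟨le_rfl, h2.le⟩, h4, fun _ => ⟨subset_rfl, fun y h5 h6 => ⟨h5, h6.le⟩⟩, ?_⟩
        exact Icc_subset_Icc (hSI hs).1 (hSI h1).2
      · refine ⟨{s}, rfl, hfib s, fun _ => ⟨?_, ?_⟩, ?_⟩
        · rintro y rfl
          exact ⟨le_rfl, h2.le⟩
        · intro y h5 h6
          rcases h5.lt_or_eq with h7 | h7
          · exact absurd ⟨h7, h6⟩ (h4 y)
          · exact h7.symm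
        · rintro y rfl
          exact hSI hs
    · refine ⟨{s}, rfl, hfib s, fun h => absurd h hsw, ?_⟩
      rintro y rfl
      exact hSI hs
  intro ε hε hε1
  set η : ℝ := ε / 8 with hη
  have hη0 : 0 < η := by positivity
  have hη1 : η < 1 := by simp only [hη]; linarith
  choose F hFs hFG hFn hFI using hF0
  have hN0 := fun s : S => hFG s η hη0 hη1
  choose N hN1 hN2 hN3 hN4 using hN0
  choose ev hev using fun k : K => CH_ev (X := X) k
  choose df hdf using fun k : K => CH_diff (X := X) k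
  have hσF : ∀ s : S, σ s ∈ π ⁻¹' F s := fun s => by
    change π (σ s) ∈ F s
    rw [hσ]
    exact hFs s
  -- the seminorms
  let A : S × Bool → Seminorm ℝ C(K, X) := fun i =>
    if i.2 then N i.1 else q.comp ((ev (σ i.1) : C(K, X) →L[ℝ] X) : C(K, X) →ₗ[ℝ] X)
  let J : S × Bool → Seminorm ℝ C(K, X) := fun i =>
    if (i.1 : L) < w then (N i.1).comp ((df (σ (nx i.1)) : C(K, X) →L[ℝ] C(K, X)) : C(K, X) →ₗ[ℝ] C(K, X))
    else A i
  have hAt : ∀ (s : S) f, A (s, true) f = N s f := fun s f => rfl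
  have hAf : ∀ (s : S) f, A (s, false) f = q (f (σ s)) := by
    intro s f
    change q (ev (σ s) f) = _
    rw [hev]
  have hJw : ∀ (s : S) b f, ¬ (s : L) < w → J (s, b) f = A (s, b) f := by
    intro s b f h
    simp only [J, if_neg h]
  have hJn : ∀ (s : S) b f, (s : L) < w →
      J (s, b) f = (8 : ℝ)⁻¹ * N s (f - ContinuousMap.const K (f (σ (nx s)))) := by
    intro s b f h
    simp only [J, if_pos h]
    change N s (df (σ (nx s)) f) = _
    rw [hdf, map_smul_eq_mul, Real.norm_of_nonneg (by norm_num)]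
  -- comparison with a constant
  have hcmp : ∀ (s : S) b (f : C(K, X)) (c : X) (θ : ℝ), 0 ≤ θ → (∀ k, π k ∈ F s → q (f k - c) ≤ θ) →
      A (s, b) f ≤ (1 + η) * θ + q c := by
    intro s b f c θ hθ h
    cases b
    · rw [hAf]
      have h1 := h (σ s) (hσF s)
      have h2 : q (f (σ s)) ≤ q (f (σ s) - c) + q c := by
        have := map_add_le_add q (f (σ s) - c) c
        rwa [sub_add_cancel] at this
      nlinarith
    · rw [hAt]
      have h1 := hN2 s (f - ContinuousMap.const K c) θ hθ (fun k hk => h k hk)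
      have h2 := hN4 s (ContinuousMap.const K c) (σ s) (hσF s) (fun k _ => rfl)
      have h3 : N s f ≤ N s (f - ContinuousMap.const K c) + N s (ContinuousMap.const K c) := by
        have := map_add_le_add (N s) (f - ContinuousMap.const K c) (ContinuousMap.const K c)
        rwa [sub_add_cancel] at this
      rw [h2] at h3
      have h4 : q ((ContinuousMap.const K c : C(K, X)) (σ s)) = q c := rfl
      rw [h4] at h3
      linarith
  -- upper bounds
  have hAup : ∀ i f r, 0 ≤ r → (∀ k, π k ∈ Icc u w → q (f k) ≤ r) → A i f ≤ (1 + η) * r := by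
    rintro ⟨s, b⟩ f r hr h
    have := hcmp s b f 0 r hr (fun k hk => by rw [sub_zero]; exact h k (hFI s hk))
    rwa [map_zero, add_zero] at this
  have hAC : ∀ i f, A i f ≤ (1 + η) * (C * ‖f‖) := by
    intro i f
    refine hAup i f _ (by positivity) ?_
    intro k _
    refine (hqC _).trans ?_
    exact mul_le_mul_of_nonneg_left (f.norm_coe_le_norm k) hC.le
  have hne : Nonempty (S × Bool) := ⟨(⟨u, huS⟩, true)⟩
  obtain ⟨p, hp1, hp2, hp3⟩ := CH_sup A (fun f => (1 + η) * (C * ‖f‖)) hAC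
  -- lower bound
  have hplow : ∀ (f : C(K, X)) k, π k ∈ Icc u w → q (f k) ≤ (1 + η) * p f := by
    intro f k hk
    obtain ⟨s, ⟨hs1, hs2⟩, hs3⟩ := (hSc.inter isClosed_Iic).isCompact.exists_isGreatest
      (s := S ∩ Iic (π k)) ⟨u, huS, hk.1⟩
    have h1 : π k ∈ F ⟨s, hs1⟩ := by
      rcases (hSI hs1).2.lt_or_eq with h | h
      · obtain ⟨h2, h3, -⟩ := hnx s hs1 h
        refine (hFn ⟨s, hs1⟩ h).2 (π k) hs2 ?_
        by_contra hcon
        exact absurd (hs3 ⟨h2, not_lt.1 hcon⟩) (not_le.2 h3)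
      · have h2 : π k = s := le_antisymm (h ▸ hk.2) hs2
        rw [h2]
        exact hFs ⟨s, hs1⟩
    refine (hN1 ⟨s, hs1⟩ f k h1).trans ?_
    exact mul_le_mul_of_nonneg_left (hp1 (⟨s, hs1⟩, true) f) (by linarith)
  have hpC : ∀ f, p f ≤ ((1 + η) * C) * ‖f‖ := by
    intro f
    refine hp2 f _ fun i => ?_
    have := hAC i f
    linarith
  have hJp : ∀ i f, J i f ≤ p f := by
    rintro ⟨s, b⟩ f
    by_cases h : (s : L) < w
    · rw [hJn s b f h]
      obtain ⟨h1, h2, -⟩ := hnx s s.2 h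
      have h3 : N s (f - ContinuousMap.const K (f (σ (nx s)))) ≤ (1 + η) * (2 * ((1 + η) * p f)) := by
        refine hN2 s _ _ (by have := apply_nonneg p f; positivity) ?_
        intro k hk
        have h4 := hplow f k (hFI s hk)
        have h5 := hplow f (σ (nx s)) (by rw [hσ]; exact hSI h1)
        have h6 : q (f k - f (σ (nx s))) ≤ q (f k) + q (f (σ (nx s))) := map_sub_le_add q _ _
        change q (f k - f (σ (nx s))) ≤ _
        linarith
      have h7 := apply_nonneg p f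
      have h8 : (1 + η) * (1 + η) ≤ 4 := by nlinarith
      have h9 : (1 + η) * (2 * ((1 + η) * p f)) ≤ 8 * p f := by nlinarith
      linarith
    · rw [hJw s b f h]
      exact hp1 _ f
  have hAs : ∀ i f, A i f ≠ 0 → ContDiffAt ℝ ((⊤ : ℕ∞) : WithTop ℕ∞) (⇑(A i)) f := by
    rintro ⟨s, b⟩ f hf
    cases b
    · exact CH_comp q (ev (σ s)) hqs f hf
    · exact hN3 s f hf
  have hJs : ∀ i f, J i f ≠ 0 → ContDiffAt ℝ ((⊤ : ℕ∞) : WithTop ℕ∞) (⇑(J i)) f := by
    rintro ⟨s, b⟩ f hf
    by_cases h : (s : L) < w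
    · have h1 : J (s, b) = (N s).comp ((df (σ (nx s)) : C(K, X) →L[ℝ] C(K, X)) :
          C(K, X) →ₗ[ℝ] C(K, X)) := by
        simp only [J, if_pos h]
      rw [h1] at hf ⊢
      exact CH_comp (N s) (df (σ (nx s))) (hN3 s) f hf
    · have h1 : J (s, b) = A (s, b) := by
        simp only [J, if_neg h]
      rw [h1] at hf ⊢
      exact hAs (s, b) f hf
  -- the jumps
  have hfin : ∀ f, ∀ δ : ℝ, 0 < δ → {i | δ < J i f}.Finite := by
    intro f δ hδ
    let Exc : Set L := {s | ∃ hs : s ∈ S, s < w ∧ ∃ b, δ < J (⟨s, hs⟩, b) f}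
    have hExc : Exc.Finite := by
      refine CH_fin w S nx hnx Exc (fun s hs => ⟨hs.1, hs.2.1⟩) ?_
      intro y
      by_cases hy : IsOpen {y}
      · refine ⟨{y}, hy.mem_nhds rfl, ordConnected_singleton, ?_⟩
        rintro s ⟨hs, hsw, -⟩ h1 h2
        have h3 := (hnx s hs hsw).2.1
        rw [mem_singleton_iff] at h1 h2
        exact h3.ne' (h2.trans h1.symm)
      · obtain ⟨V, hV1, hV2, hV3⟩ := CH_nhd π q hqc f y (σ y)
          (fun l hl => hsing y hy l (σ y) hl (hσ y)) (2 * δ) (by linarith)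
        refine ⟨V, hV1, hV2, ?_⟩
        rintro s ⟨hs, hsw, b, hb⟩ h1 h2
        have h3 := hnx s hs hsw
        have h4 : N ⟨s, hs⟩ (f - ContinuousMap.const K (f (σ (nx s)))) ≤ (1 + η) * (4 * δ) := by
          refine hN2 ⟨s, hs⟩ _ _ (by linarith) ?_
          intro k hk
          have h5 : π k ∈ V := hV2.out h1 h2 ((hFn ⟨s, hs⟩ hsw).1 hk)
          have h6 := hV3 k h5
          have h7 := hV3 (σ (nx s)) (by rw [hσ]; exact h2)
          change q (f k - f (σ (nx s))) ≤ _
          have h8 : q (f k - f (σ (nx s))) ≤ q (f k - f (σ y)) + q (f (σ (nx s)) - f (σ y)) := by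
            have := map_sub_le_add q (f k - f (σ y)) (f (σ (nx s)) - f (σ y))
            rwa [sub_sub_sub_cancel_right] at this
          linarith
        rw [hJn ⟨s, hs⟩ b f hsw] at hb
        have h9 : (1 + η) * (4 * δ) ≤ 8 * δ := by nlinarith
        change δ < (8 : ℝ)⁻¹ * N ⟨s, hs⟩ (f - ContinuousMap.const K (f (σ (nx s)))) at hb
        linarith
    have h1 : (insert w Exc).Finite := hExc.insert w
    have h2 : {s : S | (s : L) ∈ insert w Exc}.Finite :=
      h1.preimage (Subtype.val_injective.injOn)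
    refine Set.Finite.subset (h2.prod (Set.finite_univ (α := Bool))) ?_
    rintro ⟨s, b⟩ hsb
    refine ⟨?_, mem_univ _⟩
    change (s : L) ∈ insert w Exc
    rcases (hSI s.2).2.lt_or_eq with h | h
    · exact mem_insert_of_mem _ ⟨s.2, h, b, hsb⟩
    · rw [h]
      exact mem_insert _ _
  -- attained
  have hmax : ∀ f, p f ≠ 0 → ∃ i, A i f = p f ∧ 0 < J i f := by
    intro f hf
    have hR0 : 0 < p f := lt_of_le_of_ne (apply_nonneg p f) (Ne.symm hf)
    let a : L → Bool → ℝ := fun s b => if hs : s ∈ S then A (⟨s, hs⟩, b) f else 0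
    have ha : ∀ s (hs : s ∈ S) b, a s b = A (⟨s, hs⟩, b) f := by
      intro s hs b
      simp only [a, dif_pos hs]
    obtain ⟨m, hm, ⟨b, hb⟩, hlast⟩ := CH_att w S hSc hwS (fun s hs => (hSI hs).2) nx hnx a (p f)
      (by
        intro s hs b
        rw [ha s hs]
        exact hp1 _ f)
      (by
        intro r hr
        obtain ⟨⟨s, b⟩, h⟩ := hp3 f r hr
        exact ⟨s, s.2, b, by rw [ha s s.2]; exact h⟩)
      (by
        intro m hm hmo θ hθ
        obtain ⟨V, hV1, hV2, hV3⟩ := CH_nhd π q hqc f m (σ m)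
          (fun l hl => hsing m hmo l (σ m) hl (hσ m)) (θ / 2) (by linarith)
        refine ⟨V, hV1, ?_⟩
        intro s hs hsm hsV t ht hst htm b
        have htw : t < w := htm.trans_le (hSI hm).2
        obtain ⟨h1, h2, h3⟩ := hnx t ht htw
        rw [ha t ht, ha m hm, hAf]
        have h4 := hcmp ⟨t, ht⟩ b f (f (σ m)) (θ / 2) (by linarith) (fun k hk => by
          have h5 := (hFn ⟨t, ht⟩ htw).1 hk
          have h6 : π k ∈ V := hV2.out hsV (mem_of_mem_nhds hV1)
            ⟨hst.trans h5.1, h5.2.trans (h3 m hm htm)⟩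
          exact (hV3 k h6).le)
        have h7 : (1 + η) * (θ / 2) ≤ θ := by nlinarith
        linarith)
    rw [ha m hm] at hb
    refine ⟨(⟨m, hm⟩, b), hb, ?_⟩
    rcases (hSI hm).2.lt_or_eq with hmw | hmw
    · rcases (apply_nonneg (J (⟨m, hm⟩, b)) f).lt_or_eq with h | h
      · exact h
      · exfalso
        rw [hJn ⟨m, hm⟩ b f hmw] at h
        have h1 : N ⟨m, hm⟩ (f - ContinuousMap.const K (f (σ (nx m)))) = 0 := by
          have h2 : (8 : ℝ)⁻¹ * N ⟨m, hm⟩ (f - ContinuousMap.const K (f (σ (nx m)))) = 0 := h.symm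
          linarith
        have h3 := hcmp ⟨m, hm⟩ b f (f (σ (nx m))) 0 le_rfl (fun k hk => by
          have h4 := hN1 ⟨m, hm⟩ (f - ContinuousMap.const K (f (σ (nx m)))) k hk
          rw [h1, mul_zero] at h4
          exact h4)
        have h5 := hlast hmw false
        rw [ha (nx m) (hnx m hm hmw).1, hAf] at h5
        change q (f (σ (nx m))) < p f at h5
        rw [hb] at h3
        linarith
    · rw [hJw ⟨m, hm⟩ b f (by rw [← hmw]; exact lt_irrefl _), hb]
      exact hR0
  obtain ⟨M, hM1, hM2, hM3, hM4⟩ := hGTS C(K, X) (S × Bool) p A J ((1 + η) * C) (by positivity) hpC hp1 hJp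
    hAs hJs hfin hmax η hη0 hη1
  have hη2 : 0 < 1 - η := by linarith
  refine hNRM K X q (π ⁻¹' Icc u w) (σ w) M η ((1 + η) / (1 - η) - 1) ε ?_ hη0.le ?_ ?_ ?_ ?_ hM3 ?_
  · change π (σ w) ∈ Icc u w
    rw [hσ]
    exact ⟨huw, le_rfl⟩
  · rw [sub_nonneg, le_div_iff₀ hη2]
    linarith
  · rw [add_sub_cancel, mul_div_assoc', div_le_iff₀ hη2]
    simp only [hη]
    nlinarith
  · intro f k hk
    exact (hplow f k hk).trans (mul_le_mul_of_nonneg_left (hM1 f) (by linarith))
  · intro f r hr h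
    rw [add_sub_cancel]
    have h1 : p f ≤ (1 + η) * r := hp2 f _ fun i => hAup i f r hr h
    have h2 := (hM2 f).trans h1
    rw [div_mul_eq_mul_div, le_div_iff₀ hη2]
    linarith
  · intro f g hf hg hfg
    have hconst : ∀ f : C(K, X), (∀ x ∈ π ⁻¹' Icc u w, f x = f (σ w)) →
        (∀ s b, A (s, b) f = q (f (σ w))) ∧ ∀ s b, J (s, b) f = if (s : L) < w then 0 else q (f (σ w)) := by
      intro f hf
      have h1 : ∀ (s : S), ∀ k, π k ∈ F s → f k = f (σ w) := fun s k hk => hf k (hFI s hk)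
      have h2 : ∀ s b, A (s, b) f = q (f (σ w)) := by
        intro s b
        cases b
        · rw [hAf, h1 s (σ s) (hσF s)]
        · rw [hAt, hN4 s f (σ s) (hσF s) (fun k hk => by rw [h1 s k hk, h1 s (σ s) (hσF s)]),
            h1 s (σ s) (hσF s)]
      refine ⟨h2, ?_⟩
      intro s b
      by_cases h : (s : L) < w
      · rw [if_pos h, hJn s b f h]
        have h3 : N s (f - ContinuousMap.const K (f (σ (nx s)))) ≤ (1 + η) * 0 := by
          refine hN2 s _ 0 le_rfl ?_
          intro k hk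
          change q (f k - f (σ (nx s))) ≤ 0
          rw [h1 s k hk, hf (σ (nx s)) (by
            change π (σ (nx s)) ∈ Icc u w
            rw [hσ]
            exact hSI (hnx s s.2 h).1), sub_self, map_zero]
        have h4 := apply_nonneg (N s) (f - ContinuousMap.const K (f (σ (nx s))))
        have h5 : N s (f - ContinuousMap.const K (f (σ (nx s)))) = 0 := by linarith
        rw [h5, mul_zero]
      · rw [if_neg h, hJw s b f h]
        exact h2 s b
    obtain ⟨h1, h2⟩ := hconst f hf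
    obtain ⟨h3, h4⟩ := hconst g hg
    refine hM4 f g ?_ ?_
    · rintro ⟨s, b⟩
      rw [h1, h3, hfg]
    · rintro ⟨s, b⟩
      rw [h2, h4, hfg]

end SDN
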