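import Pool.Agent.SDN.MK

/-!
# SDN: fibres over a sigma-discrete space
-/

set_option autoImplicit false

namespace SDN

open Set Topology Filter

/-- restriction to a compact subset, scaled -/
theorem CK_res {K : Type} [TopologicalSpace K] [CompactSpace K] (F : Set K) [CompactSpace F] (s : ℝ) :
    ∃ R : C(K, ℝ) →L[ℝ] C(F, ℝ), ∀ f, R f = s • f.restrict F := by
  let R0 : C(K, ℝ) →ₗ[ℝ] C(F, ℝ) :=
    { toFun := fun f => s • f.restrict F
      map_add' := by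
        intro f g
        ext x
        simp [mul_add]
      map_smul' := by
        intro c f
        ext x
        simp
        ring }
  refine ⟨R0.mkContinuous |s| ?_, fun f => rfl⟩
  intro f
  change ‖s • f.restrict F‖ ≤ |s| * ‖f‖
  rw [norm_smul, Real.norm_eq_abs]
  refine mul_le_mul_of_nonneg_left ?_ (abs_nonneg s)
  refine (ContinuousMap.norm_le _ (norm_nonneg f)).2 ?_
  intro x
  exact f.norm_coe_le_norm x

theorem CK_pull {K : Type} [TopologicalSpace K] [CompactSpace K] (F : Set K) [CompactSpace F] (a b s : ℝ)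
    (hs : 0 < s) (h : SN F a b) : ∃ q : Seminorm ℝ C(K, ℝ),
      (∀ f, s * (a * ‖f.restrict F‖) ≤ q f) ∧ (∀ f, q f ≤ s * (b * ‖f.restrict F‖)) ∧
      (∀ f, q f ≠ 0 → ContDiffAt ℝ ((⊤ : ℕ∞) : WithTop ℕ∞) (⇑q) f) := by
  obtain ⟨N, hN, hNs⟩ := h
  obtain ⟨R, hR⟩ := CK_res F s
  have hq : ∀ f, N.comp R.toLinearMap f = s * N (f.restrict F) := by
    intro f
    rw [Seminorm.comp_apply]
    change N (R f) = _
    rw [hR, map_smul_eq_mul, Real.norm_of_nonneg hs.le]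
  refine ⟨N.comp R.toLinearMap, ?_, ?_, ?_⟩
  · intro f
    rw [hq]
    exact mul_le_mul_of_nonneg_left (hN _).1 hs.le
  · intro f
    rw [hq]
    exact mul_le_mul_of_nonneg_left (hN _).2 hs.le
  · intro f hf
    have h1 : R f ≠ 0 := by
      intro h0
      apply hf
      rw [Seminorm.comp_apply]
      change N (R f) = 0
      rw [h0, map_zero]
    exact (hNs _ h1).comp f R.contDiff.contDiffAt

/-- the supremum over the fibre is upper semicontinuous -/
theorem CK_usc {K L : Type} [TopologicalSpace K] [CompactSpace K] [TopologicalSpace L]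
    [T2Space L] (π : C(K, L)) [hF : ∀ y, CompactSpace (π ⁻¹' {y})] (f : C(K, ℝ)) (c : ℝ) (y : L)
    (h : ‖f.restrict (π ⁻¹' {y})‖ < c) : ∀ᶠ z in 𝓝 y, ‖f.restrict (π ⁻¹' {z})‖ < c := by
  set d : ℝ := (‖f.restrict (π ⁻¹' {y})‖ + c) / 2 with hd
  have hd1 : ‖f.restrict (π ⁻¹' {y})‖ < d := by simp only [hd]; linarith
  have hd2 : d < c := by simp only [hd]; linarith
  have hd0 : 0 ≤ d := (norm_nonneg _).trans hd1.le
  have hA : IsClosed {k : K | d ≤ ‖f k‖} := isClosed_le continuous_const f.continuous.norm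
  have hA2 : IsClosed (π '' {k : K | d ≤ ‖f k‖}) := (hA.isCompact.image π.continuous).isClosed
  have hy : y ∈ (π '' {k : K | d ≤ ‖f k‖})ᶜ := by
    rintro ⟨k, hk, hky⟩
    have h1 := (f.restrict (π ⁻¹' {y})).norm_coe_le_norm ⟨k, hky⟩
    have h2 : ‖f k‖ ≤ ‖f.restrict (π ⁻¹' {y})‖ := h1
    have h3 : d ≤ ‖f k‖ := hk
    linarith
  filter_upwards [hA2.isOpen_compl.mem_nhds hy] with z hz
  refine lt_of_le_of_lt ?_ hd2
  refine (ContinuousMap.norm_le _ hd0).2 ?_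
  rintro ⟨k, hk⟩
  change ‖f k‖ ≤ d
  by_contra hcon
  exact hz ⟨k, (not_le.1 hcon).le, hk⟩

theorem CK_core (hMA : St_MA) {K L : Type} [TopologicalSpace K] [CompactSpace K] [TopologicalSpace L]
    [CompactSpace L] [T2Space L] (π : C(K, L)) [hF : ∀ y, CompactSpace (π ⁻¹' {y})] (y0 : L)
    (W C : ℝ) (β ω : L → ℝ) (hW : 0 < W) (hC : 1 ≤ C)
    (hβ : ∀ y, 1 ≤ β y) (hω : ∀ y, 0 < ω y) (hbw : ∀ y, β y + ω y ≤ 1 + W)
    (hsep : ∀ y, ∃ V ∈ 𝓝 y, ∀ z ∈ V, z ≠ y → β y + ω y ≤ β z)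
    (hcl : ∀ y, y ≠ y0 → Close (π ⁻¹' {y}))
    (h0 : ∃ a b s : ℝ, 0 < s ∧ SN (π ⁻¹' {y0}) a b ∧ s * b ≤ C ∧
      β y0 + ω y0 / 2 ≤ (β y0 + ω y0) * (s * a)) :
    ∃ N : Seminorm ℝ C(K, ℝ), (∀ x, ‖x‖ ≤ (1 + W) * N x) ∧ (∀ x, N x ≤ C * ‖x‖) ∧
      ∀ x, x ≠ 0 → ContDiffAt ℝ ((⊤ : ℕ∞) : WithTop ℕ∞) (⇑N) x := by
  classical
  have hres : ∀ y (f : C(K, ℝ)), ‖f.restrict (π ⁻¹' {y})‖ ≤ ‖f‖ := by
    intro y f
    refine (ContinuousMap.norm_le _ (norm_nonneg f)).2 ?_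
    intro x
    exact f.norm_coe_le_norm x
  have key : ∀ y, ∃ q : Seminorm ℝ C(K, ℝ), (∀ f, ‖f.restrict (π ⁻¹' {y})‖ * (β y + ω y / 2) ≤
      (β y + ω y) * q f) ∧ (y ≠ y0 → ∀ f, q f ≤ ‖f.restrict (π ⁻¹' {y})‖) ∧
      (∀ f, q f ≤ C * ‖f.restrict (π ⁻¹' {y})‖) ∧
      (∀ f, q f ≠ 0 → ContDiffAt ℝ ((⊤ : ℕ∞) : WithTop ℕ∞) (⇑q) f) := by
    intro y
    have hb := hβ y
    have hw := hω y
    by_cases hy : y = y0
    · subst hy
      obtain ⟨a, b, s, hs, hSN, hsb, hsa⟩ := h0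
      obtain ⟨q, hq1, hq2, hq3⟩ := CK_pull (π ⁻¹' {y}) a b s hs hSN
      refine ⟨q, ?_, fun h => absurd rfl h, ?_, hq3⟩
      · intro f
        have h1 := hq1 f
        have h2 := norm_nonneg (f.restrict (π ⁻¹' {y}))
        have h3 : (β y + ω y) * (s * (a * ‖f.restrict (π ⁻¹' {y})‖)) ≤ (β y + ω y) * q f :=
          mul_le_mul_of_nonneg_left h1 (by linarith)
        have h4 := mul_le_mul_of_nonneg_right hsa h2
        calc ‖f.restrict (π ⁻¹' {y})‖ * (β y + ω y / 2)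
            = (β y + ω y / 2) * ‖f.restrict (π ⁻¹' {y})‖ := mul_comm _ _
          _ ≤ (β y + ω y) * (s * a) * ‖f.restrict (π ⁻¹' {y})‖ := h4
          _ = (β y + ω y) * (s * (a * ‖f.restrict (π ⁻¹' {y})‖)) := by ring
          _ ≤ _ := h3
      · intro f
        have h1 := hq2 f
        have h2 := norm_nonneg (f.restrict (π ⁻¹' {y}))
        have h4 := mul_le_mul_of_nonneg_right hsb h2
        calc q f ≤ s * (b * ‖f.restrict (π ⁻¹' {y})‖) := h1
          _ = s * b * ‖f.restrict (π ⁻¹' {y})‖ := by ring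
          _ ≤ _ := h4
    · have hbp : 0 < β y + ω y / 2 := by linarith
      set δ : ℝ := (ω y / 2) / (β y + ω y / 2) with hδ
      have hδp : 0 < δ := div_pos (by linarith) hbp
      have hδ2 : (1 + δ) * (β y + ω y / 2) = β y + ω y := by
        have : δ * (β y + ω y / 2) = ω y / 2 := div_mul_cancel₀ _ hbp.ne'
        linarith
      have hs : 0 < (1 + δ)⁻¹ := inv_pos.2 (by linarith)
      obtain ⟨q, hq1, hq2, hq3⟩ := CK_pull (π ⁻¹' {y}) 1 (1 + δ) (1 + δ)⁻¹ hs (hcl y hy δ hδp)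
      have hq2' : ∀ f, q f ≤ ‖f.restrict (π ⁻¹' {y})‖ := by
        intro f
        have h1 := hq2 f
        rwa [← mul_assoc, inv_mul_cancel₀ (by linarith : (1 + δ) ≠ 0), one_mul] at h1
      refine ⟨q, ?_, fun _ => hq2', ?_, hq3⟩
      · intro f
        have h1 := hq1 f
        rw [one_mul, inv_mul_le_iff₀ (by linarith)] at h1
        calc ‖f.restrict (π ⁻¹' {y})‖ * (β y + ω y / 2)
            ≤ (1 + δ) * q f * (β y + ω y / 2) := mul_le_mul_of_nonneg_right h1 hbp.le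
          _ = (1 + δ) * (β y + ω y / 2) * q f := by ring
          _ = _ := by rw [hδ2]
      · intro f
        have h2 := norm_nonneg (f.restrict (π ⁻¹' {y}))
        exact (hq2' f).trans (by nlinarith)
  choose q hq1 hq2 hq3 hq4 using key
  refine hMA C(K, ℝ) L W C β ω (fun y f => ‖f.restrict (π ⁻¹' {y})‖) q y0 hW (by linarith) hβ hω hbw hsep
    ?_ ?_ ?_ ?_ ?_ hq4
  · intro f c y h
    exact CK_usc π f c y h
  · intro f c h
    have hc : 0 ≤ c := (norm_nonneg _).trans (h y0).le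
    refine (ContinuousMap.norm_le _ hc).2 ?_
    intro k
    have h1 := (f.restrict (π ⁻¹' {π k})).norm_coe_le_norm ⟨k, rfl⟩
    have h2 : ‖f k‖ ≤ ‖f.restrict (π ⁻¹' {π k})‖ := h1
    exact h2.trans (h (π k)).le
  · intro y f hy
    exact hq2 y hy f
  · intro y f
    exact (hq3 y f).trans (mul_le_mul_of_nonneg_left (hres y f) (by linarith))
  · intro y f
    exact hq1 y f

theorem thm_CK (hMA : St_MA) (hIX : St_IX) : St_CK := by
  intro K L _ _ _ _ _ _ D π y0 hD hcl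
  have hF : ∀ y, CompactSpace (π ⁻¹' {y}) := fun y =>
    isCompact_iff_compactSpace.1 ((isClosed_singleton.preimage π.continuous).isCompact)
  have hcl' : ∀ y, y ≠ y0 → Close (π ⁻¹' {y}) := fun y hy => hcl y hy (hF y)
  constructor
  · intro h
    obtain ⟨a, b, ha, hb, hSN⟩ := h (hF y0)
    obtain ⟨β, ω, hβ, hω, hbw, hsep⟩ := hIX L D hD 1 one_pos
    obtain ⟨N, hN1, hN2, hN3⟩ := CK_core hMA π y0 1 (max 1 (a⁻¹ * b)) β ω one_pos (le_max_left _ _)
      hβ hω hbw hsep hcl' ⟨a, b, a⁻¹, inv_pos.2 ha, hSN, le_max_right _ _, by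
        rw [inv_mul_cancel₀ ha.ne', mul_one]
        linarith [hω y0]⟩
    refine ⟨(1 + 1)⁻¹, max 1 (a⁻¹ * b), by norm_num, lt_of_lt_of_le one_pos (le_max_left _ _), N, ?_, hN3⟩
    intro f
    refine ⟨?_, hN2 f⟩
    rw [inv_mul_le_iff₀ (by norm_num)]
    exact hN1 f
  · intro h ε hε
    obtain ⟨β, ω, hβ, hω, hbw, hsep⟩ := hIX L D hD ε hε
    have hb := hβ y0
    have hw := hω y0
    have hbp : 0 < β y0 + ω y0 / 2 := by linarith
    have hδp : 0 < (ω y0 / 2) / (β y0 + ω y0 / 2) := div_pos (by linarith) hbp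
    obtain ⟨N, hN1, hN2, hN3⟩ := CK_core hMA π y0 ε 1 β ω hε le_rfl
      hβ hω hbw hsep hcl' ⟨1, 1 + (ω y0 / 2) / (β y0 + ω y0 / 2),
        (1 + (ω y0 / 2) / (β y0 + ω y0 / 2))⁻¹, inv_pos.2 (by linarith), h (hF y0) _ hδp, by
          rw [inv_mul_cancel₀ (by linarith : (1 + (ω y0 / 2) / (β y0 + ω y0 / 2)) ≠ 0)], by
          have h1 : (1 + (ω y0 / 2) / (β y0 + ω y0 / 2)) * (β y0 + ω y0 / 2) = β y0 + ω y0 := by
            have : (ω y0 / 2) / (β y0 + ω y0 / 2) * (β y0 + ω y0 / 2) = ω y0 / 2 :=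
              div_mul_cancel₀ _ hbp.ne'
            linarith
          rw [mul_one, ← h1, mul_comm (1 + _) (β y0 + ω y0 / 2), mul_assoc,
            mul_inv_cancel₀ (by linarith : (1 + (ω y0 / 2) / (β y0 + ω y0 / 2)) ≠ 0), mul_one]⟩
    obtain ⟨R, hR⟩ : ∃ R : C(K, ℝ) →L[ℝ] C(K, ℝ), ∀ f, R f = (1 + ε) • f :=
      ⟨(1 + ε) • ContinuousLinearMap.id ℝ _, fun f => rfl⟩
    have hq : ∀ f, N.comp R.toLinearMap f = (1 + ε) * N f := by
      intro f
      rw [Seminorm.comp_apply]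
      change N (R f) = _
      rw [hR, map_smul_eq_mul, Real.norm_of_nonneg (by linarith)]
    refine ⟨N.comp R.toLinearMap, ?_, ?_⟩
    · intro f
      rw [hq, one_mul]
      refine ⟨hN1 f, mul_le_mul_of_nonneg_left ?_ (by linarith)⟩
      simpa using hN2 f
    · intro f hf
      have h1 : R f ≠ 0 := by
        rw [hR]
        exact smul_ne_zero (by linarith) hf
      exact (hN3 _ h1).comp f R.contDiff.contDiffAt

end SDN
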