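import Pool.Agent.SDN.St2

/-!
# SDN: fibres over a sigma-discrete space, values in a Banach space (helper29)
-/

set_option autoImplicit false

namespace SDN

open Set Topology Filter

/-- a smooth seminorm times a positive number -/
private theorem FB_scale {E : Type} [NormedAddCommGroup E] [NormedSpace ℝ E] (N : Seminorm ℝ E) (s : ℝ)
    (hs : 0 < s) (hN : ∀ f, N f ≠ 0 → ContDiffAt ℝ ((⊤ : ℕ∞) : WithTop ℕ∞) (⇑N) f) :
    ∃ q : Seminorm ℝ E, (∀ f, q f = s * N f) ∧
      ∀ f, q f ≠ 0 → ContDiffAt ℝ ((⊤ : ℕ∞) : WithTop ℕ∞) (⇑q) f := by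
  have hq : ∀ f, (Real.toNNReal s • N) f = s * N f := by
    intro f
    change (Real.toNNReal s : ℝ) * N f = s * N f
    rw [Real.coe_toNNReal s hs.le]
  refine ⟨Real.toNNReal s • N, hq, fun f hf => ?_⟩
  have h1 : N f ≠ 0 := by
    intro h0
    apply hf
    rw [hq, h0, mul_zero]
  have h2 : ContDiffAt ℝ ((⊤ : ℕ∞) : WithTop ℕ∞) (fun g => s * N g) f := contDiffAt_const.mul (hN f h1)
  have h3 : (⇑(Real.toNNReal s • N) : E → ℝ) = fun g => s * N g := funext hq
  rw [h3]
  exact h2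

/-- bounded seminorms are continuous -/
private theorem FB_cont {X : Type} [NormedAddCommGroup X] [NormedSpace ℝ X] (q : Seminorm ℝ X) (C : ℝ)
    (hC : 0 < C) (hq : ∀ x, q x ≤ C * ‖x‖) : Continuous q := by
  refine continuous_iff_continuousAt.2 fun x => ?_
  rw [Metric.continuousAt_iff]
  intro e he
  refine ⟨e / C, div_pos he hC, fun {y} hy => ?_⟩
  rw [Real.dist_eq]
  have h1 : |q y - q x| ≤ q (y - x) := abs_sub_map_le_sub q y x
  have h2 := hq (y - x)
  rw [dist_eq_norm, lt_div_iff₀ hC] at hy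
  linarith [mul_comm ‖y - x‖ C]

/-- the supremum over the fibre -/
private noncomputable def FB_m {K L X : Type} [TopologicalSpace K] [TopologicalSpace L]
    [NormedAddCommGroup X] [NormedSpace ℝ X] (q : Seminorm ℝ X) (π : C(K, L)) (y : L) (f : C(K, X)) : ℝ :=
  ⨆ k : π ⁻¹' {y}, q (f k)

private theorem FB_m_nonneg {K L X : Type} [TopologicalSpace K] [TopologicalSpace L]
    [NormedAddCommGroup X] [NormedSpace ℝ X] (q : Seminorm ℝ X) (π : C(K, L)) (y : L) (f : C(K, X)) :
    0 ≤ FB_m q π y f := Real.iSup_nonneg fun _ => apply_nonneg q _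

private theorem FB_m_le {K L X : Type} [TopologicalSpace K] [TopologicalSpace L]
    [NormedAddCommGroup X] [NormedSpace ℝ X] (q : Seminorm ℝ X) (π : C(K, L)) (y : L) (f : C(K, X)) (c : ℝ)
    (hc : 0 ≤ c) (h : ∀ k, π k = y → q (f k) ≤ c) : FB_m q π y f ≤ c :=
  Real.iSup_le (fun k => h k k.2) hc

private theorem FB_le_m {K L X : Type} [TopologicalSpace K] [CompactSpace K] [TopologicalSpace L]
    [NormedAddCommGroup X] [NormedSpace ℝ X] (q : Seminorm ℝ X) (C : ℝ)
    (hC : 0 < C) (hq : ∀ x, q x ≤ C * ‖x‖) (π : C(K, L)) (y : L) (f : C(K, X)) (k : K) (hk : π k = y) :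
    q (f k) ≤ FB_m q π y f := by
  have h1 : BddAbove (range fun k : π ⁻¹' {y} => q (f k)) := by
    refine ⟨C * ‖f‖, ?_⟩
    rintro _ ⟨k, rfl⟩
    exact (hq _).trans (mul_le_mul_of_nonneg_left (f.norm_coe_le_norm k) hC.le)
  exact le_ciSup h1 (⟨k, hk⟩ : π ⁻¹' {y})

/-- the supremum over the fibre is upper semicontinuous -/
private theorem FB_usc {K L X : Type} [TopologicalSpace K] [CompactSpace K] [TopologicalSpace L] [T2Space L]
    [NormedAddCommGroup X] [NormedSpace ℝ X] (q : Seminorm ℝ X) (C : ℝ)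
    (hC : 0 < C) (hq : ∀ x, q x ≤ C * ‖x‖) (π : C(K, L)) (f : C(K, X)) (c : ℝ) (y : L)
    (h : FB_m q π y f < c) : ∀ᶠ z in 𝓝 y, FB_m q π z f < c := by
  set d : ℝ := (FB_m q π y f + c) / 2 with hd
  have hd1 : FB_m q π y f < d := by simp only [hd]; linarith
  have hd2 : d < c := by simp only [hd]; linarith
  have hd0 : 0 ≤ d := (FB_m_nonneg q π y f).trans hd1.le
  have hA : IsClosed {k : K | d ≤ q (f k)} :=
    isClosed_le continuous_const ((FB_cont q C hC hq).comp f.continuous)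
  have hA2 : IsClosed (π '' {k : K | d ≤ q (f k)}) := (hA.isCompact.image π.continuous).isClosed
  have hy : y ∈ (π '' {k : K | d ≤ q (f k)})ᶜ := by
    rintro ⟨k, hk, hky⟩
    have h1 := FB_le_m q C hC hq π y f k hky
    have h3 : d ≤ q (f k) := hk
    linarith
  filter_upwards [hA2.isOpen_compl.mem_nhds hy] with z hz
  refine lt_of_le_of_lt ?_ hd2
  refine FB_m_le q π z f d hd0 fun k hk => ?_
  by_contra hcon
  exact hz ⟨k, (not_le.1 hcon).le, hk⟩

/-- fibres over a sigma-discrete compact space -/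
theorem thm_FB (hMAS : St_MAS) (hIX : St_IX) (hNRM : St_NRM) (hPL : St_PL) : St_FB := by
  classical
  intro K L _ _ _ _ _ _ D π hD hfib X _ _ _ q C hC hqC hqs ε hε hε1
  have hF : ∀ y, CompactSpace (π ⁻¹' {y}) := fun y =>
    isCompact_iff_compactSpace.1 ((isClosed_singleton.preimage π.continuous).isCompact)
  rcases isEmpty_or_nonempty K with hK | ⟨⟨v⟩⟩
  · refine ⟨0, fun f x => (hK.false x).elim, fun f r hr _ => ?_, fun f hf => absurd rfl hf,
      fun f x => (hK.false x).elim⟩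
    change (0 : ℝ) ≤ _
    positivity
  obtain ⟨β, ω, hβ, hω, hbw, hsep⟩ := hIX L D hD ε hε
  -- the seminorms of the fibres
  have key : ∀ y, ∃ Q : Seminorm ℝ C(K, X),
      (∀ f, Q f ≤ FB_m q π y f) ∧
      (∀ f, FB_m q π y f * (β y + ω y / 2) ≤ (β y + ω y) * Q f) ∧
      (∀ f, Q f ≠ 0 → ContDiffAt ℝ ((⊤ : ℕ∞) : WithTop ℕ∞) (⇑Q) f) ∧
      (∀ f g : C(K, X), (∀ x, f x = f v) → (∀ x, g x = g v) → q (f v) = q (g v) → Q f = Q g) := by
    intro y
    have hb := hβ y
    have hw := hω y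
    have hbp : 0 < β y + ω y / 2 := by linarith
    set δ : ℝ := (ω y / 2) / (β y + ω y / 2) / 3 with hδ
    have hδp : 0 < δ := div_pos (div_pos (by linarith) hbp) (by norm_num)
    have hδ3 : 3 * δ * (β y + ω y / 2) = ω y / 2 := by
      have h1 : 3 * δ = (ω y / 2) / (β y + ω y / 2) := by
        rw [hδ]
        ring
      rw [h1]
      exact div_mul_cancel₀ _ hbp.ne'
    have hδ1 : δ < 1 := by
      by_contra hcon
      have h1 : 1 ≤ δ := not_lt.1 hcon
      nlinarith
    have := hF y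
    obtain ⟨N, hN1, hN2, hN3, hN4⟩ :=
      hPL K X q (π ⁻¹' {y}) (hfib y (hF y) X q C hC hqC hqs) δ hδp hδ1
    obtain ⟨Q, hQ, hQs⟩ := FB_scale N (1 + δ)⁻¹ (inv_pos.2 (by linarith)) hN3
    have hd : (0 : ℝ) < 1 + δ := by linarith
    have hNQ : ∀ f, N f = (1 + δ) * Q f := by
      intro f
      rw [hQ, ← mul_assoc, mul_inv_cancel₀ hd.ne', one_mul]
    refine ⟨Q, fun f => ?_, fun f => ?_, hQs, fun f g hf hg hfg => ?_⟩
    · have h1 := hN2 f (FB_m q π y f) (FB_m_nonneg q π y f)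
        (fun k hk => FB_le_m q C hC hqC π y f k hk)
      rw [hNQ] at h1
      exact le_of_mul_le_mul_left h1 hd
    · have h0 : 0 ≤ Q f := apply_nonneg Q f
      have h1 : FB_m q π y f ≤ (1 + δ) * N f :=
        FB_m_le q π y f _ (mul_nonneg hd.le (apply_nonneg N f)) fun k hk => hN1 f k hk
      rw [hNQ] at h1
      have h5 : (1 + δ) * (1 + δ) ≤ 1 + 3 * δ := by nlinarith
      have h2 : (1 + δ) * ((1 + δ) * Q f) ≤ (1 + 3 * δ) * Q f := by
        rw [← mul_assoc]
        exact mul_le_mul_of_nonneg_right h5 h0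
      calc FB_m q π y f * (β y + ω y / 2) ≤ (1 + 3 * δ) * Q f * (β y + ω y / 2) :=
            mul_le_mul_of_nonneg_right (h1.trans h2) hbp.le
        _ = ((β y + ω y / 2) + 3 * δ * (β y + ω y / 2)) * Q f := by ring
        _ = (β y + ω y) * Q f := by
            rw [hδ3]
            ring
    · rw [hQ, hQ]
      congr 1
      by_cases hne : ∃ k, π k = y
      · obtain ⟨k, hk⟩ := hne
        have h1 : N f = q (f k) := hN4 f k hk fun x _ => (hf x).trans (hf k).symm
        have h2 : N g = q (g k) := hN4 g k hk fun x _ => (hg x).trans (hg k).symm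
        rw [h1, h2, hf k, hg k]
        exact hfg
      · have h0 : ∀ f : C(K, X), N f = 0 := by
          intro f
          have h1 := hN2 f 0 le_rfl (fun k hk => absurd ⟨k, hk⟩ hne)
          rw [mul_zero] at h1
          exact le_antisymm h1 (apply_nonneg N f)
        rw [h0, h0]
  choose Q hQ1 hQ2 hQ3 hQ4 using key
  obtain ⟨N, hN1, hN2, hN3, hN4⟩ := hMAS C(K, X) L ε C β ω (fun y f => FB_m q π y f) Q (π v) hε hC
    hβ hω hbw hsep
    (fun f c y h => FB_usc q C hC hqC π f c y h)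
    (fun y f _ => hQ1 y f)
    (fun y f => (hQ1 y f).trans (FB_m_le q π y f _ (by positivity) fun k _ =>
      (hqC _).trans (mul_le_mul_of_nonneg_left (f.norm_coe_le_norm k) hC.le)))
    (fun y f => hQ2 y f) hQ3
  have hNu : ∀ f : C(K, X), ∀ k ∈ (univ : Set K), q (f k) ≤ (1 + ε) * N f := by
    intro f k _
    have h1 := hN1 (q.comp (ContinuousMap.evalCLM ℝ k : C(K, X) →L[ℝ] X).toLinearMap)
      (fun f c h => (FB_le_m q C hC hqC π (π k) f k rfl).trans (h (π k)).le) f
    exact h1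
  exact hNRM K X q univ v N ε 0 ε (mem_univ v) hε.le le_rfl (by linarith) hNu
    (fun f r hr h => by
      rw [add_zero, one_mul]
      exact hN2 f r hr fun y => (hQ1 y f).trans (FB_m_le q π y f r hr fun k _ => h k (mem_univ k)))
    hN3
    (fun f g hf hg hfg => hN4 f g fun y =>
      hQ4 y f g (fun x => hf x (mem_univ x)) (fun x => hg x (mem_univ x)) hfg)

end SDN
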