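import Pool.Agent.SDN.St2

/-!
# SDN: Talagrand systems for seminorms (GTS; from the file GT of helper3)
-/

set_option autoImplicit false

namespace SDN

open Set Topology Filter

/-- the concave function -/
private noncomputable def GTu (ε a : ℝ) : ℝ := 1 - th (a - (1 - ε)) / th ε

/-- the perspective function -/
private noncomputable def GTF (ε a n : ℝ) : ℝ := GTu ε a * th (n / GTu ε a - 1)

private theorem GT_th_nonneg (hTH : St_TH) (x : ℝ) : 0 ≤ th x := by
  rcases le_or_gt x 0 with h | h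
  · rw [hTH.2.1 x h]
  · exact (hTH.2.2.1 x h).le

private theorem GT_th_scale (hTH : St_TH) {l x : ℝ} (h0 : 0 ≤ l) (h1 : l ≤ 1) :
    th (l * x + (1 - l) * (-1)) ≤ l * th x := by
  have h := hTH.2.2.2.2.2 (mem_univ x) (mem_univ (-1 : ℝ)) h0 (by linarith : 0 ≤ 1 - l) (by ring)
  simp only [smul_eq_mul] at h
  rw [hTH.2.1 (-1) (by norm_num)] at h
  linarith

section

variable {ε : ℝ}

private theorem GTu_le_one (hTH : St_TH) (hε : 0 < ε) (a : ℝ) : GTu ε a ≤ 1 := by
  have := div_nonneg (GT_th_nonneg hTH (a - (1 - ε))) (hTH.2.2.1 ε hε).le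
  unfold GTu
  linarith

private theorem GTu_one (hTH : St_TH) {a : ℝ} (ha : a ≤ 1 - ε) : GTu ε a = 1 := by
  unfold GTu
  rw [hTH.2.1 _ (by linarith)]
  simp

private theorem GTu_at (hTH : St_TH) (hε : 0 < ε) : GTu ε 1 = 0 := by
  unfold GTu
  rw [show (1 : ℝ) - (1 - ε) = ε by ring, div_self (hTH.2.2.1 ε hε).ne', sub_self]

private theorem GTu_pos (hTH : St_TH) (hε : 0 < ε) {a : ℝ} (ha : a < 1) : 0 < GTu ε a := by
  have h0 := hTH.2.2.1 ε hε
  have h1 : th (a - (1 - ε)) < th ε := by
    rcases le_or_gt (a - (1 - ε)) 0 with h | h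
    · rw [hTH.2.1 _ h]
      exact h0
    · have h2 := hTH.2.2.2.2.2 (mem_univ ε) (mem_univ (0 : ℝ))
        (div_nonneg h.le hε.le : 0 ≤ (a - (1 - ε)) / ε)
        (by rw [sub_nonneg, div_le_one hε]; linarith : 0 ≤ 1 - (a - (1 - ε)) / ε) (by ring)
      simp only [smul_eq_mul, mul_zero, add_zero] at h2
      rw [hTH.2.1 0 le_rfl, mul_zero, add_zero, div_mul_cancel₀ _ hε.ne'] at h2
      have h3 : (a - (1 - ε)) / ε < 1 := by rw [div_lt_one hε]; linarith
      nlinarith
  unfold GTu
  rw [sub_pos, div_lt_one h0]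
  exact h1

private theorem GTu_anti (hTH : St_TH) (hε : 0 < ε) {a b : ℝ} (h : a ≤ b) :
    GTu ε b ≤ GTu ε a := by
  unfold GTu
  have h0 := hTH.2.2.1 ε hε
  have h1 : th (a - (1 - ε)) ≤ th (b - (1 - ε)) := hTH.2.2.2.1 (by linarith)
  have := div_le_div_of_nonneg_right h1 h0.le
  linarith

private theorem GTu_concave (hTH : St_TH) (hε : 0 < ε) {a b l m : ℝ} (hl : 0 ≤ l) (hm : 0 ≤ m)
    (h : l + m = 1) : l * GTu ε a + m * GTu ε b ≤ GTu ε (l * a + m * b) := by
  have h0 := hTH.2.2.1 ε hε
  have h1 := hTH.2.2.2.2.2 (mem_univ (a - (1 - ε))) (mem_univ (b - (1 - ε))) hl hm h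
  simp only [smul_eq_mul] at h1
  have e : l * (a - (1 - ε)) + m * (b - (1 - ε)) = l * a + m * b - (1 - ε) := by
    have : l * (1 - ε) + m * (1 - ε) = 1 - ε := by rw [← add_mul, h, one_mul]
    linarith
  rw [e] at h1
  have h2 := div_le_div_of_nonneg_right h1 h0.le
  rw [add_div, mul_div_assoc, mul_div_assoc] at h2
  unfold GTu
  nlinarith

private theorem GTu_contDiff (hTH : St_TH) :
    ContDiff ℝ ((⊤ : ℕ∞) : WithTop ℕ∞) (GTu ε) := by
  unfold GTu
  exact contDiff_const.sub ((hTH.1.comp (contDiff_id.sub contDiff_const)).div_const _)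

/-- the perspective of `x ↦ th (x - 1)` is convex -/
private theorem GT_persp (hTH : St_TH) {u₁ u₂ n₁ n₂ l m : ℝ} (h1 : 0 < u₁) (h2 : 0 < u₂)
    (hl : 0 ≤ l) (hm : 0 ≤ m) (hu : 0 < l * u₁ + m * u₂) :
    (l * u₁ + m * u₂) * th ((l * n₁ + m * n₂) / (l * u₁ + m * u₂) - 1) ≤
      l * (u₁ * th (n₁ / u₁ - 1)) + m * (u₂ * th (n₂ / u₂ - 1)) := by
  have h := hTH.2.2.2.2.2 (mem_univ (n₁ / u₁ - 1)) (mem_univ (n₂ / u₂ - 1))
    (div_nonneg (mul_nonneg hl h1.le) hu.le : 0 ≤ l * u₁ / (l * u₁ + m * u₂))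
    (div_nonneg (mul_nonneg hm h2.le) hu.le : 0 ≤ m * u₂ / (l * u₁ + m * u₂))
    (by rw [← add_div, div_self hu.ne'])
  simp only [smul_eq_mul] at h
  have e : l * u₁ / (l * u₁ + m * u₂) * (n₁ / u₁ - 1) + m * u₂ / (l * u₁ + m * u₂) * (n₂ / u₂ - 1) =
      (l * n₁ + m * n₂) / (l * u₁ + m * u₂) - 1 := by
    field_simp
    ring
  rw [e] at h
  have h3 := mul_le_mul_of_nonneg_left h hu.le
  refine h3.trans (le_of_eq ?_)
  field_simp

private theorem GT_u_anti (hTH : St_TH) {u u' n : ℝ} (hu : 0 < u) (h : u ≤ u') :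
    u' * th (n / u' - 1) ≤ u * th (n / u - 1) := by
  have hu' : 0 < u' := hu.trans_le h
  have h1 := GT_th_scale hTH (x := n / u - 1) (div_nonneg hu.le hu'.le) ((div_le_one hu').2 h)
  have e : u / u' * (n / u - 1) + (1 - u / u') * (-1) = n / u' - 1 := by
    field_simp
    ring
  rw [e] at h1
  have h2 := mul_le_mul_of_nonneg_left h1 hu'.le
  refine h2.trans (le_of_eq ?_)
  field_simp

private theorem GTF_nonneg (hTH : St_TH) (hε : 0 < ε) {a n : ℝ} (ha : a < 1) :
    0 ≤ GTF ε a n := mul_nonneg (GTu_pos hTH hε ha).le (GT_th_nonneg hTH _)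

private theorem GTF_zero (hTH : St_TH) (hε : 0 < ε) {a n : ℝ} (ha : a < 1) (hn : n ≤ GTu ε a) :
    GTF ε a n = 0 := by
  unfold GTF
  rw [hTH.2.1, mul_zero]
  rw [sub_nonpos, div_le_one (GTu_pos hTH hε ha)]
  exact hn

private theorem GTF_convex (hTH : St_TH) (hε : 0 < ε) {a a₁ a₂ n n₁ n₂ l m : ℝ} (h1 : a₁ < 1)
    (h2 : a₂ < 1) (hl : 0 ≤ l) (hm : 0 ≤ m) (h : l + m = 1) (ha : a ≤ l * a₁ + m * a₂)
    (hn : n ≤ l * n₁ + m * n₂) :
    GTF ε a n ≤ l * GTF ε a₁ n₁ + m * GTF ε a₂ n₂ := by
  have hlt : l * a₁ + m * a₂ < 1 := by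
    rcases hl.lt_or_eq with hl' | hl'
    · nlinarith
    · subst hl'
      have : m = 1 := by linarith
      subst this
      linarith
  have ha' : a < 1 := ha.trans_lt hlt
  have p1 := GTu_pos hTH hε h1
  have p2 := GTu_pos hTH hε h2
  have hu : 0 < l * GTu ε a₁ + m * GTu ε a₂ := by
    rcases hl.lt_or_eq with hl' | hl'
    · have := mul_pos hl' p1
      have := mul_nonneg hm p2.le
      linarith
    · subst hl'
      have : m = 1 := by linarith
      subst this
      linarith
  have hle : l * GTu ε a₁ + m * GTu ε a₂ ≤ GTu ε a :=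
    (GTu_concave hTH hε hl hm h).trans (GTu_anti hTH hε ha)
  calc GTF ε a n ≤ (l * GTu ε a₁ + m * GTu ε a₂) * th (n / (l * GTu ε a₁ + m * GTu ε a₂) - 1) :=
        GT_u_anti hTH hu hle
    _ ≤ (l * GTu ε a₁ + m * GTu ε a₂) *
        th ((l * n₁ + m * n₂) / (l * GTu ε a₁ + m * GTu ε a₂) - 1) := by
        apply mul_le_mul_of_nonneg_left _ hu.le
        apply hTH.2.2.2.1
        have := div_le_div_of_nonneg_right hn hu.le
        linarith
    _ ≤ _ := GT_persp hTH p1 p2 hl hm hu

/-- the function blows up -/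
private theorem GTF_large {u n : ℝ} (hu : 0 < u) (hn : 2 * u ≤ n)
    (h : 16 * u ≤ n ^ 2) : 1 < u * th (n / u - 1) := by
  have h1 : 1 ≤ n / u - 1 := by
    rw [le_sub_iff_add_le, le_div_iff₀ hu]
    linarith
  have h2 : Real.exp (-1) ≤ expNegInvGlue (n / u - 1) := by
    unfold expNegInvGlue
    rw [if_neg (by linarith)]
    apply Real.exp_le_exp.2
    rw [neg_le_neg_iff]
    exact inv_le_one_of_one_le₀ h1
  have h3 : (1 : ℝ) / 3 < Real.exp (-1) := by
    rw [Real.exp_neg, lt_inv_comm₀ (by norm_num) (Real.exp_pos 1)]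
    have := Real.exp_one_lt_d9
    norm_num
    linarith
  have h4 : n / (2 * u) ≤ n / u - 1 := by
    rw [div_le_iff₀ (by linarith), sub_mul, div_mul_eq_mul_div]
    have : n * (2 * u) / u = 2 * n := by field_simp
    rw [this]
    linarith
  have hn0 : 0 < n := by linarith
  have h5 : 0 < n / (2 * u) := by positivity
  unfold th
  have h6 : (n / (2 * u)) ^ 2 ≤ (n / u - 1) ^ 2 := by
    apply pow_le_pow_left₀ h5.le h4
  have h7 : (n / (2 * u)) ^ 2 * (1 / 3) < (n / u - 1) ^ 2 * expNegInvGlue (n / u - 1) := by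
    have h8 : 0 < (n / (2 * u)) ^ 2 := by positivity
    calc (n / (2 * u)) ^ 2 * (1 / 3) < (n / (2 * u)) ^ 2 * Real.exp (-1) := by
          apply mul_lt_mul_of_pos_left h3 h8
      _ ≤ (n / u - 1) ^ 2 * expNegInvGlue (n / u - 1) :=
          mul_le_mul h6 h2 (Real.exp_pos _).le (sq_nonneg _)
  have h9 : 1 ≤ u * ((n / (2 * u)) ^ 2 * (1 / 3)) := by
    have e : u * ((n / (2 * u)) ^ 2 * (1 / 3)) = n ^ 2 / (12 * u) := by
      field_simp
      ring
    rw [e, le_div_iff₀ (by linarith)]
    nlinarith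
  calc (1 : ℝ) ≤ u * ((n / (2 * u)) ^ 2 * (1 / 3)) := h9
    _ < _ := mul_lt_mul_of_pos_left h7 hu

end

section main

variable {E : Type} [NormedAddCommGroup E] [NormedSpace ℝ E]

private theorem GT_cont (q : Seminorm ℝ E) {C : ℝ} (h : ∀ x, q x ≤ C * ‖x‖) :
    Continuous (fun x => q x) := by
  have hC : ∀ x y : E, |q x - q y| ≤ C * ‖x - y‖ := by
    intro x y
    have h1 := h (x - y)
    have h2 : |q x - q y| ≤ q (x - y) := abs_sub_map_le_sub q x y
    exact h2.trans h1
  rw [Metric.continuous_iff]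
  intro x δ hδ
  refine ⟨δ / (|C| + 1), by positivity, fun y hy => ?_⟩
  rw [Real.dist_eq]
  rw [dist_eq_norm] at hy
  calc |q y - q x| ≤ C * ‖y - x‖ := hC y x
    _ ≤ (|C| + 1) * ‖y - x‖ := by
      apply mul_le_mul_of_nonneg_right _ (norm_nonneg _)
      have := le_abs_self C
      linarith
    _ < (|C| + 1) * (δ / (|C| + 1)) := by
      apply mul_lt_mul_of_pos_left hy
      positivity
    _ = δ := by field_simp

/-- smoothness of one term -/
private theorem GT_term (hTH : St_TH) {ε : ℝ} (hε : 0 < ε) (hε1 : ε < 1) (A J : Seminorm ℝ E)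
    (hA : Continuous (fun x => A x)) (hJ : Continuous (fun x => J x)) {x : E} (hx : A x < 1)
    (hAs : A x ≠ 0 → ContDiffAt ℝ ((⊤ : ℕ∞) : WithTop ℕ∞) (⇑A) x)
    (hJs : J x ≠ 0 → ContDiffAt ℝ ((⊤ : ℕ∞) : WithTop ℕ∞) (⇑J) x) :
    ContDiffAt ℝ ((⊤ : ℕ∞) : WithTop ℕ∞) (fun z => GTF ε (A z) (J z)) x := by
  have hu : ContDiffAt ℝ ((⊤ : ℕ∞) : WithTop ℕ∞) (fun z => GTu ε (A z)) x := by
    by_cases h : A x = 0
    · have h1 : ∀ᶠ z in 𝓝 x, A z < 1 - ε :=
        (hA.tendsto x).eventually (gt_mem_nhds (by rw [h]; linarith))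
      have h2 : (fun z => GTu ε (A z)) =ᶠ[𝓝 x] fun _ => (1 : ℝ) := by
        filter_upwards [h1] with z hz
        exact GTu_one hTH hz.le
      exact contDiffAt_const.congr_of_eventuallyEq h2
    · exact (GTu_contDiff hTH).contDiffAt.comp x (hAs h)
  by_cases h : J x = 0
  · have hu0 := GTu_pos hTH hε hx
    have hc : Continuous (fun z => GTu ε (A z)) := (GTu_contDiff hTH).continuous.comp hA
    have h1 : ∀ᶠ z in 𝓝 x, J z < GTu ε (A z) := by
      apply (hJ.tendsto x).eventually_lt (hc.tendsto x)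
      rw [h]
      exact hu0
    have h2 : ∀ᶠ z in 𝓝 x, A z < 1 := (hA.tendsto x).eventually (gt_mem_nhds hx)
    have h3 : (fun z => GTF ε (A z) (J z)) =ᶠ[𝓝 x] fun _ => (0 : ℝ) := by
      filter_upwards [h1, h2] with z hz hz2
      exact GTF_zero hTH hε hz2 hz.le
    exact contDiffAt_const.congr_of_eventuallyEq h3
  · have h1 : ContDiffAt ℝ ((⊤ : ℕ∞) : WithTop ℕ∞) (fun z => J z / GTu ε (A z) - 1) x :=
      ((hJs h).div hu (GTu_pos hTH hε hx).ne').sub contDiffAt_const
    exact hu.mul (hTH.1.contDiffAt.comp x h1)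

theorem thm_GTS (hTH : St_TH) (hGS : St_GS) : St_GTS := by
  intro E _ _ _ Γ p A J C hC hpC hAp hJp hAs hJs hfin hmax ε hε hε1
  classical
  have hp : Continuous (fun x => p x) := GT_cont p hpC
  have hA : ∀ i, Continuous (fun x => A i x) := fun i =>
    GT_cont (A i) fun x => (hAp i x).trans (hpC x)
  have hJ : ∀ i, Continuous (fun x => J i x) := fun i =>
    GT_cont (J i) fun x => (hJp i x).trans (hpC x)
  let B : Set E := {x | (∀ i, A i x < 1) ∧ ∀ T : Finset Γ, ∑ i ∈ T, GTF ε (A i x) (J i x) ≤ 1}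
  -- the small vectors
  have hsmall : ∀ x, p x ≤ 1 - ε → x ∈ B := by
    intro x hx
    refine ⟨fun i => (hAp i x).trans_lt (by linarith), fun T => ?_⟩
    rw [Finset.sum_eq_zero]
    · exact zero_le_one
    · intro i _
      have h1 : A i x ≤ 1 - ε := (hAp i x).trans hx
      apply GTF_zero hTH hε (by linarith)
      rw [GTu_one hTH h1]
      have := (hJp i x).trans hx
      linarith
  have hlt : ∀ x ∈ B, p x < 1 := by
    intro x hx
    by_cases h0 : p x = 0
    · rw [h0]
      exact zero_lt_one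
    · obtain ⟨i, hi, -⟩ := hmax x h0
      rw [← hi]
      exact hx.1 i
  have hconv : Convex ℝ B := by
    intro x hx y hy l m hl hm hlm
    have h1 : ∀ i, A i (l • x + m • y) ≤ l * A i x + m * A i y := by
      intro i
      have := map_add_le_add (A i) (l • x) (m • y)
      rw [map_smul_eq_mul, map_smul_eq_mul, Real.norm_of_nonneg hl, Real.norm_of_nonneg hm] at this
      exact this
    have h2 : ∀ i, J i (l • x + m • y) ≤ l * J i x + m * J i y := by
      intro i
      have := map_add_le_add (J i) (l • x) (m • y)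
      rw [map_smul_eq_mul, map_smul_eq_mul, Real.norm_of_nonneg hl, Real.norm_of_nonneg hm] at this
      exact this
    refine ⟨fun i => ?_, fun T => ?_⟩
    · refine (h1 i).trans_lt ?_
      have h3 := hx.1 i
      have h4 := hy.1 i
      rcases hl.lt_or_eq with hl' | hl'
      · nlinarith
      · subst hl'
        have : m = 1 := by linarith
        subst this
        linarith
    · calc ∑ i ∈ T, GTF ε (A i (l • x + m • y)) (J i (l • x + m • y)) ≤
          ∑ i ∈ T, (l * GTF ε (A i x) (J i x) + m * GTF ε (A i y) (J i y)) :=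
            Finset.sum_le_sum fun i _ =>
              GTF_convex hTH hε (hx.1 i) (hy.1 i) hl hm hlm (h1 i) (h2 i)
        _ = l * ∑ i ∈ T, GTF ε (A i x) (J i x) + m * ∑ i ∈ T, GTF ε (A i y) (J i y) := by
            rw [Finset.sum_add_distrib, Finset.mul_sum, Finset.mul_sum]
        _ ≤ l * 1 + m * 1 := add_le_add (mul_le_mul_of_nonneg_left (hx.2 T) hl)
            (mul_le_mul_of_nonneg_left (hy.2 T) hm)
        _ = 1 := by linarith
  have hsym : ∀ x ∈ B, -x ∈ B := by
    intro x hx
    refine ⟨fun i => ?_, fun T => ?_⟩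
    · rw [map_neg_eq_map]
      exact hx.1 i
    · simp only [map_neg_eq_map]
      exact hx.2 T
  have hnhds : B ∈ 𝓝 (0 : E) := by
    have h1 : ∀ᶠ z in 𝓝 (0 : E), p z < 1 - ε :=
      (hp.tendsto 0).eventually (gt_mem_nhds (by rw [map_zero]; linarith))
    filter_upwards [h1] with z hz
    exact hsmall z hz.le
  have h0B : (0 : E) ∈ B := mem_of_mem_nhds hnhds
  have hclosed : closure B ⊆ B := by
    intro x hx
    have hp1 : p x ≤ 1 := by
      have hcl : IsClosed {z : E | p z ≤ 1} := isClosed_le hp continuous_const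
      exact (hcl.closure_subset_iff.2 fun z hz => (hlt z hz).le) hx
    have hp2 : p x < 1 := by
      rcases hp1.lt_or_eq with h | h
      · exact h
      · exfalso
        have hx0 : p x ≠ 0 := by
          rw [h]
          exact one_ne_zero
        obtain ⟨i, hi, hJi⟩ := hmax x hx0
        have hAi : A i x = 1 := hi.trans h
        -- near `x` the function is large
        have hc1 : Continuous (fun z => GTu ε (A i z)) := (GTu_contDiff hTH).continuous.comp (hA i)
        have hux : GTu ε (A i x) = 0 := by rw [hAi, GTu_at hTH hε]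
        have e1 : ∀ᶠ z in 𝓝 x, 2 * GTu ε (A i z) < J i z := by
          apply ((continuous_const.mul hc1).tendsto x).eventually_lt ((hJ i).tendsto x)
          show 2 * GTu ε (A i x) < J i x
          rw [hux, mul_zero]
          exact hJi
        have e2 : ∀ᶠ z in 𝓝 x, 16 * GTu ε (A i z) < J i z ^ 2 := by
          apply ((continuous_const.mul hc1).tendsto x).eventually_lt (((hJ i).pow 2).tendsto x)
          show 16 * GTu ε (A i x) < J i x ^ 2
          rw [hux, mul_zero]
          positivity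
        obtain ⟨z, hzB, hz1, hz2⟩ : ∃ z ∈ B, 2 * GTu ε (A i z) < J i z ∧
            16 * GTu ε (A i z) < J i z ^ 2 := by
          rw [mem_closure_iff_frequently] at hx
          obtain ⟨z, hz, hz'⟩ := (hx.and_eventually (e1.and e2)).exists
          exact ⟨z, hz, hz'⟩
        have h3 := hzB.2 {i}
        rw [Finset.sum_singleton] at h3
        have h4 := GTF_large (GTu_pos hTH hε (hzB.1 i)) hz1.le hz2.le
        exact absurd h3 (not_le.2 h4)
    refine ⟨fun i => (hAp i x).trans_lt hp2, fun T => ?_⟩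
    by_contra hcon
    rw [not_le] at hcon
    have hct : ContinuousAt (fun z => ∑ i ∈ T, GTF ε (A i z) (J i z)) x := by
      apply tendsto_finsetSum
      intro i _
      exact (GT_term hTH hε hε1 (A i) (J i) (hA i) (hJ i) ((hAp i x).trans_lt hp2) (hAs i x)
        (hJs i x)).continuousAt
    have e1 : ∀ᶠ z in 𝓝 x, 1 < ∑ i ∈ T, GTF ε (A i z) (J i z) :=
      hct.eventually (lt_mem_nhds hcon)
    rw [mem_closure_iff_frequently] at hx
    obtain ⟨z, hz, hz'⟩ := (hx.and_eventually e1).exists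
    exact absurd (hz.2 T) (not_le.2 hz')
  have habs : Absorbent ℝ B := absorbent_nhds_zero hnhds
  have hbal : Balanced ℝ B := by
    intro r hr
    rintro _ ⟨x, hx, rfl⟩
    rw [Real.norm_eq_abs] at hr
    show r • x ∈ B
    rcases le_total 0 r with h | h
    · rw [abs_of_nonneg h] at hr
      have := hconv hx h0B h (by linarith : 0 ≤ 1 - r) (by ring)
      rwa [smul_zero, add_zero] at this
    · rw [abs_of_nonpos h] at hr
      have := hconv (hsym x hx) h0B (by linarith : 0 ≤ -r) (by linarith : 0 ≤ 1 - -r) (by ring)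
      rwa [smul_zero, add_zero, smul_neg, neg_smul, neg_neg] at this
  let N : Seminorm ℝ E := gaugeSeminorm hbal hconv habs
  have hNB : ∀ x, N x ≤ 1 ↔ x ∈ B := by
    intro x
    have h1 : gauge B x ≤ 1 ↔ x ∈ closure B := gauge_le_one_iff_mem_closure hconv hnhds
    exact h1.trans ⟨fun h => hclosed h, fun h => subset_closure h⟩
  have hscale : ∀ (q q' : Seminorm ℝ E) (k : ℝ), 0 ≤ k → (∀ x, q x ≤ 1 → k * q' x ≤ 1) →
      ∀ x, k * q' x ≤ q x := by
    intro q q' k hk h x
    refine le_of_forall_gt_imp_ge_of_dense fun r hr => ?_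
    have hr0 : 0 < r := (apply_nonneg q x).trans_lt hr
    have h1 := h (r⁻¹ • x) (by
      rw [map_smul_eq_mul, Real.norm_of_nonneg (inv_nonneg.2 hr0.le), inv_mul_le_iff₀ hr0, mul_one]
      exact hr.le)
    rw [map_smul_eq_mul, Real.norm_of_nonneg (inv_nonneg.2 hr0.le)] at h1
    have h2 : k * (r⁻¹ * q' x) = r⁻¹ * (k * q' x) := by ring
    rw [h2, inv_mul_le_iff₀ hr0, mul_one] at h1
    exact h1
  have hpN : ∀ x, p x ≤ N x := by
    intro x
    have := hscale N p 1 zero_le_one (fun x hx => by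
      rw [one_mul]
      exact (hlt x ((hNB x).1 hx)).le) x
    rwa [one_mul] at this
  have hNp : ∀ x, (1 - ε) * N x ≤ p x := by
    refine hscale p N (1 - ε) (by linarith) fun x hx => ?_
    have h1 : p ((1 - ε) • x) ≤ 1 - ε := by
      rw [map_smul_eq_mul, Real.norm_of_nonneg (by linarith : 0 ≤ 1 - ε)]
      nlinarith
    have h2 := (hNB _).2 (hsmall _ h1)
    rwa [map_smul_eq_mul, Real.norm_of_nonneg (by linarith : 0 ≤ 1 - ε)] at h2
  refine ⟨N, hpN, hNp, hGS E N ?_, ?_⟩
  · intro x hx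
    have hxB : x ∈ B := (hNB x).1 hx.le
    have hpx : p x < 1 := hlt x hxB
    obtain ⟨a', ha1, ha2⟩ := exists_between hpx
    have hc0 : 0 < GTu ε a' := GTu_pos hTH hε ha2
    let T₀ : Finset Γ := (hfin x (GTu ε a' / 2) (by linarith)).toFinset
    -- the terms outside `T₀`
    have hout : ∀ z, p z < a' → p (z - x) < GTu ε a' / 2 → ∀ i, i ∉ T₀ →
        GTF ε (A i z) (J i z) = 0 := by
      intro z hz hzx i hi
      have h1 : ¬ GTu ε a' / 2 < J i x := fun h => hi ((Set.Finite.mem_toFinset _).2 h)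
      have hAz : A i z < a' := (hAp i z).trans_lt hz
      apply GTF_zero hTH hε (hAz.trans ha2)
      have h2 : J i z ≤ J i (z - x) + J i x := by
        have := map_add_le_add (J i) (z - x) x
        rwa [sub_add_cancel] at this
      have h3 := hJp i (z - x)
      have h4 := GTu_anti hTH hε hAz.le
      linarith [not_lt.1 h1]
    refine ⟨{z | p z < a'}, fun z => ∑ i ∈ T₀, GTF ε (A i z) (J i z), isOpen_lt hp continuous_const,
      ?_, ha1, ?_, ?_, ?_, ?_⟩
    · show p 0 < a'
      rw [map_zero]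
      exact (apply_nonneg p x).trans_lt ha1
    · exact ContDiffAt.sum fun i _ => GT_term hTH hε hε1 (A i) (J i) (hA i) (hJ i)
        ((hAp i x).trans_lt hpx) (hAs i x) (hJs i x)
    · refine ⟨?_, ?_⟩
      · intro y hy z hz l m hl hm hlm
        show p (l • y + m • z) < a'
        have := map_add_le_add p (l • y) (m • z)
        rw [map_smul_eq_mul, map_smul_eq_mul, Real.norm_of_nonneg hl,
          Real.norm_of_nonneg hm] at this
        refine this.trans_lt ?_
        have h3 : p y < a' := hy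
        have h4 : p z < a' := hz
        rcases hl.lt_or_eq with hl' | hl'
        · nlinarith
        · subst hl'
          have : m = 1 := by linarith
          subst this
          linarith
      · intro y hy z hz l m hl hm hlm
        have h3 : p y < a' := hy
        have h4 : p z < a' := hz
        show ∑ i ∈ T₀, GTF ε (A i (l • y + m • z)) (J i (l • y + m • z)) ≤
          l • (∑ i ∈ T₀, GTF ε (A i y) (J i y)) + m • (∑ i ∈ T₀, GTF ε (A i z) (J i z))
        rw [smul_eq_mul, smul_eq_mul, Finset.mul_sum, Finset.mul_sum, ← Finset.sum_add_distrib]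
        apply Finset.sum_le_sum
        intro i _
        apply GTF_convex hTH hε (((hAp i y).trans_lt h3).trans ha2)
          (((hAp i z).trans_lt h4).trans ha2) hl hm hlm
        · have := map_add_le_add (A i) (l • y) (m • z)
          rwa [map_smul_eq_mul, map_smul_eq_mul, Real.norm_of_nonneg hl,
            Real.norm_of_nonneg hm] at this
        · have := map_add_le_add (J i) (l • y) (m • z)
          rwa [map_smul_eq_mul, map_smul_eq_mul, Real.norm_of_nonneg hl,
            Real.norm_of_nonneg hm] at this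
    · show ∑ i ∈ T₀, GTF ε (A i 0) (J i 0) = 0
      apply Finset.sum_eq_zero
      intro i _
      rw [map_zero, map_zero]
      exact GTF_zero hTH hε zero_lt_one (GTu_pos hTH hε zero_lt_one).le
    · have e1 : ∀ᶠ z in 𝓝 x, p z < a' := (hp.tendsto x).eventually (gt_mem_nhds ha1)
      have e2 : ∀ᶠ z in 𝓝 x, p (z - x) < GTu ε a' / 2 := by
        have hcz : Continuous (fun z => p (z - x)) := hp.comp (continuous_id.sub continuous_const)
        apply (hcz.tendsto x).eventually (gt_mem_nhds _)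
        rw [sub_self, map_zero]
        linarith
      filter_upwards [e1, e2] with z hz1 hz2
      rw [hNB]
      constructor
      · intro h
        exact h.2 T₀
      · intro h
        have h' : ∑ i ∈ T₀, GTF ε (A i z) (J i z) ≤ 1 := h
        refine ⟨fun i => ((hAp i z).trans_lt hz1).trans ha2, fun T => ?_⟩
        refine le_trans ?_ h'
        rw [← Finset.sum_filter_add_sum_filter_not T (fun i => i ∈ T₀)]
        have h5 : ∑ i ∈ T.filter (fun i => i ∉ T₀), GTF ε (A i z) (J i z) = 0 :=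
          Finset.sum_eq_zero fun i hi => hout z hz1 hz2 i (Finset.mem_filter.1 hi).2
        rw [h5, add_zero]
        apply Finset.sum_le_sum_of_subset_of_nonneg
        · intro i hi
          exact (Finset.mem_filter.1 hi).2
        · intro i _ _
          exact GTF_nonneg hTH hε (((hAp i z).trans_lt hz1).trans ha2)

  · have hle : ∀ x y, (∀ i, A i x = A i y) → (∀ i, J i x = J i y) → N x ≤ N y := by
      intro x y h1 h2
      refine le_of_forall_gt_imp_ge_of_dense fun r hr => ?_
      have hr0 : 0 < r := (apply_nonneg N y).trans_lt hr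
      have h3 : N (r⁻¹ • y) ≤ 1 := by
        rw [map_smul_eq_mul, Real.norm_of_nonneg (inv_nonneg.2 hr0.le), inv_mul_le_iff₀ hr0, mul_one]
        exact hr.le
      have h4 := (hNB _).1 h3
      have h5 : N (r⁻¹ • x) ≤ 1 := by
        refine (hNB _).2 ⟨fun i => ?_, fun T => ?_⟩
        · have := h4.1 i
          rw [map_smul_eq_mul] at this ⊢
          rwa [h1 i]
        · have := h4.2 T
          simp only [map_smul_eq_mul] at this ⊢
          simp only [h1, h2]
          exact this
      rw [map_smul_eq_mul, Real.norm_of_nonneg (inv_nonneg.2 hr0.le), inv_mul_le_iff₀ hr0, mul_one] at h5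
      exact h5
    intro x y h1 h2
    exact le_antisymm (hle x y h1 h2) (hle y x (fun i => (h1 i).symm) fun i => (h2 i).symm)

end main

end SDN
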