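import Pool.Agent.SDN.St

/-!
# SDN: [IX], thresholds on a sigma-discrete space
-/

set_option autoImplicit false

namespace SDN

open Set Topology

/-- lexicographic order of words -/
private def IX_lt (f g : ℕ → ℕ) : Prop := ∃ k, (∀ j < k, f j = g j) ∧ f k < g k

private theorem IX_irr (f : ℕ → ℕ) : ¬ IX_lt f f := by
  rintro ⟨k, -, h⟩
  exact lt_irrefl _ h

private theorem IX_trans {f g h : ℕ → ℕ} (h1 : IX_lt f g) (h2 : IX_lt g h) : IX_lt f h := by
  obtain ⟨k, hk, hk'⟩ := h1
  obtain ⟨l, hl, hl'⟩ := h2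
  rcases lt_trichotomy k l with c | c | c
  · exact ⟨k, fun j hj => (hk j hj).trans (hl j (hj.trans c)), by rw [← hl k c]; exact hk'⟩
  · subst c
    exact ⟨k, fun j hj => (hk j hj).trans (hl j hj), hk'.trans hl'⟩
  · exact ⟨l, fun j hj => (hk j (hj.trans c)).trans (hl j hj), by rw [hk l c]; exact hl'⟩

private theorem IX_of_le {f g : ℕ → ℕ} (k : ℕ) (h1 : ∀ j < k, f j ≤ g j) (h2 : f k < g k) :
    IX_lt f g := by
  classical
  have hex : ∃ j, f j < g j := ⟨k, h2⟩
  refine ⟨Nat.find hex, fun j hj => ?_, Nat.find_spec hex⟩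
  have hjk : j < k := lt_of_lt_of_le hj (Nat.find_le h2)
  exact le_antisymm (h1 j hjk) (not_lt.1 (Nat.find_min hex hj))

open Classical in
/-- the word of a code -/
private noncomputable def IX_chi (c : ℕ × Finset ℕ) (k : ℕ) : ℕ :=
  if k = c.1 then 1 else if k ∈ c.2 then 2 else 0

/-- [IX] -/
theorem thm_IX : St_IX := by
  classical
  intro L _ _ D hD W hW
  obtain ⟨hdis, hcov⟩ := hD
  let n : L → ℕ := fun y => Nat.find (hcov y)
  have hn : ∀ y, y ∈ D (n y) := fun y => Nat.find_spec (hcov y)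
  let D' : ℕ → Set L := fun k => {y | n y = k}
  let A : L → Finset ℕ := fun y => (Finset.range (n y)).filter fun k => y ∈ closure (D' k)
  let cd : L → ℕ × Finset ℕ := fun y => (n y, A y)
  -- neighbourhoods
  have hV : ∀ y, ∃ V : Set L, IsOpen V ∧ y ∈ V ∧ (∀ z ∈ V, n z = n y → z = y) ∧
      ∀ k < n y, k ∉ A y → ∀ z ∈ V, n z ≠ k := by
    intro y
    obtain ⟨V1, hV1, h1⟩ := hdis (n y) y (hn y)
    have h2 : ∀ k ∈ Finset.range (n y), {z : L | k ∉ A y → n z ≠ k} ∈ 𝓝 y := by
      intro k hk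
      by_cases hkA : k ∈ A y
      · exact Filter.mem_of_superset Filter.univ_mem fun z _ h => absurd hkA h
      · have h3 : y ∉ closure (D' k) := fun h => hkA (Finset.mem_filter.2 ⟨hk, h⟩)
        have h4 : (closure (D' k))ᶜ ∈ 𝓝 y := isClosed_closure.isOpen_compl.mem_nhds h3
        exact Filter.mem_of_superset h4 fun z hz _ he => hz (subset_closure he)
    have h3 : V1 ∩ ⋂ k ∈ Finset.range (n y), {z : L | k ∉ A y → n z ≠ k} ∈ 𝓝 y :=
      Filter.inter_mem hV1 ((Filter.biInter_finset_mem _).2 h2)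
    obtain ⟨V, hVs, hVo, hyV⟩ := mem_nhds_iff.1 h3
    refine ⟨V, hVo, hyV, fun z hz he => ?_, fun k hk hkA z hz => ?_⟩
    · exact h1 z (hVs hz).1 (he ▸ hn z)
    · exact mem_iInter₂.1 (hVs hz).2 k (Finset.mem_range.2 hk) hkA
  -- the order of the words
  have key : ∀ y, ∃ V ∈ 𝓝 y, ∀ z ∈ V, z ≠ y → IX_lt (IX_chi (cd z)) (IX_chi (cd y)) := by
    intro y
    obtain ⟨V, hVo, hyV, hV1, hV2⟩ := hV y
    refine ⟨V, hVo.mem_nhds hyV, fun z hz hzy => ?_⟩
    have hne : n z ≠ n y := fun h => hzy (hV1 z hz h)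
    have hA : ∀ k, k < n y → k ∈ A z → k ∈ A y := by
      intro k hk hkz
      by_contra hky
      have h1 : z ∈ closure (D' k) := (Finset.mem_filter.1 hkz).2
      obtain ⟨u, huV, hu⟩ := mem_closure_iff.1 h1 V hVo hz
      exact hV2 k hk hky u huV hu
    have hle : ∀ k, k < n y → k < n z → IX_chi (cd z) k ≤ IX_chi (cd y) k := by
      intro k hk hkz
      unfold IX_chi
      have e1 : k ≠ (cd z).1 := hkz.ne
      have e2 : k ≠ (cd y).1 := hk.ne
      rw [if_neg e1, if_neg e2]
      by_cases h : k ∈ (cd z).2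
      · rw [if_pos h, if_pos (hA k hk h)]
      · rw [if_neg h]
        exact Nat.zero_le _
    rcases lt_or_gt_of_ne hne with c | c
    · refine IX_of_le (n z) (fun j hj => hle j (hj.trans c) hj) ?_
      have h1 : n z ∈ A y := by
        by_contra h
        exact hV2 (n z) c h z hz rfl
      unfold IX_chi
      have e2 : n z ≠ (cd y).1 := c.ne
      rw [if_pos (rfl : n z = (cd z).1), if_neg e2, if_pos (show n z ∈ (cd y).2 from h1)]
      norm_num
    · refine IX_of_le (n y) (fun j hj => hle j hj (hj.trans c)) ?_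
      have h1 : n y ∉ A z := by
        intro h
        have h2 : z ∈ closure (D' (n y)) := (Finset.mem_filter.1 h).2
        have ho : IsOpen (V ∩ {y}ᶜ) := hVo.inter isOpen_compl_singleton
        obtain ⟨u, huV, hu⟩ := mem_closure_iff.1 h2 _ ho ⟨hz, hzy⟩
        exact huV.2 (hV1 u huV.1 hu)
      unfold IX_chi
      have e1 : n y ≠ (cd z).1 := c.ne
      rw [if_pos (rfl : n y = (cd y).1), if_neg e1, if_neg (show n y ∉ (cd z).2 from h1)]
      norm_num
  -- weights
  obtain ⟨w, hw0, s, hs, hsW⟩ := posSumOfEncodable hW (ℕ × Finset ℕ)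
  let G : ℕ × Finset ℕ → ℕ × Finset ℕ → ℝ := fun d c =>
    if IX_lt (IX_chi d) (IX_chi c) then w c else 0
  have hG0 : ∀ d c, 0 ≤ G d c := by
    intro d c
    change 0 ≤ (if IX_lt (IX_chi d) (IX_chi c) then w c else 0)
    split_ifs
    · exact (hw0 c).le
    · exact le_refl _
  have hGw : ∀ d c, G d c ≤ w c := by
    intro d c
    change (if IX_lt (IX_chi d) (IX_chi c) then w c else 0) ≤ w c
    split_ifs
    · exact le_refl _
    · exact (hw0 c).le
  have hGs : ∀ d, Summable (G d) := fun d => Summable.of_nonneg_of_le (hG0 d) (hGw d) hs.summable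
  have hS : ∀ d, HasSum (fun c => G d c + if c = d then w d else 0) ((∑' c, G d c) + w d) :=
    fun d => (hGs d).hasSum.add (hasSum_ite_eq d (w d))
  refine ⟨fun y => 1 + ∑' c, G (cd y) c, fun y => w (cd y), fun y => ?_, fun y => hw0 _,
    fun y => ?_, fun y => ?_⟩
  · have : 0 ≤ ∑' c, G (cd y) c := tsum_nonneg (hG0 _)
    linarith
  · have h1 : (∑' c, G (cd y) c) + w (cd y) ≤ s := by
      refine hasSum_le (fun c => ?_) (hS (cd y)) hs
      by_cases hc : c = cd y
      · have h2 : G (cd y) c = 0 := by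
          change (if IX_lt (IX_chi (cd y)) (IX_chi c) then w c else 0) = 0
          rw [hc, if_neg (IX_irr _)]
        rw [h2, if_pos hc, hc, zero_add]
      · rw [if_neg hc, add_zero]
        exact hGw _ _
    linarith
  · obtain ⟨V, hVn, h⟩ := key y
    refine ⟨V, hVn, fun z hz hzy => ?_⟩
    have hlt := h z hz hzy
    have h1 : (∑' c, G (cd y) c) + w (cd y) ≤ ∑' c, G (cd z) c := by
      refine hasSum_le (fun c => ?_) (hS (cd y)) (hGs (cd z)).hasSum
      by_cases hc : c = cd y
      · have h2 : G (cd y) c = 0 := by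
          change (if IX_lt (IX_chi (cd y)) (IX_chi c) then w c else 0) = 0
          rw [hc, if_neg (IX_irr _)]
        have h3 : G (cd z) c = w c := by
          change (if IX_lt (IX_chi (cd z)) (IX_chi c) then w c else 0) = w c
          rw [hc, if_pos hlt]
        rw [h2, h3, if_pos hc, hc, zero_add]
      · rw [if_neg hc, add_zero]
        by_cases h4 : IX_lt (IX_chi (cd y)) (IX_chi c)
        · have h3 : G (cd z) c = w c := by
            change (if IX_lt (IX_chi (cd z)) (IX_chi c) then w c else 0) = w c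
            rw [if_pos (IX_trans hlt h4)]
          rw [h3]
          exact hGw _ _
        · have h2 : G (cd y) c = 0 := by
            change (if IX_lt (IX_chi (cd y)) (IX_chi c) then w c else 0) = 0
            rw [if_neg h4]
          rw [h2]
          exact hG0 _ _
    linarith

end SDN
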