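import Pool.Agent.SDN.St2

/-!
# SDN: the main construction, for norms
-/

set_option autoImplicit false

namespace SDN

open Set Topology Filter

theorem thm_MA (hMAS : St_MAS) : St_MA := by
  intro E _ _ _ Y _ _ W C β ω m q y0 hW hC0 hβ hω hbw hsep husc hnorm hqm hqC hqc hqd
  obtain ⟨N, h1, h2, h3, -⟩ := hMAS E Y W C β ω m q y0 hW hC0 hβ hω hbw hsep husc hqm hqC hqc hqd
  have hlow : ∀ x, ‖x‖ ≤ (1 + W) * N x := h1 (normSeminorm ℝ E) hnorm
  refine ⟨N, hlow, ?_, ?_⟩
  · intro x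
    exact h2 x _ (mul_nonneg hC0.le (norm_nonneg x)) fun y => hqC y x
  · intro x hx
    refine h3 x ?_
    intro h
    have h4 := hlow x
    rw [h, mul_zero] at h4
    exact hx (norm_le_zero_iff.1 h4)

end SDN
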