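import Pool.Agent.SDN.St

/-!
# SDN: statements, second part (scattered compact linearly ordered spaces)
-/

set_option autoImplicit false

namespace SDN

open Set Topology

/-- every nonempty subset has a relatively isolated point -/
def Scat (K : Type) [TopologicalSpace K] : Prop :=
  ∀ S : Set K, S.Nonempty → ∃ x ∈ S, ∃ V ∈ 𝓝 x, ∀ z ∈ V, z ∈ S → z = x

/-- multiplication by `K` preserves smooth renormability, with control of the constants -/
def Mult (K : Type) [TopologicalSpace K] [CompactSpace K] : Prop :=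
  ∀ (P : Type) [TopologicalSpace P] [CompactSpace P] [T2Space P] (a b : ℝ), 0 < a → 0 < b → SN P a b →
    ∀ ε : ℝ, 0 < ε → SN (K × P) a (b + ε)

/-- seminorms on `C(K, X)`, of class `C^∞` off their zeros, close to `sup {q (f x) | x ∈ F}`, and equal to
`q (f v)` if `f` is constant on `F ∋ v` -/
def Good {K X : Type} [TopologicalSpace K] [CompactSpace K] [NormedAddCommGroup X] [NormedSpace ℝ X]
    (q : Seminorm ℝ X) (F : Set K) : Prop :=
  ∀ ε : ℝ, 0 < ε → ε < 1 → ∃ N : Seminorm ℝ C(K, X),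
    (∀ f : C(K, X), ∀ x ∈ F, q (f x) ≤ (1 + ε) * N f) ∧
    (∀ f : C(K, X), ∀ r : ℝ, 0 ≤ r → (∀ x ∈ F, q (f x) ≤ r) → N f ≤ (1 + ε) * r) ∧
    (∀ f : C(K, X), N f ≠ 0 → ContDiffAt ℝ ((⊤ : ℕ∞) : WithTop ℕ∞) (⇑N) f) ∧
    (∀ f : C(K, X), ∀ v ∈ F, (∀ x ∈ F, f x = f v) → N f = q (f v))

/-- `P u w` passes from the steps of a closed well-ordered chain from `u` to `w` to `P u w` -/
def ChainUp {K : Type} [LinearOrder K] [TopologicalSpace K] (P : K → K → Prop) : Prop :=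
  ∀ (u w : K) (S : Set K), u ≤ w → u ∈ S → w ∈ S → S ⊆ Icc u w → IsClosed S →
    (∀ T : Set K, T ⊆ S → T.Nonempty → ∃ m ∈ T, ∀ t ∈ T, m ≤ t) →
    (∀ s ∈ S, ∀ t ∈ S, s < t → (∀ r ∈ S, ¬ (s < r ∧ r < t)) → P s t ∨ ∀ r : K, ¬ (s < r ∧ r < t)) →
    P u w

/-- the same for chains which are well-ordered by the reverse order -/
def ChainDn {K : Type} [LinearOrder K] [TopologicalSpace K] (P : K → K → Prop) : Prop :=
  ∀ (u w : K) (S : Set K), u ≤ w → u ∈ S → w ∈ S → S ⊆ Icc u w → IsClosed S →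
    (∀ T : Set K, T ⊆ S → T.Nonempty → ∃ m ∈ T, ∀ t ∈ T, t ≤ m) →
    (∀ s ∈ S, ∀ t ∈ S, s < t → (∀ r ∈ S, ¬ (s < r ∧ r < t)) → P s t ∨ ∀ r : K, ¬ (s < r ∧ r < t)) →
    P u w

/-- [SI] (1.5h) Induction on a scattered compact linearly ordered space.
PROOF. `x` is good if there is `V ∈ 𝓝 x` with `P u w` for all `u ≤ w` in `V`.
(0) `P u u` (chain `S = {u}`), and `P u v`, `P v w` (or `v`, `w` neighbours) imply `P u w` (`S = {u, v, w}`).
(A) `u ≤ w`, all points of `Icc u w` good: `P u w`. Let `T = {x ∈ Icc u w | ∀ y ∈ Icc u x, P u y}` and `s` the greatest point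
of `closure T` (`IsCompact.exists_isGreatest`), `V ∋ s` a good neighbourhood, order connected
(`Set.ordConnectedComponent_mem_nhds`), `t ∈ T ∩ V`. By (0) `s ∈ T`. If `s < w`: either `s` has a neighbour `s'` on the right,
then `s' ∈ T` by (0), or there is `y ∈ V`, `s < y ≤ w`, then `y ∈ T`.
(EX) `u < p`: there is a closed well-ordered `S ⊆ Icc u p`, `u, p ∈ S`, such that for neighbours `s < t` in `S`: `t < p` or `s`,
`t = p` are neighbours in `K`. If `Ico u p` has a greatest element `m`: `S = {u, m, p}`. Otherwise take a well-ordering `≺` of `K`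
and `S₀ = {x ∈ Ico u p | ∀ y ∈ Ico u p, y ≺ x → y < x}`: well-ordered by `<` and cofinal in `Ico u p` (for `z` take the
`≺`-least `x ∈ Ico u p` with `z ≤ x`), `S = closure S₀ ∪ {u, p}`; the closure of a set without infinite strictly
decreasing sequences has none (`t₀ > t₁ > ...` in the closure: choose `sₙ ∈ S₀ ∩ Ioo t₂ₙ₊₂ t₂ₙ`;
`Set.isWF_iff_no_descending_seq`).
(B) Suppose the set of the points which are not good is not empty, `p` a relatively isolated point of it, `V ∋ p` an order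
connected neighbourhood with only good points `≠ p`. For `u < p` in `V`: `P u p` by (EX), (A) and `ChainUp`; for `p < w` in `V`
`P p w` by the same in `Kᵒᵈ` and `ChainDn`. So `P u w` for all `u ≤ w` in `V`, and `p` is good. Now (A). -/
def St_SI : Prop :=
  ∀ (K : Type) [LinearOrder K] [TopologicalSpace K] [OrderTopology K] [CompactSpace K], Scat K →
    ∀ P : K → K → Prop, ChainUp P → ChainDn P → ∀ u w : K, u ≤ w → P u w

/-- [GS] as GA', for seminorms. -/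
def St_GS : Prop :=
  ∀ (E : Type) [NormedAddCommGroup E] [NormedSpace ℝ E] [CompleteSpace E] (N : Seminorm ℝ E),
    (∀ x, N x = 1 → ∃ (O : Set E) (Ψ : E → ℝ), IsOpen O ∧ (0 : E) ∈ O ∧ x ∈ O ∧
      ContDiffAt ℝ ((⊤ : ℕ∞) : WithTop ℕ∞) Ψ x ∧ ConvexOn ℝ O Ψ ∧
      Ψ 0 = 0 ∧ ∀ᶠ z in 𝓝 x, (N z ≤ 1 ↔ Ψ z ≤ 1)) →
    ∀ x, N x ≠ 0 → ContDiffAt ℝ ((⊤ : ℕ∞) : WithTop ℕ∞) (⇑N) x

/-- [GTS] as GT, for seminorms, and `N` depends only on the values of `A i`, `J i`. -/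
def St_GTS : Prop :=
  ∀ (E : Type) [NormedAddCommGroup E] [NormedSpace ℝ E] [CompleteSpace E] (Γ : Type)
    (p : Seminorm ℝ E) (A J : Γ → Seminorm ℝ E) (C : ℝ), 0 < C →
    (∀ x, p x ≤ C * ‖x‖) →
    (∀ i x, A i x ≤ p x) → (∀ i x, J i x ≤ p x) →
    (∀ i x, A i x ≠ 0 → ContDiffAt ℝ ((⊤ : ℕ∞) : WithTop ℕ∞) (⇑(A i)) x) →
    (∀ i x, J i x ≠ 0 → ContDiffAt ℝ ((⊤ : ℕ∞) : WithTop ℕ∞) (⇑(J i)) x) →
    (∀ x, ∀ δ : ℝ, 0 < δ → {i | δ < J i x}.Finite) →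
    (∀ x, p x ≠ 0 → ∃ i, A i x = p x ∧ 0 < J i x) →
    ∀ ε : ℝ, 0 < ε → ε < 1 → ∃ N : Seminorm ℝ E, (∀ x, p x ≤ N x) ∧ (∀ x, (1 - ε) * N x ≤ p x) ∧
      (∀ x, N x ≠ 0 → ContDiffAt ℝ ((⊤ : ℕ∞) : WithTop ℕ∞) (⇑N) x) ∧
      ∀ x y, (∀ i, A i x = A i y) → (∀ i, J i x = J i y) → N x = N y

/-- [MAS] as MA, for seminorms, and `N` depends only on the values of the `q y`. -/
def St_MAS : Prop :=
  ∀ (E : Type) [NormedAddCommGroup E] [NormedSpace ℝ E] [CompleteSpace E]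
    (Y : Type) [TopologicalSpace Y] [CompactSpace Y] (W C : ℝ) (β ω : Y → ℝ) (m : Y → E → ℝ)
    (q : Y → Seminorm ℝ E) (y0 : Y), 0 < W → 0 < C →
    (∀ y, 1 ≤ β y) → (∀ y, 0 < ω y) → (∀ y, β y + ω y ≤ 1 + W) →
    (∀ y, ∃ V ∈ 𝓝 y, ∀ z ∈ V, z ≠ y → β y + ω y ≤ β z) →
    (∀ x c y, m y x < c → ∀ᶠ z in 𝓝 y, m z x < c) →
    (∀ y x, y ≠ y0 → q y x ≤ m y x) → (∀ y x, q y x ≤ C * ‖x‖) →
    (∀ y x, m y x * (β y + ω y / 2) ≤ (β y + ω y) * q y x) →
    (∀ y x, q y x ≠ 0 → ContDiffAt ℝ ((⊤ : ℕ∞) : WithTop ℕ∞) (⇑(q y)) x) →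
    ∃ N : Seminorm ℝ E,
      (∀ p : Seminorm ℝ E, (∀ x c, (∀ y, m y x < c) → p x ≤ c) → ∀ x, p x ≤ (1 + W) * N x) ∧
      (∀ x r, 0 ≤ r → (∀ y, q y x ≤ r) → N x ≤ r) ∧
      (∀ x, N x ≠ 0 → ContDiffAt ℝ ((⊤ : ℕ∞) : WithTop ℕ∞) (⇑N) x) ∧
      ∀ x z, (∀ y, q y x = q y z) → N x = N z

/-- the class of the compact spaces `K` such that the smooth seminorms of Banach spaces `X` extend (with constants) to
smooth seminorms on `C(K, X)` close to the supremum of `q (f x)` -/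
def GoodK (K : Type) [TopologicalSpace K] [CompactSpace K] : Prop :=
  ∀ (X : Type) [NormedAddCommGroup X] [NormedSpace ℝ X] [CompleteSpace X] (q : Seminorm ℝ X) (C : ℝ), 0 < C →
    (∀ x, q x ≤ C * ‖x‖) → (∀ x, q x ≠ 0 → ContDiffAt ℝ ((⊤ : ℕ∞) : WithTop ℕ∞) (⇑q) x) →
    Good q (univ : Set K)

/-- [NRM] Normalization.
PROOF. If `q = 0` take `0`. Otherwise let `q x₀ = 1`, `κ = N (const x₀)`, `1 / (1 + e₁) ≤ κ ≤ 1 + e₂`, and take `N / κ`. -/
def St_NRM : Prop :=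
  ∀ (K X : Type) [TopologicalSpace K] [CompactSpace K] [NormedAddCommGroup X] [NormedSpace ℝ X]
    (q : Seminorm ℝ X) (F : Set K) (v : K) (N : Seminorm ℝ C(K, X)) (e₁ e₂ ε : ℝ), v ∈ F → 0 ≤ e₁ → 0 ≤ e₂ →
    (1 + e₁) * (1 + e₂) ≤ 1 + ε →
    (∀ f : C(K, X), ∀ x ∈ F, q (f x) ≤ (1 + e₁) * N f) →
    (∀ f : C(K, X), ∀ r : ℝ, 0 ≤ r → (∀ x ∈ F, q (f x) ≤ r) → N f ≤ (1 + e₂) * r) →
    (∀ f : C(K, X), N f ≠ 0 → ContDiffAt ℝ ((⊤ : ℕ∞) : WithTop ℕ∞) (⇑N) f) →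
    (∀ f g : C(K, X), (∀ x ∈ F, f x = f v) → (∀ x ∈ F, g x = g v) → q (f v) = q (g v) → N f = N g) →
    ∃ N' : Seminorm ℝ C(K, X),
      (∀ f : C(K, X), ∀ x ∈ F, q (f x) ≤ (1 + ε) * N' f) ∧
      (∀ f : C(K, X), ∀ r : ℝ, 0 ≤ r → (∀ x ∈ F, q (f x) ≤ r) → N' f ≤ (1 + ε) * r) ∧
      (∀ f : C(K, X), N' f ≠ 0 → ContDiffAt ℝ ((⊤ : ℕ∞) : WithTop ℕ∞) (⇑N') f) ∧
      (∀ f : C(K, X), ∀ v ∈ F, (∀ x ∈ F, f x = f v) → N' f = q (f v))

/-- [CH] (2h; GTS, NRM) The chain lemma: `π : K → L` continuous and onto, `L` a compact linearly ordered space, the fibres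
are `Good`, and the fibres over the points which are not isolated have only one point. Then `P u w = Good q (π ⁻¹' Icc u w)`
has the property `ChainUp`.
PROOF. `σ : L → K` a section. Let `0 < ε < 1` be given, `η = ε / 8`. For `s ∈ S`, `s < w`, let `s⁺` be the least element of
`S ∩ Ioi s`, `F s = π ⁻¹' Icc s s⁺` if this is `Good`, otherwise (then `s`, `s⁺` are neighbours) `F s = π ⁻¹' {s}`; `F w = π ⁻¹' {w}`.
Let `N s` be as in `Good` for `F s` and `η`. Index set `Γ = S × Bool`: `A (s, false) f = q (f (σ s))`, `A (s, true) f = N s f`;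
`J (s, _) f = N s (f - const (f (σ s⁺))) / 8` for `s < w`, `J (w, b) = A (w, b)`; `p f = ⨆ i, A i f`.
`J ≤ p`: `q (f k) ≤ (1 + η) p f` for all `k ∈ π ⁻¹' Icc u w` (the greatest `s ∈ S ∩ Iic (π k)` has `k ∈ F s`), so
`N s (f - const) ≤ (1 + η) 2 (1 + η) p f`.
`c_0`: let `δ > 0`; if `δ < J (s, _) f`, `s < w`, then there is `k ∈ F s` with `q (f k - f (σ s⁺)) > 4 δ`.
Every `y ∈ L` has an order connected neighbourhood `V` with `q (f k - f k') < 4 δ` for `k, k' ∈ π ⁻¹' V`, or with `V = {y}`; if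
`s, s⁺ ∈ V` then `s` is not exceptional; the only `s ∈ S ∩ V` with `s⁺ ∉ V` is the greatest element of `S ∩ V`. Compactness.
Attained: `R = p f > 0`. For `s ∈ S` let `Q s` be: for all `r < R` there is `i` with `i.1 ≥ s`, `A i f > r`. `Q u`. Let `m` be the
greatest element of `closure {s ∈ S | Q s}`; `m ∈ S`. `Q m`: otherwise `m` is not isolated, there is `r₀ < R` with `A i f ≤ r₀` for all
`i` with `i.1 ≥ m`, so `q (f (σ m)) ≤ r₀`; let `V` be an order connected neighbourhood of `m` with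
`q (f k - f (σ m)) < (R - r₀) / 4` on `π ⁻¹' V`; there is `s₁ ∈ V`, `Q s₁`, `s₁ < m`, and `i` with `i.1 ≥ s₁`,
`A i f > r₀ + (R - r₀) / 2`, so `i.1 = s < m`, `Icc s s⁺ ⊆ V`, `A i f ≤ A i (f - const (f (σ m))) + q (f (σ m)) <
(1 + η) (R - r₀) / 4 + r₀`, contradiction. If `m = w`: `A (w, b) f = R = J (w, b) f` for some `b`. If `m < w`: not `Q m⁺`, so there
is `r₀ < R` with `A i f ≤ r₀` for `i.1 ≥ m⁺`, and `A (m, b) f = R` for some `b`. If `J (m, b) f = 0` then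
`A (m, b) f ≤ A (m, b) (f - const (f (σ m⁺))) + q (f (σ m⁺)) ≤ 0 + r₀ < R`, contradiction.
GTS with `η` gives `N`; normalization (NRM): if `f` is constant on `π ⁻¹' Icc u w` then the `A i f`, `J i f` depend only on `q (f (σ w))`. -/
def St_CH : Prop :=
  ∀ (K L X : Type) [TopologicalSpace K] [CompactSpace K] [LinearOrder L] [TopologicalSpace L] [OrderTopology L]
    [CompactSpace L] [NormedAddCommGroup X] [NormedSpace ℝ X] [CompleteSpace X] (π : C(K, L)) (q : Seminorm ℝ X)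
    (C : ℝ), Function.Surjective π → 0 < C →
    (∀ x, q x ≤ C * ‖x‖) → (∀ x, q x ≠ 0 → ContDiffAt ℝ ((⊤ : ℕ∞) : WithTop ℕ∞) (⇑q) x) →
    (∀ y, Good q (π ⁻¹' {y})) → (∀ y, ¬ IsOpen {y} → ∀ k l, π k = y → π l = y → k = l) →
    ChainUp (fun u w : L => Good q (π ⁻¹' Icc u w))

/-- [FB] (1h; MAS, IX, NRM, PL) Fibres over a sigma-discrete compact space.
PROOF. `K` empty or `L` empty: take `0`. Let `W = ε`, `β`, `ω` from IX. For `y ∈ L` let `δ y = (ω y / 2) / (β y + ω y / 2) / 3 ≤ 1`, `N y` from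
`Good q (π ⁻¹' {y})` (PL) with `δ y`, `q y f = N y f / (1 + δ y)`, `m y f = ⨆ k : π ⁻¹' {y}, q (f k)`:
`q y ≤ m y ≤ (1 + δ y)² q y`, `(1 + δ y)² ≤ 1 + 3 δ y`. Upper semicontinuity as in `CK_usc` (file CK). MAS; for every `k ∈ K` the
seminorm `p f = q (f k)` is `≤ (1 + W) N`. NRM with `F = univ`, `e₁ = W`, `e₂ = 0`: for constant `f`, `q y f = q (f v) / (1 + δ y)`
or `0` (empty fibre). -/
def St_FB : Prop :=
  ∀ (K L : Type) [TopologicalSpace K] [CompactSpace K] [T2Space K] [TopologicalSpace L] [CompactSpace L]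
    [T2Space L] (D : ℕ → Set L) (π : C(K, L)), SigmaDiscrete D →
    (∀ y, ∀ h : CompactSpace (π ⁻¹' {y}), @GoodK (π ⁻¹' {y}) _ h) → GoodK K

/-- [PD] (1h) One point, products, continuous images, and closeness to the supremum norm.
PROOF. Subsingletons: `N f = q (f v)` (or `0`). Products: `f : C(K × L, X)`, `f.curry : C(K, C(L, X))`; `q₂` from `GoodK L` for `q`,
`δ` with `(1 + δ)² ≤ 1 + ε`, then `GoodK K` for `X' = C(L, X)`, `q₂`. Images: compose with `φ`. Close: `X = ℝ`, `q = |·|`, and scaling. -/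
def St_PD : Prop :=
  (∀ (K : Type) [TopologicalSpace K] [CompactSpace K] [Subsingleton K], GoodK K) ∧
  (∀ (K L : Type) [TopologicalSpace K] [CompactSpace K] [T2Space K] [TopologicalSpace L] [CompactSpace L]
    [T2Space L], GoodK K → GoodK L → GoodK (K × L)) ∧
  (∀ (K L : Type) [TopologicalSpace K] [CompactSpace K] [TopologicalSpace L] [CompactSpace L] (φ : C(K, L)),
    Function.Surjective φ → GoodK K → GoodK L) ∧
  (∀ (K : Type) [TopologicalSpace K] [CompactSpace K], GoodK K → Close K)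

/-- [PL] (0.5h) `Good` for a subset, from the subspace.
PROOF. Restriction `C(K, X) → C(F, X)`. -/
def St_PL : Prop :=
  ∀ (K X : Type) [TopologicalSpace K] [CompactSpace K] [NormedAddCommGroup X] [NormedSpace ℝ X]
    (q : Seminorm ℝ X) (F : Set K) [CompactSpace F], Good q (univ : Set F) → Good q F

/-- [PR] (1h) From `Good q univ` to products.
PROOF. `X = C(P, ℝ)`, `q` the given norm of `X`, `a ‖g‖ ≤ q g ≤ b ‖g‖`. `C(K × P, ℝ) → C(K, C(P, ℝ))`, `f ↦ f.curry` linear, continuous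
and injective; `q` is smooth off `0` and `q x = 0` only for `x = 0`. `Good q univ` for small `δ` gives `N`, and
`f ↦ (1 + δ) N (f.curry)` is the norm: `a |f (k, z)| ≤ a ‖f.curry k‖ ≤ q (f.curry k) ≤ (1 + δ) N`, and
`N (f.curry) ≤ (1 + δ) b ‖f‖`. (`K` empty: `f = 0`, no problem.) -/
def St_PR : Prop :=
  ∀ (K : Type) [TopologicalSpace K] [CompactSpace K],
    (∀ (X : Type) [NormedAddCommGroup X] [NormedSpace ℝ X] [CompleteSpace X] (q : Seminorm ℝ X) (C : ℝ), 0 < C →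
      (∀ x, q x ≤ C * ‖x‖) → (∀ x, q x ≠ 0 → ContDiffAt ℝ ((⊤ : ℕ∞) : WithTop ℕ∞) (⇑q) x) →
      Good q (univ : Set K)) → Mult K

end SDN
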