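import Pool.Agent.SDN.MK
import Pool.Agent.SDN.St2

/-!
# SDN: the main construction, for seminorms
-/

set_option autoImplicit false

namespace SDN

open Set Topology Filter Pointwise

theorem MAS_tcd {E : Type} [NormedAddCommGroup E] [NormedSpace ℝ E]
    (hth : ContDiff ℝ ((⊤ : ℕ∞) : WithTop ℕ∞) th) (hth0 : ∀ x, x ≤ 0 → th x = 0)
    (q : Seminorm ℝ E) (hc : Continuous q) (b M : ℝ) (hb : 1 ≤ b)
    (hq : ∀ x, q x ≠ 0 → ContDiffAt ℝ ((⊤ : ℕ∞) : WithTop ℕ∞) (⇑q) x) (x : E) :
    ContDiffAt ℝ ((⊤ : ℕ∞) : WithTop ℕ∞) (fun z => M * th (q z - b)) x := by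
  by_cases h : q x = 0
  · have h1 : ∀ᶠ z in 𝓝 x, q z < 1 := by
      have : q x < 1 := by rw [h]; exact one_pos
      exact hc.continuousAt.eventually (gt_mem_nhds this)
    refine (contDiffAt_const (c := (0 : ℝ))).congr_of_eventuallyEq ?_
    filter_upwards [h1] with z hz
    rw [hth0 _ (by linarith), mul_zero]
  · have h1 := (hq x h).sub (contDiffAt_const (c := b))
    exact contDiffAt_const.mul (hth.contDiffAt.comp x h1)

theorem MAS_tconv {E : Type} [NormedAddCommGroup E] [NormedSpace ℝ E]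
    (hmono : Monotone th) (hcv : ConvexOn ℝ univ th) (q : Seminorm ℝ E) (b M : ℝ) (hM : 0 ≤ M) :
    ConvexOn ℝ univ (fun z => M * th (q z - b)) := by
  refine ⟨convex_univ, ?_⟩
  intro x _ y _ s u hs hu hsu
  have h1 : q (s • x + u • y) ≤ s * q x + u * q y := by
    have h2 := map_add_le_add q (s • x) (u • y)
    rw [map_smul_eq_mul, map_smul_eq_mul, Real.norm_of_nonneg hs, Real.norm_of_nonneg hu] at h2
    exact h2
  have h3 : q (s • x + u • y) - b ≤ s • (q x - b) + u • (q y - b) := by
    simp only [smul_eq_mul]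
    have : b = s * b + u * b := by rw [← add_mul, hsu, one_mul]
    linarith
  have h4 := hcv.2 (mem_univ (q x - b)) (mem_univ (q y - b)) hs hu hsu
  have h5 := (hmono h3).trans h4
  simp only [smul_eq_mul] at h5 ⊢
  calc M * th (q (s • x + u • y) - b) ≤ M * (s * th (q x - b) + u * th (q y - b)) :=
        mul_le_mul_of_nonneg_left h5 hM
    _ = _ := by ring

theorem thm_MAS (hTH : St_TH) (hGS : St_GS) : St_MAS := by
  classical
  obtain ⟨hth, hth0, hthp, hmono, hcv⟩ := hTH
  have hthn : ∀ x, 0 ≤ th x := by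
    intro x
    rcases le_or_gt x 0 with h | h
    · rw [hth0 x h]
    · exact (hthp x h).le
  intro E _ _ _ Y _ _ W C β ω m q y0 hW hC0 hβ hω hbw hsep husc hqm hqC hqc hqd
  have hcont : ∀ y, Continuous (q y) := fun y => MK_cont (q y) C hC0.le (hqC y)
  set M : Y → ℝ := fun y => 2 / th (ω y / 2) with hMdef
  have hωp : ∀ y, 0 < th (ω y / 2) := fun y => hthp _ (by linarith [hω y])
  have hMp : ∀ y, 0 < M y := fun y => div_pos two_pos (hωp y)
  set t : Y → E → ℝ := fun y x => M y * th (q y x - β y) with htdef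
  have ht0 : ∀ y x, 0 ≤ t y x := fun y x => mul_nonneg (hMp y).le (hthn _)
  have htz : ∀ y x, q y x ≤ β y → t y x = 0 := by
    intro y x h
    simp only [htdef]
    rw [hth0 _ (by linarith), mul_zero]
  have htconv : ∀ y, ConvexOn ℝ univ (t y) := fun y => MAS_tconv hmono hcv (q y) (β y) (M y) (hMp y).le
  have htcd : ∀ y x, ContDiffAt ℝ ((⊤ : ℕ∞) : WithTop ℕ∞) (t y) x := fun y x =>
    MAS_tcd hth hth0 (q y) (hcont y) (β y) (M y) (hβ y) (hqd y) x
  have htc : ∀ y, Continuous (t y) := by
    intro y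
    exact continuous_const.mul (hth.continuous.comp ((hcont y).sub continuous_const))
  set B : Set E := {x | ∀ T : Finset Y, ∑ y ∈ T, t y x ≤ 1} with hB
  have hBcl : IsClosed B := by
    have : B = ⋂ T : Finset Y, {x | ∑ y ∈ T, t y x ≤ 1} := by
      ext x; simp [hB]
    rw [this]
    refine isClosed_iInter ?_
    intro T
    exact isClosed_le (continuous_finsetSum _ fun y _ => htc y) continuous_const
  have hBcv : Convex ℝ B := by
    have : B = ⋂ T : Finset Y, {x | ∑ y ∈ T, t y x ≤ 1} := by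
      ext x; simp [hB]
    rw [this]
    refine convex_iInter ?_
    intro T
    have h1 := (MK_sumconv univ convex_univ T t htconv).convex_le 1
    simpa using h1
  have hBbal : ∀ x ∈ B, ∀ a : ℝ, |a| ≤ 1 → a • x ∈ B := by
    intro x hx a ha T
    refine (Finset.sum_le_sum ?_).trans (hx T)
    intro y _
    refine mul_le_mul_of_nonneg_left (hmono ?_) (hMp y).le
    rw [map_smul_eq_mul, Real.norm_eq_abs]
    nlinarith [apply_nonneg (q y) x]
  have hball' : ∀ x : E, (∀ y, q y x ≤ 1) → x ∈ B := by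
    intro x hx T
    have : ∀ y ∈ T, t y x = 0 := fun y _ => htz y x ((hx y).trans (hβ y))
    rw [Finset.sum_eq_zero this]
    exact zero_le_one
  have hball : ∀ x : E, C * ‖x‖ ≤ 1 → x ∈ B := fun x hx => hball' x fun y => (hqC y x).trans hx
  have hB0 : B ∈ 𝓝 (0 : E) := by
    refine Filter.mem_of_superset (Metric.ball_mem_nhds (0 : E) (inv_pos.2 hC0)) ?_
    intro x hx
    rw [mem_ball_zero_iff] at hx
    refine hball x ?_
    have := mul_lt_mul_of_pos_left hx hC0
    rw [mul_inv_cancel₀ hC0.ne'] at this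
    exact this.le
  obtain ⟨N, hN⟩ := MK_exists B hBcv hBcl hBbal hB0
  have hcap : ∀ x ∈ B, ∀ y, m y x < β y + ω y := by
    intro x hx y
    by_contra hcon
    rw [not_lt] at hcon
    have h1 := hqc y x
    have h2 : β y + ω y / 2 ≤ q y x := by
      have h3 : (β y + ω y) * (β y + ω y / 2) ≤ (β y + ω y) * q y x := by
        refine le_trans ?_ h1
        exact mul_le_mul_of_nonneg_right hcon (by linarith [hβ y, hω y])
      exact le_of_mul_le_mul_left h3 (by linarith [hβ y, hω y])
    have h4 : th (ω y / 2) ≤ th (q y x - β y) := hmono (by linarith)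
    have h5 : (2 : ℝ) ≤ t y x := by
      have h6 : M y * th (ω y / 2) ≤ t y x := mul_le_mul_of_nonneg_left h4 (hMp y).le
      have h7 : M y * th (ω y / 2) = 2 := by
        simp only [hMdef]
        exact div_mul_cancel₀ _ (hωp y).ne'
      linarith
    have h8 := hx {y}
    rw [Finset.sum_singleton] at h8
    linarith
  have hlow : ∀ p : Seminorm ℝ E, (∀ x c, (∀ y, m y x < c) → p x ≤ c) → ∀ x, p x ≤ (1 + W) * N x := by
    intro p hp x
    refine MK_bound N p (1 + W) (by linarith) ?_ x
    intro z hz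
    have hzB := (hN z).1 hz
    exact hp z (1 + W) (fun y => (hcap z hzB y).trans_le (hbw y))
  have hup : ∀ x r, 0 ≤ r → (∀ y, q y x ≤ r) → N x ≤ r := by
    intro x r hr h
    refine le_of_forall_gt_imp_ge_of_dense fun c hc => ?_
    have hc0 : 0 < c := hr.trans_lt hc
    have h1 : N (c⁻¹ • x) ≤ 1 := by
      refine (hN _).2 (hball' _ fun y => ?_)
      rw [map_smul_eq_mul, Real.norm_of_nonneg (inv_nonneg.2 hc0.le), inv_mul_le_iff₀ hc0, mul_one]
      exact (h y).trans hc.le
    rw [map_smul_eq_mul, Real.norm_of_nonneg (inv_nonneg.2 hc0.le), inv_mul_le_iff₀ hc0, mul_one] at h1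
    exact h1
  have hval : ∀ x z, (∀ y, q y x = q y z) → N x = N z := by
    have hle : ∀ x z, (∀ y, q y x = q y z) → N x ≤ N z := by
      intro x z h
      refine le_of_forall_gt_imp_ge_of_dense fun r hr => ?_
      have hr0 : 0 < r := (apply_nonneg N z).trans_lt hr
      have h3 : N (r⁻¹ • z) ≤ 1 := by
        rw [map_smul_eq_mul, Real.norm_of_nonneg (inv_nonneg.2 hr0.le), inv_mul_le_iff₀ hr0, mul_one]
        exact hr.le
      have h4 := (hN _).1 h3
      have h5 : N (r⁻¹ • x) ≤ 1 := by
        refine (hN _).2 fun T => ?_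
        have h6 := h4 T
        simp only [htdef, map_smul_eq_mul] at h6 ⊢
        simp only [h]
        exact h6
      rw [map_smul_eq_mul, Real.norm_of_nonneg (inv_nonneg.2 hr0.le), inv_mul_le_iff₀ hr0, mul_one] at h5
      exact h5
    intro x z h
    exact le_antisymm (hle x z h) (hle z x fun y => (h y).symm)
  refine ⟨N, hlow, hup, ?_, hval⟩
  refine hGS E N ?_
  intro x hx
  have hxB : x ∈ B := (hN x).1 hx.le
  set e : Y → ℝ := fun s => (β s + ω s - m s x) / 2 with he
  have hep : ∀ s, 0 < e s := fun s => by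
    have := hcap x hxB s
    simp only [he]; linarith
  have hloc : ∀ s, {y | y ≠ s → y ≠ y0 → q y x < β y - e s} ∈ 𝓝 s := by
    intro s
    obtain ⟨V, hV, hV2⟩ := hsep s
    have h1 := husc x (β s + ω s - e s) s (by
      have h2 := hep s
      have h3 : m s x = β s + ω s - 2 * e s := by simp only [he]; ring
      linarith)
    filter_upwards [h1, hV] with y hy1 hy2 hys hy0
    have h4 := hV2 y hy2 hys
    have h5 := hqm y x hy0
    linarith
  obtain ⟨T0, hT0⟩ := CompactSpace.elim_nhds_subcover _ hloc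
  obtain ⟨d, hd, hd2⟩ := MK_finmin T0 e hep
  set T : Finset Y := insert y0 T0 with hT
  have hout : ∀ y, y ∉ T → q y x < β y - d := by
    intro y hy
    have h1 : y ∈ ⋃ s ∈ T0, {y | y ≠ s → y ≠ y0 → q y x < β y - e s} := by
      rw [hT0]; trivial
    simp only [mem_iUnion, mem_ofPred_eq, exists_prop] at h1
    obtain ⟨s, hs, h2⟩ := h1
    have h3 : y ≠ s := by
      rintro rfl
      exact hy (Finset.mem_insert_of_mem hs)
    have h4 : y ≠ y0 := by
      rintro rfl
      exact hy (Finset.mem_insert_self _ _)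
    have h5 := h2 h3 h4
    have h6 := hd2 s hs
    linarith
  have hzero : ∀ z, C * ‖z - x‖ < d → ∀ y, y ∉ T → t y z = 0 := by
    intro z hz y hy
    refine htz y z ?_
    have h1 : q y z ≤ q y x + q y (z - x) := by
      have := map_add_le_add (q y) x (z - x)
      simpa using this
    have h2 := hqC y (z - x)
    have h3 := hout y hy
    linarith
  refine ⟨univ, fun z => ∑ y ∈ T, t y z, isOpen_univ, mem_univ _, mem_univ _, ?_,
    MK_sumconv univ convex_univ T t htconv, ?_, ?_⟩
  · exact ContDiffAt.sum fun y _ => htcd y x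
  · refine Finset.sum_eq_zero ?_
    intro y _
    refine htz y 0 ?_
    rw [map_zero]
    linarith [hβ y]
  · filter_upwards [Metric.ball_mem_nhds x (div_pos hd hC0)] with z hz
    rw [mem_ball_iff_norm, lt_div_iff₀ hC0, mul_comm] at hz
    rw [hN z]
    constructor
    · intro h
      exact h T
    · intro h T'
      have h1 : ∑ y ∈ T', t y z ≤ ∑ y ∈ T' ∪ T, t y z :=
        Finset.sum_le_sum_of_subset_of_nonneg Finset.subset_union_left fun y _ _ => ht0 y z
      have h2 : ∑ y ∈ T, t y z = ∑ y ∈ T' ∪ T, t y z :=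
        Finset.sum_subset Finset.subset_union_right fun y _ hy => hzero z hz y hy
      exact h1.trans (h2 ▸ h)

end SDN
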