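import Pool.Agent.SDN.St2

/-!
# SDN: elementary permanence properties, `NRM`, `PL`, `PD`
-/

set_option autoImplicit false

namespace SDN

open Set Topology

private theorem PD_comp {E F : Type} [NormedAddCommGroup E] [NormedSpace ℝ E] [NormedAddCommGroup F]
    [NormedSpace ℝ F] (q : Seminorm ℝ F) (L : E →L[ℝ] F) (x : E)
    (hq : ContDiffAt ℝ ((⊤ : ℕ∞) : WithTop ℕ∞) (⇑q) (L x)) :
    ContDiffAt ℝ ((⊤ : ℕ∞) : WithTop ℕ∞) (⇑(q.comp (L : E →ₗ[ℝ] F))) x :=
  hq.comp x L.contDiff.contDiffAt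

/-- the seminorm `x ↦ q (L x)` -/
private theorem PD_pull {E F : Type} [NormedAddCommGroup E] [NormedSpace ℝ E] [NormedAddCommGroup F]
    [NormedSpace ℝ F] (q : Seminorm ℝ F)
    (hq : ∀ x, q x ≠ 0 → ContDiffAt ℝ ((⊤ : ℕ∞) : WithTop ℕ∞) (⇑q) x) (L : E →L[ℝ] F) :
    ∃ N : Seminorm ℝ E, (∀ x, N x = q (L x)) ∧
      ∀ x, N x ≠ 0 → ContDiffAt ℝ ((⊤ : ℕ∞) : WithTop ℕ∞) (⇑N) x :=
  ⟨q.comp (L : E →ₗ[ℝ] F), fun _ => rfl, fun x hx => PD_comp q L x (hq _ hx)⟩

/-- scaling -/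
private theorem PD_scale {E : Type} [NormedAddCommGroup E] [NormedSpace ℝ E] (q : Seminorm ℝ E)
    (hq : ∀ x, q x ≠ 0 → ContDiffAt ℝ ((⊤ : ℕ∞) : WithTop ℕ∞) (⇑q) x) (s : ℝ) (hs : 0 ≤ s) :
    ∃ N : Seminorm ℝ E, (∀ x, N x = s * q x) ∧
      ∀ x, N x ≠ 0 → ContDiffAt ℝ ((⊤ : ℕ∞) : WithTop ℕ∞) (⇑N) x := by
  obtain ⟨N, hN1, hN2⟩ := PD_pull q hq (s • ContinuousLinearMap.id ℝ E)
  refine ⟨N, fun x => ?_, hN2⟩
  rw [hN1 x]
  show q (s • x) = s * q x
  rw [map_smul_eq_mul, Real.norm_of_nonneg hs]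

/-- composition with a continuous map, as a continuous linear map -/
private theorem PD_cm {K L X : Type} [TopologicalSpace K] [CompactSpace K] [TopologicalSpace L]
    [CompactSpace L] [NormedAddCommGroup X] [NormedSpace ℝ X] (φ : C(K, L)) :
    ∃ R : C(L, X) →L[ℝ] C(K, X), ∀ f k, R f k = f (φ k) := by
  let R0 : C(L, X) →ₗ[ℝ] C(K, X) :=
    { toFun := fun f => f.comp φ
      map_add' := fun _ _ => rfl
      map_smul' := fun _ _ => rfl }
  refine ⟨R0.mkContinuous 1 ?_, fun f k => rfl⟩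
  intro f
  rw [one_mul]
  refine (ContinuousMap.norm_le _ (norm_nonneg f)).2 ?_
  intro x
  exact f.norm_coe_le_norm (φ x)

/-- currying as a continuous linear map -/
private theorem PD_cu {K L X : Type} [TopologicalSpace K] [CompactSpace K] [TopologicalSpace L]
    [CompactSpace L] [NormedAddCommGroup X] [NormedSpace ℝ X] :
    ∃ R : C(K × L, X) →L[ℝ] C(K, C(L, X)), ∀ f k l, R f k l = f (k, l) := by
  let R0 : C(K × L, X) →ₗ[ℝ] C(K, C(L, X)) :=
    { toFun := fun f => f.curry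
      map_add' := fun _ _ => rfl
      map_smul' := fun _ _ => rfl }
  refine ⟨R0.mkContinuous 1 ?_, fun f k l => rfl⟩
  intro f
  rw [one_mul]
  refine (ContinuousMap.norm_le _ (norm_nonneg f)).2 (fun k => ?_)
  refine (ContinuousMap.norm_le _ (norm_nonneg f)).2 (fun l => ?_)
  exact f.norm_coe_le_norm (k, l)

theorem thm_NRM : St_NRM := by
  intro K X _ _ _ _ q F v N e₁ e₂ ε hv he1 he2 hee hN1 hN2 hN3 hN4
  have hε : 1 ≤ 1 + ε := by nlinarith [mul_nonneg he1 he2]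
  by_cases hq : ∀ x, q x = 0
  · refine ⟨0, ?_, ?_, ?_, ?_⟩
    · intro f x _
      rw [hq]
      simp
    · intro f r hr _
      show (0 : ℝ) ≤ _
      exact mul_nonneg (by linarith) hr
    · intro f hf
      exact absurd rfl hf
    · intro f w _ _
      rw [hq]
      rfl
  · simp only [not_forall] at hq
    obtain ⟨x1, hx1⟩ := hq
    have hx1p : 0 < q x1 := lt_of_le_of_ne (apply_nonneg q x1) (Ne.symm hx1)
    obtain ⟨x0, hx0⟩ : ∃ x0, q x0 = 1 := ⟨(q x1)⁻¹ • x1, by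
      rw [map_smul_eq_mul, Real.norm_of_nonneg (inv_nonneg.2 hx1p.le), inv_mul_cancel₀ hx1]⟩
    set κ : ℝ := N (ContinuousMap.const K x0) with hκ
    have hκ1 : 1 ≤ (1 + e₁) * κ := by
      have := hN1 (ContinuousMap.const K x0) v hv
      rwa [ContinuousMap.const_apply, hx0] at this
    have hκ2 : κ ≤ 1 + e₂ := by
      have := hN2 (ContinuousMap.const K x0) 1 zero_le_one (fun x _ => by
        rw [ContinuousMap.const_apply, hx0])
      rwa [mul_one] at this
    have hκ0 : 0 < κ := by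
      by_contra h
      nlinarith [mul_nonneg he1 (sub_nonneg.2 (not_lt.1 h))]
    obtain ⟨N', hN'1, hN'2⟩ := PD_scale N hN3 κ⁻¹ (inv_nonneg.2 hκ0.le)
    have hN'3 : ∀ f, N f = κ * N' f := by
      intro f
      rw [hN'1, mul_inv_cancel_left₀ hκ0.ne']
    refine ⟨N', ?_, ?_, hN'2, ?_⟩
    · intro f x hx
      have h1 := hN1 f x hx
      have h2 : 0 ≤ N' f := apply_nonneg N' f
      rw [hN'3 f] at h1
      calc q (f x) ≤ (1 + e₁) * (κ * N' f) := h1
        _ = ((1 + e₁) * κ) * N' f := by ring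
        _ ≤ ((1 + e₁) * (1 + e₂)) * N' f :=
          mul_le_mul_of_nonneg_right (mul_le_mul_of_nonneg_left hκ2 (by linarith)) h2
        _ ≤ (1 + ε) * N' f := mul_le_mul_of_nonneg_right hee h2
    · intro f r hr hf
      have h1 := hN2 f r hr hf
      have h3 : κ⁻¹ ≤ 1 + e₁ := by
        rw [inv_le_iff_one_le_mul₀ hκ0]
        exact hκ1
      calc N' f = κ⁻¹ * N f := hN'1 f
        _ ≤ κ⁻¹ * ((1 + e₂) * r) := mul_le_mul_of_nonneg_left h1 (inv_nonneg.2 hκ0.le)
        _ ≤ (1 + e₁) * ((1 + e₂) * r) :=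
          mul_le_mul_of_nonneg_right h3 (mul_nonneg (by linarith) hr)
        _ = ((1 + e₁) * (1 + e₂)) * r := by ring
        _ ≤ (1 + ε) * r := mul_le_mul_of_nonneg_right hee hr
    · intro f w hw hf
      have hf' : ∀ x ∈ F, f x = f v := fun x hx => by rw [hf x hx, hf v hv]
      have h1 : N f = N (q (f v) • ContinuousMap.const K x0) := by
        refine hN4 f _ hf' (fun x _ => rfl) ?_
        show q (f v) = q (q (f v) • x0)
        rw [map_smul_eq_mul, hx0, mul_one, Real.norm_of_nonneg (apply_nonneg q _)]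
      rw [map_smul_eq_mul, Real.norm_of_nonneg (apply_nonneg q _), ← hκ] at h1
      rw [hN'1, h1, hf v hv]
      field_simp

theorem thm_PL : St_PL := by
  intro K X _ _ _ _ q F _ hG ε hε hε1
  obtain ⟨N, hN1, hN2, hN3, hN4⟩ := hG ε hε hε1
  obtain ⟨R, hR⟩ := PD_cm (X := X) (⟨Subtype.val, continuous_subtype_val⟩ : C(F, K))
  have hR' : ∀ (f : C(K, X)) (x : F), R f x = f x := fun f x => hR f x
  obtain ⟨N', hN'1, hN'2⟩ := PD_pull N hN3 R
  refine ⟨N', ?_, ?_, hN'2, ?_⟩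
  · intro f x hx
    rw [hN'1]
    have := hN1 (R f) ⟨x, hx⟩ (mem_univ _)
    rwa [hR'] at this
  · intro f r hr hf
    rw [hN'1]
    exact hN2 (R f) r hr (fun x _ => by
      rw [hR']
      exact hf x x.2)
  · intro f v hv hf
    rw [hN'1]
    have := hN4 (R f) ⟨v, hv⟩ (mem_univ _) (fun x _ => by
      rw [hR', hR']
      exact hf x x.2)
    rwa [hR'] at this

theorem thm_PD : St_PD := by
  refine ⟨?_, ?_, ?_, ?_⟩
  · intro K _ _ _ X _ _ _ q C hC hqC hq ε hε hε1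
    rcases isEmpty_or_nonempty K with hK | ⟨⟨v⟩⟩
    · refine ⟨0, fun f x _ => (hK.false x).elim, fun f r hr _ => ?_, fun f hf => absurd rfl hf,
        fun f x _ _ => (hK.false x).elim⟩
      show (0 : ℝ) ≤ _
      exact mul_nonneg (by linarith) hr
    · obtain ⟨N, hN1, hN2⟩ := PD_pull q hq (ContinuousMap.evalCLM ℝ v : C(K, X) →L[ℝ] X)
      have hN3 : ∀ (f : C(K, X)) (x : K), N f = q (f x) := by
        intro f x
        rw [hN1, Subsingleton.elim x v]
        rfl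
      refine ⟨N, fun f x _ => ?_, fun f r hr hf => ?_, hN2, fun f x _ _ => hN3 f x⟩
      · rw [hN3 f x]
        have := apply_nonneg q (f x)
        nlinarith
      · rw [hN3 f v]
        have := hf v (mem_univ _)
        nlinarith
  · intro K L _ _ _ _ _ _ hK hL X _ _ _ q C hC hqC hq ε hε hε1
    have hδ0 : 0 < ε / 3 := by linarith
    have hδ1 : ε / 3 < 1 := by linarith
    have hδ : (1 + ε / 3) * (1 + ε / 3) ≤ 1 + ε := by nlinarith
    set δ : ℝ := ε / 3 with hδd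
    obtain ⟨N₂, h21, h22, h23, h24⟩ := hL X q C hC hqC hq δ hδ0 hδ1
    obtain ⟨N₁, h11, h12, h13, h14⟩ := hK C(L, X) N₂ ((1 + δ) * C) (by positivity) (fun g => by
      rw [mul_assoc]
      refine h22 g (C * ‖g‖) (by positivity) (fun x _ => ?_)
      exact (hqC _).trans (mul_le_mul_of_nonneg_left (g.norm_coe_le_norm x) hC.le)) h23 δ hδ0 hδ1
    obtain ⟨R, hR⟩ := PD_cu (K := K) (L := L) (X := X)
    obtain ⟨N, hN1, hN2⟩ := PD_pull N₁ h13 R
    refine ⟨N, ?_, ?_, hN2, ?_⟩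
    · rintro f ⟨k, l⟩ _
      rw [hN1]
      have h1 := h21 (R f k) l (mem_univ _)
      have h2 := h11 (R f) k (mem_univ _)
      rw [hR] at h1
      have h3 : 0 ≤ N₁ (R f) := apply_nonneg N₁ _
      calc q (f (k, l)) ≤ (1 + δ) * N₂ (R f k) := h1
        _ ≤ (1 + δ) * ((1 + δ) * N₁ (R f)) := mul_le_mul_of_nonneg_left h2 (by linarith)
        _ = (1 + δ) * (1 + δ) * N₁ (R f) := by ring
        _ ≤ (1 + ε) * N₁ (R f) := mul_le_mul_of_nonneg_right hδ h3
    · intro f r hr hf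
      rw [hN1]
      have h1 : ∀ k ∈ (univ : Set K), N₂ (R f k) ≤ (1 + δ) * r := by
        intro k _
        refine h22 (R f k) r hr (fun l _ => ?_)
        rw [hR]
        exact hf (k, l) (mem_univ _)
      calc N₁ (R f) ≤ (1 + δ) * ((1 + δ) * r) := h12 (R f) _ (by positivity) h1
        _ = (1 + δ) * (1 + δ) * r := by ring
        _ ≤ (1 + ε) * r := mul_le_mul_of_nonneg_right hδ hr
    · rintro f ⟨k0, l0⟩ _ hf
      rw [hN1, h14 (R f) k0 (mem_univ _) (fun k _ => by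
        ext l
        rw [hR, hR, hf (k, l) (mem_univ _), hf (k0, l) (mem_univ _)]),
        h24 (R f k0) l0 (mem_univ _) (fun l _ => by
          rw [hR, hR, hf (k0, l) (mem_univ _)]), hR]
  · intro K L _ _ _ _ φ hφ hK X _ _ _ q C hC hqC hq ε hε hε1
    obtain ⟨N, hN1, hN2, hN3, hN4⟩ := hK X q C hC hqC hq ε hε hε1
    obtain ⟨R, hR⟩ := PD_cm (X := X) φ
    obtain ⟨N', hN'1, hN'2⟩ := PD_pull N hN3 R
    refine ⟨N', ?_, ?_, hN'2, ?_⟩
    · intro f l _
      obtain ⟨k, rfl⟩ := hφ l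
      rw [hN'1]
      have := hN1 (R f) k (mem_univ _)
      rwa [hR] at this
    · intro f r hr hf
      rw [hN'1]
      exact hN2 (R f) r hr (fun k _ => by
        rw [hR]
        exact hf _ (mem_univ _))
    · intro f l _ hf
      obtain ⟨k, rfl⟩ := hφ l
      rw [hN'1, hN4 (R f) k (mem_univ _) (fun k' _ => by
        rw [hR, hR, hf _ (mem_univ _)]), hR]
  · intro K _ _ hK ε hε
    obtain ⟨δ, hδ0, hδ1, hδ⟩ : ∃ δ : ℝ, 0 < δ ∧ δ < 1 ∧ (1 + δ) * (1 + δ) ≤ 1 + ε := by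
      refine ⟨min (1 / 2) (ε / 3), by positivity, ?_, ?_⟩
      · exact lt_of_le_of_lt (min_le_left _ _) (by norm_num)
      · set δ := min (1 / 2) (ε / 3) with hδ
        have h0 : 0 < δ := by positivity
        have h1 : δ ≤ 1 / 2 := min_le_left _ _
        have h2 : δ ≤ ε / 3 := min_le_right _ _
        nlinarith
    obtain ⟨N, hN1, hN2, hN3, -⟩ := hK ℝ (normSeminorm ℝ ℝ) 1 one_pos
      (fun x => by
        rw [one_mul]
        exact le_rfl)
      (fun x hx => by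
        have hx' : x ≠ 0 := by
          rintro rfl
          exact hx (map_zero _)
        exact contDiffAt_norm ℝ hx') δ hδ0 hδ1
    have hN1' : ∀ (f : C(K, ℝ)) (x : K), ‖f x‖ ≤ (1 + δ) * N f := fun f x => hN1 f x (mem_univ _)
    obtain ⟨M, hM1, hM2⟩ := PD_scale N hN3 (1 + δ) (by linarith)
    have hlow : ∀ f, ‖f‖ ≤ M f := by
      intro f
      rw [hM1]
      exact (ContinuousMap.norm_le _ (mul_nonneg (by linarith) (apply_nonneg N f))).2 (hN1' f)
    refine ⟨M, fun f => ⟨by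
      rw [one_mul]
      exact hlow f, ?_⟩, fun f hf => hM2 f ?_⟩
    · have h1 : N f ≤ (1 + δ) * ‖f‖ := hN2 f ‖f‖ (norm_nonneg f) (fun x _ => f.norm_coe_le_norm x)
      calc M f = (1 + δ) * N f := hM1 f
        _ ≤ (1 + δ) * ((1 + δ) * ‖f‖) := mul_le_mul_of_nonneg_left h1 (by linarith)
        _ = (1 + δ) * (1 + δ) * ‖f‖ := by ring
        _ ≤ (1 + ε) * ‖f‖ := mul_le_mul_of_nonneg_right hδ (norm_nonneg f)
    · intro h
      have h1 := hlow f
      rw [h] at h1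
      exact hf (norm_le_zero_iff.1 h1)

end SDN
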