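import Pool.Agent.SDN.St2

/-!
# SDN: from `Good q univ` to products, `PR`
-/

set_option autoImplicit false

namespace SDN

open Set Topology

/-- currying as a linear map -/
private noncomputable def PR_lin (K P : Type) [TopologicalSpace K] [CompactSpace K] [TopologicalSpace P]
    [CompactSpace P] : C(K × P, ℝ) →ₗ[ℝ] C(K, C(P, ℝ)) where
  toFun := fun f => f.curry
  map_add' := fun _ _ => rfl
  map_smul' := fun _ _ => rfl

private theorem PR_norm {K P : Type} [TopologicalSpace K] [CompactSpace K] [TopologicalSpace P]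
    [CompactSpace P] (f : C(K × P, ℝ)) : ‖f.curry‖ ≤ ‖f‖ := by
  refine (ContinuousMap.norm_le _ (norm_nonneg f)).2 (fun k => ?_)
  refine (ContinuousMap.norm_le _ (norm_nonneg f)).2 (fun b => ?_)
  exact f.norm_coe_le_norm (k, b)

/-- currying as a continuous linear map -/
private noncomputable def PR_cu (K P : Type) [TopologicalSpace K] [CompactSpace K] [TopologicalSpace P]
    [CompactSpace P] : C(K × P, ℝ) →L[ℝ] C(K, C(P, ℝ)) where
  toLinearMap := PR_lin K P
  cont := (AddMonoidHomClass.continuous_of_bound (PR_lin K P) 1 (fun f => by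
    rw [one_mul]
    exact PR_norm f))

private theorem PR_cu_apply {K P : Type} [TopologicalSpace K] [CompactSpace K] [TopologicalSpace P]
    [CompactSpace P] (f : C(K × P, ℝ)) : PR_cu K P f = f.curry := rfl

private theorem PR_comp {E F : Type} [NormedAddCommGroup E] [NormedSpace ℝ E] [NormedAddCommGroup F]
    [NormedSpace ℝ F] (q : Seminorm ℝ F) (L : E →L[ℝ] F) (x : E)
    (hq : ContDiffAt ℝ ((⊤ : ℕ∞) : WithTop ℕ∞) (⇑q) (L x)) :
    ContDiffAt ℝ ((⊤ : ℕ∞) : WithTop ℕ∞) (⇑(q.comp (L : E →ₗ[ℝ] F))) x :=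
  hq.comp x L.contDiff.contDiffAt

theorem thm_PR : St_PR := by
  intro K _ _ hK P _ _ _ a b ha hb hSN ε hε
  obtain ⟨q, hq, hqs⟩ := hSN
  have hG : Good q (univ : Set K) := hK C(P, ℝ) q b hb (fun x => (hq x).2) (fun x hx => hqs x (by
    rintro rfl
    exact hx (map_zero q)))
  obtain ⟨δ, hδ0, hδ1, hδ⟩ : ∃ δ : ℝ, 0 < δ ∧ δ < 1 ∧ (1 + δ) * ((1 + δ) * b) ≤ b + ε := by
    refine ⟨min (1 / 2) (ε / (3 * b)), by positivity, ?_, ?_⟩
    · exact lt_of_le_of_lt (min_le_left _ _) (by norm_num)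
    · set δ := min (1 / 2) (ε / (3 * b)) with hδ
      have h0 : 0 < δ := by positivity
      have h1 : δ ≤ 1 / 2 := min_le_left _ _
      have h2 : δ ≤ ε / (3 * b) := min_le_right _ _
      rw [le_div_iff₀ (by positivity)] at h2
      nlinarith [mul_pos h0 hb, mul_nonneg (mul_nonneg h0.le hb.le) (by linarith : (0 : ℝ) ≤ 1 - δ)]
  obtain ⟨N, hN1, hN2, hN3, -⟩ := hG δ hδ0 hδ1
  let L : C(K × P, ℝ) →L[ℝ] C(K, C(P, ℝ)) := (1 + δ) • PR_cu K P
  let M : Seminorm ℝ C(K × P, ℝ) := N.comp (L : C(K × P, ℝ) →ₗ[ℝ] C(K, C(P, ℝ)))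
  have hML : ∀ f, M f = N (L f) := fun _ => rfl
  have hM : ∀ f, M f = (1 + δ) * N f.curry := by
    intro f
    have h : M f = N ((1 + δ) • f.curry) := rfl
    rw [h, map_smul_eq_mul, Real.norm_eq_abs, abs_of_pos (by linarith : (0 : ℝ) < 1 + δ)]
  have hlow : ∀ f, a * ‖f‖ ≤ M f := by
    intro f
    have h0 : 0 ≤ M f := apply_nonneg M f
    have h1 : ‖f‖ ≤ M f / a := by
      refine (ContinuousMap.norm_le _ (div_nonneg h0 ha.le)).2 (fun z => ?_)
      rw [le_div_iff₀ ha]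
      have h2 : ‖f z‖ ≤ ‖f.curry z.1‖ := (f.curry z.1).norm_coe_le_norm z.2
      have h3 := (hq (f.curry z.1)).1
      have h4 := hN1 f.curry z.1 (mem_univ _)
      rw [hM f]
      nlinarith [mul_le_mul_of_nonneg_left h2 ha.le]
    rw [le_div_iff₀ ha] at h1
    linarith
  refine ⟨M, fun f => ⟨hlow f, ?_⟩, ?_⟩
  · have h1 : N f.curry ≤ (1 + δ) * (b * ‖f‖) := by
      refine hN2 f.curry (b * ‖f‖) (by positivity) (fun k _ => ?_)
      refine (hq _).2.trans (mul_le_mul_of_nonneg_left ?_ hb.le)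
      refine (ContinuousMap.norm_le _ (norm_nonneg f)).2 (fun z => ?_)
      exact f.norm_coe_le_norm (k, z)
    rw [hM f]
    calc (1 + δ) * N f.curry ≤ (1 + δ) * ((1 + δ) * (b * ‖f‖)) :=
          mul_le_mul_of_nonneg_left h1 (by linarith)
      _ = (1 + δ) * ((1 + δ) * b) * ‖f‖ := by ring
      _ ≤ (b + ε) * ‖f‖ := mul_le_mul_of_nonneg_right hδ (norm_nonneg f)
  · intro f hf
    have h1 : N (L f) ≠ 0 := by
      intro h
      have h2 := hlow f
      rw [hML, h] at h2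
      have h3 : 0 < a * ‖f‖ := mul_pos ha (norm_pos_iff.2 hf)
      linarith
    exact PR_comp N L f (hN3 (L f) h1)

end SDN
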