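import Pool.Agent.SDN.St2

/-!
# SDN, module SI: induction on a scattered compact linearly ordered space (helper89)
-/

set_option autoImplicit false

namespace SDN

open Set Topology

section basic

variable {K : Type} [LinearOrder K] [TopologicalSpace K]

/-- the relation is true or the points are neighbours -/
private def SI_PN (P : K → K → Prop) (s t : K) : Prop := P s t ∨ ∀ r : K, ¬ (s < r ∧ r < t)

private theorem SI_refl [OrderTopology K] {P : K → K → Prop} (h : ChainUp P) (u : K) : P u u := by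
  refine h u u {u} le_rfl rfl rfl (by simp) isClosed_singleton (fun T hT hne => ?_)
    (fun s hs t ht hst _ => ?_)
  · obtain ⟨m, hm⟩ := hne
    refine ⟨m, hm, fun t ht => ?_⟩
    have h1 : m = u := hT hm
    have h2 : t = u := hT ht
    rw [h1, h2]
  · have h1 : s = u := hs
    have h2 : t = u := ht
    exact absurd hst (by rw [h1, h2]; exact lt_irrefl u)

omit [TopologicalSpace K] in
private theorem SI_fin {S : Set K} (hS : S.Finite) (T : Set K) (hT : T ⊆ S) (hne : T.Nonempty) :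
    ∃ m ∈ T, ∀ t ∈ T, m ≤ t := by
  obtain ⟨m, hm, h⟩ := Set.exists_min_image T id (hS.subset hT) hne
  exact ⟨m, hm, h⟩

private theorem SI_trans [OrderTopology K] {P : K → K → Prop} (h : ChainUp P) {u v w : K}
    (huv : u ≤ v) (hvw : v ≤ w) (h1 : SI_PN P u v) (h2 : SI_PN P v w) : P u w := by
  have hf : ({u, v, w} : Set K).Finite := by simp
  refine h u w {u, v, w} (huv.trans hvw) (by simp) (by simp) (fun x hx => ?_)
    hf.isClosed (fun T hT hne => SI_fin hf T hT hne) (fun s hs t ht hst hno => ?_)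
  · rcases hx with rfl | rfl | rfl
    · exact ⟨le_rfl, huv.trans hvw⟩
    · exact ⟨huv, hvw⟩
    · exact ⟨huv.trans hvw, le_rfl⟩
  · have hv := hno v (by simp)
    rcases hs with rfl | rfl | hs <;> rcases ht with rfl | rfl | ht
    · exact absurd hst (lt_irrefl _)
    · exact h1
    · have ht' : t = w := ht
      subst ht'
      rcases huv.eq_or_lt with h3 | h3
      · rw [h3]; exact h2
      · rcases hvw.eq_or_lt with h4 | h4
        · rw [← h4]; exact h1
        · exact absurd ⟨h3, h4⟩ hv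
    · exact absurd hst (not_lt.2 huv)
    · exact absurd hst (lt_irrefl _)
    · have ht' : t = w := ht
      subst ht'
      exact h2
    · have hs' : s = w := hs
      subst hs'
      exact absurd hst (not_lt.2 (huv.trans hvw))
    · have hs' : s = w := hs
      subst hs'
      exact absurd hst (not_lt.2 hvw)
    · have hs' : s = w := hs
      have ht' : t = w := ht
      subst hs'
      subst ht'
      exact absurd hst (lt_irrefl _)

/-- good points -/
private def SI_G (P : K → K → Prop) (x : K) : Prop :=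
  ∃ V ∈ 𝓝 x, ∀ a ∈ V, ∀ b ∈ V, a ≤ b → P a b

private theorem SI_oc [OrderTopology K] {x : K} {V : Set K} (hV : V ∈ 𝓝 x) :
    ∃ V' ∈ 𝓝 x, V' ⊆ V ∧ V'.OrdConnected :=
  ⟨V.ordConnectedComponent x, (ordConnectedComponent_mem_nhds).2 hV,
    ordConnectedComponent_subset, inferInstance⟩

/-- (A) -/
private theorem SI_A [OrderTopology K] [CompactSpace K] {P : K → K → Prop} (h : ChainUp P)
    {u w : K} (huw : u ≤ w) (hg : ∀ x ∈ Icc u w, SI_G P x) : P u w := by
  set T : Set K := {x | x ∈ Icc u w ∧ ∀ y ∈ Icc u x, P u y} with hT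
  have hu : u ∈ T := by
    refine ⟨⟨le_rfl, huw⟩, fun y hy => ?_⟩
    have : y = u := le_antisymm hy.2 hy.1
    rw [this]
    exact SI_refl h u
  have hTs : T ⊆ Icc u w := fun x hx => hx.1
  have hcs : closure T ⊆ Icc u w := closure_minimal hTs isClosed_Icc
  obtain ⟨s, hs, hmax⟩ := (isClosed_closure (s := T)).isCompact.exists_isGreatest ⟨u, subset_closure hu⟩
  have hsI : s ∈ Icc u w := hcs hs
  obtain ⟨V, hV, hVP⟩ := hg s hsI
  obtain ⟨V', hV', hsub, hoc⟩ := SI_oc hV
  obtain ⟨t, htV, htT⟩ := mem_closure_iff_nhds.1 hs V' hV'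
  have hsV : s ∈ V' := mem_of_mem_nhds hV'
  have hts : t ≤ s := hmax (subset_closure htT)
  have hsT : s ∈ T := by
    refine ⟨hsI, fun y hy => ?_⟩
    rcases le_or_gt y t with h1 | h1
    · exact htT.2 y ⟨hy.1, h1⟩
    · have hyV : y ∈ V' := hoc.out htV hsV ⟨h1.le, hy.2⟩
      exact SI_trans h htT.1.1 h1.le (Or.inl (htT.2 t ⟨htT.1.1, le_rfl⟩))
        (Or.inl (hVP t (hsub htV) y (hsub hyV) h1.le))
  have hPs : P u s := hsT.2 s ⟨hsI.1, le_rfl⟩
  rcases hsI.2.eq_or_lt with h1 | h1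
  · rw [← h1]; exact hPs
  · exfalso
    obtain ⟨b, hb, hbV⟩ := exists_Ico_subset_of_mem_nhds' hV' h1
    by_cases hex : ∃ y, s < y ∧ y < b
    · obtain ⟨y, hsy, hyb⟩ := hex
      have hyV : y ∈ V' := hbV ⟨hsy.le, hyb⟩
      have hyT : y ∈ T := by
        refine ⟨⟨hsI.1.trans hsy.le, hyb.le.trans hb.2⟩, fun z hz => ?_⟩
        rcases le_or_gt z s with h2 | h2
        · exact hsT.2 z ⟨hz.1, h2⟩
        · have hzV : z ∈ V' := hoc.out hsV hyV ⟨h2.le, hz.2⟩
          exact SI_trans h hsI.1 h2.le (Or.inl hPs)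
            (Or.inl (hVP s (hsub hsV) z (hsub hzV) h2.le))
      exact absurd (hmax (subset_closure hyT)) (not_le.2 hsy)
    · have hbT : b ∈ T := by
        refine ⟨⟨hsI.1.trans hb.1.le, hb.2⟩, fun z hz => ?_⟩
        rcases le_or_gt z s with h2 | h2
        · exact hsT.2 z ⟨hz.1, h2⟩
        · rcases hz.2.eq_or_lt with h3 | h3
          · rw [h3]
            exact SI_trans h hsI.1 hb.1.le (Or.inl hPs) (Or.inr fun r hr => hex ⟨r, hr⟩)
          · exact absurd ⟨z, h2, h3⟩ hex
      exact absurd (hmax (subset_closure hbT)) (not_le.2 hb.1)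

/-- (EX) -/
private theorem SI_EX [OrderTopology K] {u p : K} (hup : u < p) :
    ∃ S : Set K, u ∈ S ∧ p ∈ S ∧ S ⊆ Icc u p ∧ IsClosed S ∧
      (∀ T : Set K, T ⊆ S → T.Nonempty → ∃ m ∈ T, ∀ t ∈ T, m ≤ t) ∧
      ∀ s ∈ S, ∀ t ∈ S, s < t → (∀ r ∈ S, ¬ (s < r ∧ r < t)) →
        t < p ∨ ∀ r : K, ¬ (s < r ∧ r < t) := by
  by_cases hm : ∃ m ∈ Ico u p, ∀ y ∈ Ico u p, y ≤ m
  · obtain ⟨m, hmI, hmax⟩ := hm
    have hf : ({u, m, p} : Set K).Finite := by simp
    refine ⟨{u, m, p}, by simp, by simp, ?_, hf.isClosed, SI_fin hf, ?_⟩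
    · rintro x (rfl | rfl | rfl)
      · exact ⟨le_rfl, hup.le⟩
      · exact ⟨hmI.1, hmI.2.le⟩
      · exact ⟨hup.le, le_rfl⟩
    · intro s hs t ht hst hno
      have htp : t ≤ p := by
        rcases ht with rfl | rfl | rfl
        · exact hup.le
        · exact hmI.2.le
        · exact le_rfl
      rcases htp.eq_or_lt with h1 | h1
      · subst h1
        refine Or.inr fun r hr => ?_
        have hus : u ≤ s := by
          rcases hs with rfl | rfl | hs
          · exact le_rfl
          · exact hmI.1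
          · exact absurd hst (by rw [show s = t from hs]; exact lt_irrefl t)
        have hsm : m ≤ s := by
          by_contra hcon
          exact hno m (by simp) ⟨not_le.1 hcon, hmI.2⟩
        exact absurd (hmax r ⟨hus.trans hr.1.le, hr.2⟩) (not_le.2 (hsm.trans_lt hr.1))
      · exact Or.inl h1
  · have hm' : ∀ m ∈ Ico u p, ∃ y ∈ Ico u p, m < y := by
      intro m hmI
      by_contra hcon
      push Not at hcon
      exact hm ⟨m, hmI, hcon⟩
    set R : K → K → Prop := WellOrderingRel with hR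
    have hwf : WellFounded R := IsWellFounded.wf
    set S₀ : Set K := {x | x ∈ Ico u p ∧ ∀ y ∈ Ico u p, R y x → y < x} with hS₀
    have hS₀I : S₀ ⊆ Ico u p := fun x hx => hx.1
    have hcof : ∀ z ∈ Ico u p, ∃ x ∈ S₀, z ≤ x := by
      intro z hz
      have hne : ({x | x ∈ Ico u p ∧ z ≤ x} : Set K).Nonempty := ⟨z, hz, le_rfl⟩
      refine ⟨hwf.min _ hne, ⟨(hwf.min_mem _ hne).1, fun y hy hyx => ?_⟩,
        (hwf.min_mem _ hne).2⟩
      by_contra hcon
      have hyz : y ∈ ({x | x ∈ Ico u p ∧ z ≤ x} : Set K) :=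
        ⟨hy, (hwf.min_mem _ hne).2.trans (not_lt.1 hcon)⟩
      exact hwf.not_lt_min _ hyz hyx
    have hwo : ∀ T : Set K, T ⊆ S₀ → T.Nonempty → ∃ m ∈ T, ∀ t ∈ T, m ≤ t := by
      intro T hT hne
      refine ⟨hwf.min T hne, hwf.min_mem T hne, fun t ht => ?_⟩
      rcases trichotomous_of R (hwf.min T hne) t with h1 | h1 | h1
      · exact ((hT ht).2 _ (hT (hwf.min_mem T hne)).1 h1).le
      · exact h1.le
      · exact absurd h1 (hwf.not_lt_min T ht)
    have hcl : closure S₀ ⊆ Icc u p :=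
      closure_minimal (hS₀I.trans Ico_subset_Icc_self) isClosed_Icc
    have hwc : ∀ T : Set K, T ⊆ closure S₀ → T.Nonempty → ∃ m ∈ T, ∀ t ∈ T, m ≤ t := by
      intro T hT hne
      by_contra hcon
      push Not at hcon
      have hstep : ∀ t ∈ T, ∃ t' ∈ T, ∃ s ∈ S₀, t' < s ∧ s < t := by
        intro t ht
        obtain ⟨t1, ht1, h1⟩ := hcon t ht
        obtain ⟨t2, ht2, h2⟩ := hcon t1 ht1
        obtain ⟨s, hs, hsS⟩ := mem_closure_iff_nhds.1 (hT ht1) (Ioo t2 t) (Ioo_mem_nhds h2 h1)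
        exact ⟨t2, ht2, s, hsS, hs.1, hs.2⟩
      obtain ⟨t, ht⟩ := hne
      obtain ⟨t', ht', s, hs, h1, h2⟩ := hstep t ht
      obtain ⟨m, hmW, hmin⟩ := hwo {s | s ∈ S₀ ∧ ∃ t ∈ T, t < s} (fun s hs => hs.1)
        ⟨s, hs, t', ht', h1⟩
      obtain ⟨t3, ht3, h3⟩ := hmW.2
      obtain ⟨t4, ht4, s4, hs4, h4, h5⟩ := hstep t3 ht3
      exact absurd (hmin s4 ⟨hs4, t4, ht4, h4⟩) (not_le.2 (h5.trans h3))
    refine ⟨closure S₀ ∪ {u, p}, by simp, by simp, ?_, ?_, ?_, ?_⟩
    · rintro x (hx | rfl | rfl)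
      · exact hcl hx
      · exact ⟨le_rfl, hup.le⟩
      · exact ⟨hup.le, le_rfl⟩
    · exact isClosed_closure.union (by simp : ({u, p} : Set K).Finite).isClosed
    · intro T hT hne
      have hTI : ∀ t ∈ T, t ∈ Icc u p := by
        intro t ht
        rcases hT ht with hx | rfl | rfl
        · exact hcl hx
        · exact ⟨le_rfl, hup.le⟩
        · exact ⟨hup.le, le_rfl⟩
      by_cases huT : u ∈ T
      · exact ⟨u, huT, fun t ht => (hTI t ht).1⟩
      · by_cases hnc : (T ∩ closure S₀).Nonempty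
        · obtain ⟨m, hmT, hmin⟩ := hwc (T ∩ closure S₀) inter_subset_right hnc
          refine ⟨m, hmT.1, fun t ht => ?_⟩
          rcases hT ht with hx | rfl | rfl
          · exact hmin t ⟨ht, hx⟩
          · exact absurd ht huT
          · exact (hTI m hmT.1).2
        · obtain ⟨t0, ht0⟩ := hne
          have hall : ∀ t ∈ T, t = p := by
            intro t ht
            rcases hT ht with hx | rfl | rfl
            · exact absurd ⟨t, ht, hx⟩ hnc
            · exact absurd ht huT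
            · rfl
          exact ⟨t0, ht0, fun t ht => by rw [hall t ht, hall t0 ht0]⟩
    · intro s hs t ht hst hno
      have hsI : s ∈ Icc u p := by
        rcases hs with hx | rfl | rfl
        · exact hcl hx
        · exact ⟨le_rfl, hup.le⟩
        · exact ⟨hup.le, le_rfl⟩
      have htI : t ∈ Icc u p := by
        rcases ht with hx | rfl | rfl
        · exact hcl hx
        · exact ⟨le_rfl, hup.le⟩
        · exact ⟨hup.le, le_rfl⟩
      rcases htI.2.eq_or_lt with h1 | h1
      · exfalso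
        subst h1
        obtain ⟨y, hy, hsy⟩ := hm' s ⟨hsI.1, hst⟩
        obtain ⟨x, hx, hyx⟩ := hcof y hy
        exact hno x (Or.inl (subset_closure hx)) ⟨hsy.trans_le hyx, (hS₀I hx).2⟩
      · exact Or.inl h1

/-- (EX), reversed -/
private theorem SI_EX' [OrderTopology K] {p w : K} (hpw : p < w) :
    ∃ S : Set K, p ∈ S ∧ w ∈ S ∧ S ⊆ Icc p w ∧ IsClosed S ∧
      (∀ T : Set K, T ⊆ S → T.Nonempty → ∃ m ∈ T, ∀ t ∈ T, t ≤ m) ∧
      ∀ s ∈ S, ∀ t ∈ S, s < t → (∀ r ∈ S, ¬ (s < r ∧ r < t)) →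
        p < s ∨ ∀ r : K, ¬ (s < r ∧ r < t) := by
  obtain ⟨S, h1, h2, h3, h4, h5, h6⟩ :=
    SI_EX (K := Kᵒᵈ) (u := OrderDual.toDual w) (p := OrderDual.toDual p) hpw
  refine ⟨S, h2, h1, fun x hx => ⟨(h3 hx).2, (h3 hx).1⟩, h4, h5, fun s hs t ht hst hno => ?_⟩
  rcases h6 t ht s hs hst (fun r hr hh => hno r hr ⟨hh.2, hh.1⟩) with h | h
  · exact Or.inl h
  · exact Or.inr fun r hr => h r ⟨hr.2, hr.1⟩

end basic

theorem thm_SI : St_SI := by
  intro K _ _ _ _ hsc P hup hdn u w huw
  have key : ∀ x : K, SI_G P x := by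
    by_contra hcon
    push Not at hcon
    obtain ⟨x0, hx0⟩ := hcon
    obtain ⟨p, hp, V, hV, hiso⟩ := hsc {x | ¬ SI_G P x} ⟨x0, hx0⟩
    obtain ⟨V', hV', hsub, hoc⟩ := SI_oc hV
    have hpV : p ∈ V' := mem_of_mem_nhds hV'
    have hgood : ∀ z ∈ V', z ≠ p → SI_G P z := by
      intro z hz hne
      by_contra hbad
      exact hne (hiso z (hsub hz) hbad)
    have hleft : ∀ a ∈ V', a < p → P a p := by
      intro a ha hap
      obtain ⟨S, h1, h2, h3, h4, h5, h6⟩ := SI_EX hap
      refine hup a p S hap.le h1 h2 h3 h4 h5 fun s hs t ht hst hno => ?_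
      rcases h6 s hs t ht hst hno with h | h
      · refine Or.inl (SI_A hup hst.le fun x hx => ?_)
        refine hgood x (hoc.out ha hpV ⟨(h3 hs).1.trans hx.1, hx.2.trans h.le⟩) ?_
        exact (hx.2.trans_lt h).ne
      · exact Or.inr h
    have hright : ∀ b ∈ V', p < b → P p b := by
      intro b hb hpb
      obtain ⟨S, h1, h2, h3, h4, h5, h6⟩ := SI_EX' hpb
      refine hdn p b S hpb.le h1 h2 h3 h4 h5 fun s hs t ht hst hno => ?_
      rcases h6 s hs t ht hst hno with h | h
      · refine Or.inl (SI_A hup hst.le fun x hx => ?_)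
        refine hgood x (hoc.out hpV hb ⟨h.le.trans hx.1, hx.2.trans (h3 ht).2⟩) ?_
        exact (h.trans_le hx.1).ne'
      · exact Or.inr h
    refine hp ⟨V', hV', fun a ha b hb hab => ?_⟩
    rcases lt_trichotomy b p with h | h | h
    · refine SI_A hup hab fun x hx => hgood x (hoc.out ha hb hx) (hx.2.trans_lt h).ne
    · subst h
      rcases hab.eq_or_lt with h' | h'
      · rw [h']; exact SI_refl hup b
      · exact hleft a ha h'
    · rcases lt_trichotomy a p with h' | h' | h'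
      · exact SI_trans hup h'.le h.le (Or.inl (hleft a ha h')) (Or.inl (hright b hb h))
      · subst h'
        exact hright b hb h
      · refine SI_A hup hab fun x hx => hgood x (hoc.out ha hb hx) (h'.trans_le hx.1).ne'
  exact SI_A hup huw fun x _ => key x

end SDN
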