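import Pool.Agent.SDN.TH
import Pool.Agent.SDN.GS
import Pool.Agent.SDN.GTS
import Pool.Agent.SDN.MAS
import Pool.Agent.SDN.MA
import Pool.Agent.SDN.IX
import Pool.Agent.SDN.CK
import Pool.Agent.SDN.CH2
import Pool.Agent.SDN.SI
import Pool.Agent.SDN.PR
import Pool.Agent.SDN.PD
import Pool.Agent.SDN.FB

/-!
# SDN: the final theorems
-/

set_option autoImplicit false

namespace SDN

open Set Topology Filter

theorem Fin_fibre {K L X : Type} [TopologicalSpace K] [CompactSpace K] [TopologicalSpace L] [T1Space L]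
    [NormedAddCommGroup X] [NormedSpace ℝ X] [CompleteSpace X] (π : C(K, L)) (q : Seminorm ℝ X) (C : ℝ)
    (hC : 0 < C) (hqC : ∀ x, q x ≤ C * ‖x‖)
    (hqs : ∀ x, q x ≠ 0 → ContDiffAt ℝ ((⊤ : ℕ∞) : WithTop ℕ∞) (⇑q) x)
    (hfib : ∀ y, IsOpen {y} → ∀ h : CompactSpace (π ⁻¹' {y}), @GoodK (π ⁻¹' {y}) _ h)
    (hsing : ∀ y, ¬ IsOpen {y} → ∀ k l, π k = y → π l = y → k = l) (y : L) : Good q (π ⁻¹' {y}) := by
  have h : CompactSpace (π ⁻¹' {y}) :=
    isCompact_iff_compactSpace.1 ((isClosed_singleton.preimage π.continuous).isCompact)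
  refine thm_PL K X q (π ⁻¹' {y}) ?_
  by_cases hy : IsOpen {y}
  · exact hfib y hy h X q C hC hqC hqs
  · have hs : Subsingleton (π ⁻¹' {y}) := by
      constructor
      rintro ⟨a, ha⟩ ⟨b, hb⟩
      exact Subtype.ext (hsing y hy a b ha hb)
    exact thm_PD.1 (π ⁻¹' {y}) X q C hC hqC hqs

/-- fibres over a scattered compact linearly ordered space -/
theorem Fin_OF (K L : Type) [TopologicalSpace K] [CompactSpace K] [LinearOrder L] [TopologicalSpace L]
    [OrderTopology L] [CompactSpace L] (π : C(K, L)) (hL : Scat L) (hπ : Function.Surjective π)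
    (hfib : ∀ y, IsOpen {y} → ∀ h : CompactSpace (π ⁻¹' {y}), @GoodK (π ⁻¹' {y}) _ h)
    (hsing : ∀ y, ¬ IsOpen {y} → ∀ k l, π k = y → π l = y → k = l) : GoodK K := by
  intro X _ _ _ q C hC hqC hqs
  rcases isEmpty_or_nonempty L with hE | hN
  · have hK : IsEmpty K := ⟨fun k => hE.false (π k)⟩
    have : Subsingleton K := ⟨fun a _ => (hK.false a).elim⟩
    exact thm_PD.1 K X q C hC hqC hqs
  · have hG := Fin_fibre π q C hC hqC hqs hfib hsing
    have hCH : St_CH := thm_CH (thm_GTS thm_TH thm_GS) thm_NRM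
    have hup : ChainUp (fun u w : L => Good q (π ⁻¹' Icc u w)) :=
      hCH K L X π q C hπ hC hqC hqs hG hsing
    have hdn : ChainDn (fun u w : L => Good q (π ⁻¹' Icc u w)) := by
      have hcd : CompactSpace Lᵒᵈ := inferInstanceAs (CompactSpace L)
      let π' : C(K, Lᵒᵈ) := ⟨fun k => OrderDual.toDual (π k), continuous_toDual.comp π.continuous⟩
      have hG' : ∀ y, Good q (π' ⁻¹' {y}) := fun y => hG (OrderDual.ofDual y)
      have hup' : ChainUp (fun u w : Lᵒᵈ => Good q (π' ⁻¹' Icc u w)) := by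
        refine hCH K Lᵒᵈ X π' q C ?_ hC hqC hqs hG' ?_
        · intro y
          obtain ⟨k, hk⟩ := hπ (OrderDual.ofDual y)
          exact ⟨k, congrArg OrderDual.toDual hk⟩
        · intro y hy k l hk hl
          exact hsing (OrderDual.ofDual y) hy k l hk hl
      intro u w S huw hu hw hSI hSc hwf hst
      have h1 := hup' (OrderDual.toDual w) (OrderDual.toDual u) (OrderDual.ofDual ⁻¹' S)
        (OrderDual.toDual_le_toDual.2 huw) hw hu
        (fun s hs => ⟨(hSI hs).2, (hSI hs).1⟩) hSc
        (fun T hT hTn => by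
          obtain ⟨m, hm, hm2⟩ := hwf (OrderDual.toDual ⁻¹' T) (fun t ht => hT ht) hTn
          exact ⟨OrderDual.toDual m, hm, fun t ht => hm2 (OrderDual.ofDual t) ht⟩)
        (fun s hs t ht hst' hno => by
          have h2 := hst (OrderDual.ofDual t) ht (OrderDual.ofDual s) hs hst'
            (fun r hr h => hno (OrderDual.toDual r) hr ⟨h.2, h.1⟩)
          rcases h2 with h2 | h2
          · left
            have h3 : π' ⁻¹' Icc s t = π ⁻¹' Icc (OrderDual.ofDual t) (OrderDual.ofDual s) := by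
              ext k
              exact and_comm
            change Good q (π' ⁻¹' Icc s t)
            rw [h3]
            exact h2
          · right
            intro r h
            exact h2 (OrderDual.ofDual r) ⟨h.2, h.1⟩)
      have h4 : π' ⁻¹' Icc (OrderDual.toDual w) (OrderDual.toDual u) = π ⁻¹' Icc u w := by
        ext k
        exact and_comm
      rw [← h4]
      exact h1
    obtain ⟨u, -, hu⟩ := (isCompact_univ (X := L)).exists_isLeast univ_nonempty
    obtain ⟨w, -, hw⟩ := (isCompact_univ (X := L)).exists_isGreatest univ_nonempty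
    have h5 := thm_SI L hL (fun u w : L => Good q (π ⁻¹' Icc u w)) hup hdn u w (hu (mem_univ w))
    have h6 : π ⁻¹' Icc u w = univ := by
      ext k
      exact ⟨fun _ => trivial, fun _ => ⟨hu (mem_univ _), hw (mem_univ _)⟩⟩
    rw [h6] at h5
    exact h5

theorem Fin_CK : St_CK := thm_CK (thm_MA (thm_MAS thm_TH thm_GS)) thm_IX

theorem Fin_FB : St_FB := thm_FB (thm_MAS thm_TH thm_GS) thm_IX thm_NRM thm_PL

/-- scattered compact linearly ordered spaces -/
theorem Fin_LO (L : Type) [LinearOrder L] [TopologicalSpace L] [OrderTopology L] [CompactSpace L]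
    (hL : Scat L) : GoodK L := by
  refine Fin_OF L L (ContinuousMap.id L) hL Function.surjective_id ?_ ?_
  · intro y _ h
    have : Subsingleton ((ContinuousMap.id L) ⁻¹' {y}) := by
      constructor
      rintro ⟨a, ha⟩ ⟨b, hb⟩
      exact Subtype.ext (Eq.trans ha (Eq.symm hb))
    exact thm_PD.1 _
  · intro y _ k l hk hl
    exact Eq.trans hk (Eq.symm hl)

/-- sigma-discrete compact spaces -/
theorem Fin_SD (L : Type) [TopologicalSpace L] [CompactSpace L] [T2Space L] (D : ℕ → Set L)
    (hD : SigmaDiscrete D) : GoodK L := by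
  refine Fin_FB L L D (ContinuousMap.id L) hD ?_
  intro y h
  have : Subsingleton ((ContinuousMap.id L) ⁻¹' {y}) := by
    constructor
    rintro ⟨a, ha⟩ ⟨b, hb⟩
    exact Subtype.ext (Eq.trans ha (Eq.symm hb))
  exact thm_PD.1 _

theorem Fin_mult (K : Type) [TopologicalSpace K] [CompactSpace K] (h : GoodK K) : Mult K :=
  thm_PR K h

end SDN
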