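import Pool.Agent.SDN.St

/-!
# SDN: products with ordinals, `OR`
-/

set_option autoImplicit false

namespace SDN

open Set Topology

/-- restriction to the fibre over `α` -/
private noncomputable def rs {O P : Type} [TopologicalSpace O] [CompactSpace O] [TopologicalSpace P] [CompactSpace P]
    (α : O) : C(O × P, ℝ) →L[ℝ] C(P, ℝ) :=
  LinearMap.mkContinuous
    { toFun := fun f => f.curry α
      map_add' := fun _ _ => rfl
      map_smul' := fun _ _ => rfl } 1 (fun f => by
        rw [one_mul]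
        refine (ContinuousMap.norm_le _ (norm_nonneg f)).2 (fun b => ?_)
        exact f.norm_coe_le_norm (α, b))

private theorem rs_apply {O P : Type} [TopologicalSpace O] [CompactSpace O] [TopologicalSpace P] [CompactSpace P]
    (α : O) (f : C(O × P, ℝ)) : rs α f = f.curry α := rfl

private theorem rs_norm {O P : Type} [TopologicalSpace O] [CompactSpace O] [TopologicalSpace P] [CompactSpace P]
    (α : O) (f : C(O × P, ℝ)) : ‖rs α f‖ ≤ ‖f‖ := by
  refine (ContinuousMap.norm_le _ (norm_nonneg f)).2 (fun b => ?_)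
  exact f.norm_coe_le_norm (α, b)

private theorem sn_comp {E F : Type} [NormedAddCommGroup E] [NormedSpace ℝ E] [NormedAddCommGroup F]
    [NormedSpace ℝ F] (q : Seminorm ℝ F) (L : E →L[ℝ] F)
    (hq : ∀ f : F, f ≠ 0 → ContDiffAt ℝ ((⊤ : ℕ∞) : WithTop ℕ∞) (⇑q) f) (x : E)
    (hx : (q.comp (L : E →ₗ[ℝ] F)) x ≠ 0) :
    ContDiffAt ℝ ((⊤ : ℕ∞) : WithTop ℕ∞) (⇑(q.comp (L : E →ₗ[ℝ] F))) x := by
  have h1 : L x ≠ 0 := by
    intro h
    apply hx
    change q (L x) = 0
    rw [h]
    exact map_zero q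
  exact (hq (L x) h1).comp x L.contDiff.contDiffAt

theorem thm_OR (hGT : St_GT) : St_OR := by
  classical
  intro O P _ _ _ _ _ _ _ _ a b ha hb hSN ε hε
  obtain ⟨q, hq, hqs⟩ := hSN
  let _ : SuccOrder O := SuccOrder.ofLinearWellFoundedLT O
  -- the seminorms
  let A : O → Seminorm ℝ C(O × P, ℝ) := fun α =>
    q.comp ((rs α : C(O × P, ℝ) →L[ℝ] C(P, ℝ)) : C(O × P, ℝ) →ₗ[ℝ] C(P, ℝ))
  let D : O → (C(O × P, ℝ) →L[ℝ] C(P, ℝ)) := fun α =>
    if IsMax α then rs α else (1 / 2 : ℝ) • (rs α - rs (Order.succ α))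
  let J : O → Seminorm ℝ C(O × P, ℝ) := fun α =>
    q.comp ((D α : C(O × P, ℝ) →L[ℝ] C(P, ℝ)) : C(O × P, ℝ) →ₗ[ℝ] C(P, ℝ))
  have hA : ∀ α f, A α f = q (f.curry α) := fun _ _ => rfl
  have hJm : ∀ α f, IsMax α → J α f = q (f.curry α) := by
    intro α f h
    change q (D α f) = _
    simp only [D, if_pos h]
    rfl
  have hJn : ∀ α f, ¬ IsMax α → J α f = 1 / 2 * q (f.curry α - f.curry (Order.succ α)) := by
    intro α f h
    change q (D α f) = _
    simp only [D, if_neg h]
    change q ((1 / 2 : ℝ) • (f.curry α - f.curry (Order.succ α))) = _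
    rw [map_smul_eq_mul, Real.norm_eq_abs, abs_of_pos (by norm_num : (0 : ℝ) < 1 / 2)]
  have hAb : ∀ α f, A α f ≤ b * ‖f‖ := fun α f =>
    (hq _).2.trans (mul_le_mul_of_nonneg_left (rs_norm α f) hb.le)
  have hbd : ∀ f, BddAbove (range fun α => A α f) := by
    intro f
    refine ⟨b * ‖f‖, ?_⟩
    rintro _ ⟨α, rfl⟩
    exact hAb α f
  have hbdS : BddAbove (range A) := Seminorm.bddAbove_range_iff.2 hbd
  let p : Seminorm ℝ C(O × P, ℝ) := ⨆ α, A α
  have hp : ∀ f, p f = ⨆ α, A α f := fun f => Seminorm.iSup_apply hbdS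
  have hAp : ∀ α f, A α f ≤ p f := fun α f => by
    rw [hp]
    exact le_ciSup (hbd f) α
  have hap : ∀ f, a * ‖f‖ ≤ p f := by
    intro f
    have h0 : 0 ≤ p f := apply_nonneg p f
    have h1 : ‖f‖ ≤ p f / a := by
      refine (ContinuousMap.norm_le _ (div_nonneg h0 ha.le)).2 (fun z => ?_)
      rw [le_div_iff₀ ha]
      have h2 : ‖f z‖ ≤ ‖f.curry z.1‖ := (f.curry z.1).norm_coe_le_norm z.2
      have h3 := (hq (f.curry z.1)).1
      have h4 := hAp z.1 f
      rw [hA] at h4
      nlinarith [mul_le_mul_of_nonneg_left h2 ha.le]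
    rw [le_div_iff₀ ha] at h1
    linarith
  have hpb : ∀ f, p f ≤ b * ‖f‖ := by
    intro f
    rw [hp]
    exact Real.iSup_le (fun α => hAb α f) (by positivity)
  have hgc : ∀ f : C(O × P, ℝ), Continuous (fun α : O => f.curry α) := fun f => f.curry.continuous
  have hqc : Continuous (⇑q) := by
    refine Seminorm.continuous_of_le (q := b.toNNReal • normSeminorm ℝ C(P, ℝ)) ?_ ?_
    · exact (continuous_norm.const_smul (b.toNNReal))
    · intro g
      have h := (hq g).2
      change q g ≤ (b.toNNReal : ℝ) * ‖g‖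
      rwa [Real.coe_toNNReal b hb.le]
  have hJp : ∀ α f, J α f ≤ p f := by
    intro α f
    by_cases h : IsMax α
    · rw [hJm α f h]
      exact hAp α f
    · rw [hJn α f h]
      have h1 : q (f.curry α - f.curry (Order.succ α)) ≤ q (f.curry α) + q (f.curry (Order.succ α)) :=
        map_sub_le_add q _ _
      have h2 := hAp α f
      have h3 := hAp (Order.succ α) f
      rw [hA] at h2 h3
      linarith
  have hfin : ∀ f, ∀ δ : ℝ, 0 < δ → {i | δ < J i f}.Finite := by
    intro f δ hδ
    have hloc : ∀ β : O, ∃ U ∈ 𝓝 β, ∀ α ∈ U, δ < J α f → α = β := by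
      intro β
      have hV : {α : O | q (f.curry α - f.curry β) < δ} ∈ 𝓝 β := by
        have hc : Continuous (fun α : O => q (f.curry α - f.curry β)) :=
          hqc.comp ((hgc f).sub continuous_const)
        refine (isOpen_lt hc continuous_const).mem_nhds ?_
        change q (f.curry β - f.curry β) < δ
        rw [sub_self, map_zero]
        exact hδ
      have hIic : Iic β ∈ 𝓝 β := by
        by_cases hm : IsMax β
        · filter_upwards with α
          exact hm.isTop α
        · rw [← Order.Iio_succ_of_not_isMax hm]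
          exact Iio_mem_nhds (Order.lt_succ_of_not_isMax hm)
      by_cases hmin : ∃ l, l < β
      · obtain ⟨l, hl, hlV⟩ := exists_Ioc_subset_of_mem_nhds hV hmin
        refine ⟨Ioi l ∩ Iic β, Filter.inter_mem (Ioi_mem_nhds hl) hIic, ?_⟩
        rintro α ⟨hα1, hα2⟩ hJ
        by_contra hne
        have hlt : α < β := lt_of_le_of_ne hα2 hne
        have hnm : ¬ IsMax α := not_isMax_of_lt hlt
        rw [hJn α f hnm] at hJ
        have hs : Order.succ α ∈ Ioc l β := ⟨lt_of_lt_of_le hα1 (Order.le_succ α), Order.succ_le_of_lt hlt⟩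
        have h1 : q (f.curry α - f.curry β) < δ := hlV ⟨hα1, hα2⟩
        have h2 : q (f.curry (Order.succ α) - f.curry β) < δ := hlV hs
        have h3 : q (f.curry α - f.curry (Order.succ α)) ≤
            q (f.curry α - f.curry β) + q (f.curry (Order.succ α) - f.curry β) := by
          have h4 := map_sub_le_add q (f.curry α - f.curry β) (f.curry (Order.succ α) - f.curry β)
          rwa [sub_sub_sub_cancel_right] at h4
        linarith
      · refine ⟨Iic β, hIic, ?_⟩
        intro α hα _
        rcases lt_or_eq_of_le hα with h | h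
        · exact absurd ⟨α, h⟩ hmin
        · exact h
    choose U hU1 hU2 using hloc
    obtain ⟨t, -, ht⟩ := isCompact_univ.elim_nhds_subcover U (fun x _ => hU1 x)
    refine (Finset.finite_toSet t).subset ?_
    intro α hα
    have h1 := ht (mem_univ α)
    rw [mem_iUnion₂] at h1
    obtain ⟨β, hβ, hαβ⟩ := h1
    have h2 := hU2 β α hαβ hα
    rw [h2]
    exact hβ
  have hmax : ∀ f, f ≠ 0 → ∃ i, A i f = p f ∧ 0 < J i f := by
    intro f hf
    have hpp : 0 < p f := lt_of_lt_of_le (mul_pos ha (norm_pos_iff.2 hf)) (hap f)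
    have hne : Nonempty O := by
      by_contra h
      rw [not_nonempty_iff] at h
      rw [hp, Real.iSup_of_isEmpty] at hpp
      exact lt_irrefl _ hpp
    have hAc : Continuous (fun α : O => A α f) := hqc.comp (hgc f)
    obtain ⟨α0, -, hα0⟩ := isCompact_univ.exists_isMaxOn univ_nonempty hAc.continuousOn
    have hα0' : A α0 f = p f := by
      refine le_antisymm (hAp α0 f) ?_
      rw [hp]
      exact ciSup_le (fun α => hα0 (mem_univ α))
    have hcl : IsCompact {α : O | A α f = p f} := (isClosed_eq hAc continuous_const).isCompact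
    obtain ⟨α, hα1, hα2⟩ := hcl.exists_isGreatest ⟨α0, hα0'⟩
    have hα1' : A α f = p f := hα1
    refine ⟨α, hα1', ?_⟩
    by_cases hm : IsMax α
    · rw [hJm α f hm, ← hA, hα1']
      exact hpp
    · rw [hJn α f hm]
      have h1 : A (Order.succ α) f ≠ p f := fun h =>
        absurd (hα2 h) (not_le.2 (Order.lt_succ_of_not_isMax hm))
      have h2 : A (Order.succ α) f < p f := lt_of_le_of_ne (hAp _ f) h1
      have h3 : q (f.curry α) ≤ q (f.curry α - f.curry (Order.succ α)) + q (f.curry (Order.succ α)) := by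
        have h4 := map_add_le_add q (f.curry α - f.curry (Order.succ α)) (f.curry (Order.succ α))
        rwa [sub_add_cancel] at h4
      rw [hA] at h2 hα1'
      linarith
  -- the conclusion
  have hε1 : 0 < ε / (b + ε) := div_pos hε (by linarith)
  have hε2 : ε / (b + ε) < 1 := by
    rw [div_lt_one (by linarith)]
    linarith
  obtain ⟨N, hN1, hN2, hN3⟩ := hGT C(O × P, ℝ) O p A J a b ha hb hap hpb hAp hJp
    (fun α x hx => sn_comp q (rs α) hqs x hx) (fun α x hx => sn_comp q (D α) hqs x hx) hfin hmax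
    (ε / (b + ε)) hε1 hε2
  refine ⟨N, fun f => ⟨(hap f).trans (hN1 f), ?_⟩, hN3⟩
  have h1 := hN2 f
  have h2 := hpb f
  have h3 : 1 - ε / (b + ε) = b / (b + ε) := by
    field_simp
    ring
  rw [h3, div_mul_eq_mul_div, div_le_iff₀ (by linarith)] at h1
  have h4 : b * N f ≤ b * ((b + ε) * ‖f‖) := by nlinarith
  exact le_of_mul_le_mul_left h4 hb

end SDN
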