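import Pool.Agent.SDN.TH
import Pool.Agent.SDN.GA
import Pool.Agent.SDN.GS
import Pool.Agent.SDN.MA
import Pool.Agent.SDN.MAS
import Pool.Agent.SDN.IX
import Pool.Agent.SDN.CK
import Pool.Agent.SDN.GT
import Pool.Agent.SDN.OR

/-!
# SDN: first version, unconditional
-/

set_option autoImplicit false

namespace SDN

theorem thm_all1 : St_CK ∧ St_OR :=
  ⟨thm_CK (thm_MA (thm_MAS thm_TH thm_GS)) thm_IX, thm_OR (thm_GT thm_TH thm_GA')⟩

end SDN
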