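import Pool.Agent.SDN.St2
import Pool.Agent.SDN.MK

/-!
# SDN: the chain lemma
-/

set_option autoImplicit false

namespace SDN

open Set Topology Filter

/-- evaluation -/
theorem CH_ev {K X : Type} [TopologicalSpace K] [CompactSpace K] [NormedAddCommGroup X] [NormedSpace ℝ X]
    (k : K) : ∃ R : C(K, X) →L[ℝ] X, ∀ f, R f = f k := by
  let R0 : C(K, X) →ₗ[ℝ] X :=
    { toFun := fun f => f k
      map_add' := fun f g => rfl
      map_smul' := fun c f => rfl }
  refine ⟨R0.mkContinuous 1 ?_, fun f => rfl⟩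
  intro f
  rw [one_mul]
  exact f.norm_coe_le_norm k

/-- difference with a constant, scaled -/
theorem CH_diff {K X : Type} [TopologicalSpace K] [CompactSpace K] [NormedAddCommGroup X] [NormedSpace ℝ X]
    (k : K) : ∃ R : C(K, X) →L[ℝ] C(K, X), ∀ f, R f = (8 : ℝ)⁻¹ • (f - ContinuousMap.const K (f k)) := by
  let R0 : C(K, X) →ₗ[ℝ] C(K, X) :=
    { toFun := fun f => (8 : ℝ)⁻¹ • (f - ContinuousMap.const K (f k))
      map_add' := by
        intro f g
        ext x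
        simp only [ContinuousMap.smul_apply, ContinuousMap.sub_apply, ContinuousMap.add_apply,
          ContinuousMap.const_apply]
        rw [← smul_add]
        congr 1
        abel
      map_smul' := by
        intro c f
        ext x
        simp only [ContinuousMap.smul_apply, ContinuousMap.sub_apply, ContinuousMap.const_apply,
          RingHom.id_apply]
        rw [← smul_sub, smul_comm] }
  refine ⟨R0.mkContinuous 2 ?_, fun f => rfl⟩
  intro f
  change ‖(8 : ℝ)⁻¹ • (f - ContinuousMap.const K (f k))‖ ≤ 2 * ‖f‖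
  rw [norm_smul, Real.norm_of_nonneg (by norm_num)]
  have h1 : ‖f - ContinuousMap.const K (f k)‖ ≤ 2 * ‖f‖ := by
    refine (ContinuousMap.norm_le _ (by positivity)).2 ?_
    intro x
    rw [ContinuousMap.sub_apply, ContinuousMap.const_apply]
    have h2 := norm_sub_le (f x) (f k)
    have h3 := f.norm_coe_le_norm x
    have h4 := f.norm_coe_le_norm k
    linarith
  have h5 := norm_nonneg (f - ContinuousMap.const K (f k))
  linarith

/-- a composition is smooth off its zeros -/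
theorem CH_comp {E F : Type} [NormedAddCommGroup E] [NormedSpace ℝ E] [NormedAddCommGroup F]
    [NormedSpace ℝ F] (q : Seminorm ℝ F) (R : E →L[ℝ] F)
    (hq : ∀ f : F, q f ≠ 0 → ContDiffAt ℝ ((⊤ : ℕ∞) : WithTop ℕ∞) (⇑q) f) (x : E)
    (hx : (q.comp (R : E →ₗ[ℝ] F)) x ≠ 0) :
    ContDiffAt ℝ ((⊤ : ℕ∞) : WithTop ℕ∞) (⇑(q.comp (R : E →ₗ[ℝ] F))) x :=
  (hq (R x) hx).comp x R.contDiff.contDiffAt

/-- supremum of a bounded family of seminorms -/
theorem CH_sup {E Γ : Type} [NormedAddCommGroup E] [NormedSpace ℝ E] [Nonempty Γ]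
    (A : Γ → Seminorm ℝ E) (b : E → ℝ) (h : ∀ i x, A i x ≤ b x) :
    ∃ p : Seminorm ℝ E, (∀ i x, A i x ≤ p x) ∧ (∀ x r, (∀ i, A i x ≤ r) → p x ≤ r) ∧
      ∀ x r, r < p x → ∃ i, r < A i x := by
  have hbdd : ∀ x, BddAbove (range fun i => A i x) := by
    intro x
    refine ⟨b x, ?_⟩
    rintro _ ⟨i, rfl⟩
    exact h i x
  refine ⟨Seminorm.of (fun x => ⨆ i, A i x) ?_ ?_, ?_, ?_, ?_⟩
  · intro x y
    refine ciSup_le fun i => ?_
    have h1 := map_add_le_add (A i) x y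
    have h2 := le_ciSup (hbdd x) i
    have h3 := le_ciSup (hbdd y) i
    linarith
  · intro a x
    rw [Real.mul_iSup_of_nonneg (norm_nonneg a)]
    congr 1
    funext i
    exact map_smul_eq_mul (A i) a x
  · intro i x
    exact le_ciSup (hbdd x) i
  · intro x r hr
    exact ciSup_le hr
  · intro x r hr
    exact exists_lt_of_lt_ciSup hr

section order

variable {L : Type} [LinearOrder L] [TopologicalSpace L] [OrderTopology L]

/-- neighbourhoods with small variation of `f` -/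
theorem CH_nhd {K X : Type} [TopologicalSpace K] [CompactSpace K] [NormedAddCommGroup X]
    [NormedSpace ℝ X] (π : C(K, L)) (q : Seminorm ℝ X) (hqc : Continuous q) (f : C(K, X)) (y : L)
    (k : K) (h : ∀ l, π l = y → l = k) (θ : ℝ) (hθ : 0 < θ) :
    ∃ V ∈ 𝓝 y, V.OrdConnected ∧ ∀ l, π l ∈ V → q (f l - f k) < θ := by
  have hU : IsClosed {l : K | θ ≤ q (f l - f k)} :=
    isClosed_le continuous_const (hqc.comp (f.continuous.sub continuous_const))
  have hU2 : IsClosed (π '' {l : K | θ ≤ q (f l - f k)}) := (hU.isCompact.image π.continuous).isClosed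
  have hy : y ∈ (π '' {l : K | θ ≤ q (f l - f k)})ᶜ := by
    rintro ⟨l, hl, hly⟩
    have h1 : l = k := h l hly
    subst h1
    have h2 : θ ≤ q (f l - f l) := hl
    rw [sub_self, map_zero] at h2
    linarith
  refine ⟨ordConnectedComponent (π '' {l : K | θ ≤ q (f l - f k)})ᶜ y,
    ordConnectedComponent_mem_nhds.2 (hU2.isOpen_compl.mem_nhds hy), inferInstance, ?_⟩
  intro l hl
  have h1 := ordConnectedComponent_subset hl
  by_contra hcon
  exact h1 ⟨l, not_lt.1 hcon, rfl⟩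

omit [OrderTopology L] in
/-- only finitely many exceptional steps -/
theorem CH_fin [CompactSpace L] (w : L) (S : Set L) (nx : L → L)
    (hnx : ∀ s, s ∈ S → s < w → nx s ∈ S ∧ s < nx s ∧ ∀ r ∈ S, s < r → nx s ≤ r)
    (Exc : Set L) (hE : ∀ s ∈ Exc, s ∈ S ∧ s < w)
    (hV : ∀ y : L, ∃ V ∈ 𝓝 y, V.OrdConnected ∧ ∀ s ∈ Exc, s ∈ V → nx s ∈ V → False) : Exc.Finite := by
  choose V hV1 hV2 hV3 using hV
  obtain ⟨T, hT⟩ := CompactSpace.elim_nhds_subcover V hV1
  have h1 : Exc ⊆ ⋃ y ∈ T, (Exc ∩ V y) := by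
    intro s hs
    have h2 : s ∈ ⋃ y ∈ T, V y := by rw [hT]; trivial
    simp only [mem_iUnion, exists_prop] at h2 ⊢
    obtain ⟨y, hy, hsy⟩ := h2
    exact ⟨y, hy, hs, hsy⟩
  refine Set.Finite.subset (Set.Finite.biUnion T.finite_toSet fun y _ => ?_) h1
  refine Set.Subsingleton.finite ?_
  have key : ∀ s₁ ∈ Exc ∩ V y, ∀ s₂ ∈ Exc ∩ V y, ¬ s₁ < s₂ := by
    intro s₁ h₁ s₂ h₂ hlt
    obtain ⟨h3, h4⟩ := hE s₁ h₁.1
    obtain ⟨h5, h6⟩ := hE s₂ h₂.1
    obtain ⟨h7, h8, h9⟩ := hnx s₁ h3 h4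
    exact hV3 y s₁ h₁.1 h₁.2 ((hV2 y).out h₁.2 h₂.2 ⟨h8.le, h9 s₂ h5 hlt⟩)
  intro s₁ h₁ s₂ h₂
  exact le_antisymm (not_lt.1 (key s₂ h₂ s₁ h₁)) (not_lt.1 (key s₁ h₁ s₂ h₂))

/-- the supremum is attained at the last place -/
theorem CH_att [CompactSpace L] (w : L) (S : Set L) (hSc : IsClosed S) (hw : w ∈ S) (hSw : ∀ s ∈ S, s ≤ w)
    (nx : L → L)
    (hnx : ∀ s, s ∈ S → s < w → nx s ∈ S ∧ s < nx s ∧ ∀ r ∈ S, s < r → nx s ≤ r)
    (a : L → Bool → ℝ) (R : ℝ) (hR : ∀ s ∈ S, ∀ b, a s b ≤ R) (hsup : ∀ r < R, ∃ s ∈ S, ∃ b, r < a s b)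
    (hcont : ∀ m ∈ S, ¬ IsOpen {m} → ∀ θ : ℝ, 0 < θ → ∃ V ∈ 𝓝 m, ∀ s ∈ S, s < m → s ∈ V →
      ∀ t ∈ S, s ≤ t → t < m → ∀ b, a t b ≤ a m false + θ) :
    ∃ m ∈ S, (∃ b, a m b = R) ∧ (m < w → ∀ b, a (nx m) b < R) := by
  let Q : L → Prop := fun s => ∀ r < R, ∃ t ∈ S, s ≤ t ∧ ∃ b, r < a t b
  let Z : Set L := {s | s ∈ S ∧ Q s}
  have hZS : closure Z ⊆ S := closure_minimal (fun s hs => hs.1) hSc
  have hZn : (closure Z).Nonempty := by
    obtain ⟨m₀, hm₀, hm₀'⟩ : ∃ m₀ ∈ S, ∀ t ∈ S, m₀ ≤ t := by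
      obtain ⟨m₀, hm₀⟩ := hSc.isCompact.exists_isLeast ⟨w, hw⟩
      exact ⟨m₀, hm₀.1, fun t ht => hm₀.2 ht⟩
    refine ⟨m₀, subset_closure ⟨hm₀, ?_⟩⟩
    intro r hr
    obtain ⟨s, hs, b, hb⟩ := hsup r hr
    exact ⟨s, hs, hm₀' s hs, b, hb⟩
  obtain ⟨m, hm, hmax⟩ := (isClosed_closure (s := Z)).isCompact.exists_isGreatest hZn
  have hmS : m ∈ S := hZS hm
  have hQm : Q m := by
    by_contra hQ
    have h1 : ∃ r₀ < R, ∀ t ∈ S, m ≤ t → ∀ b, a t b ≤ r₀ := by
      simp only [Q] at hQ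
      push Not at hQ
      exact hQ
    obtain ⟨r₀, hr₀, h2⟩ := h1
    have h3 : ¬ IsOpen {m} := by
      intro ho
      have h4 : ({m} : Set L) ∈ 𝓝 m := ho.mem_nhds rfl
      obtain ⟨z, hz1, hz2⟩ := mem_closure_iff_nhds.1 hm {m} h4
      rw [mem_singleton_iff] at hz1
      subst hz1
      exact hQ hz2.2
    obtain ⟨V, hV, h5⟩ := hcont m hmS h3 ((R - r₀) / 2) (by linarith)
    obtain ⟨s, hs1, hs2⟩ := mem_closure_iff_nhds.1 hm V hV
    have h6 : s ≤ m := hmax (subset_closure hs2)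
    have h7 : s ≠ m := by
      rintro rfl
      exact hQ hs2.2
    have h8 : s < m := lt_of_le_of_ne h6 h7
    obtain ⟨t, ht, hst, b, hb⟩ := hs2.2 ((R + r₀) / 2) (by linarith)
    have h9 : t < m := by
      by_contra hcon
      have := h2 t ht (not_lt.1 hcon) b
      linarith
    have h10 := h5 s hs2.1 h8 hs1 t ht hst h9 b
    have h11 := h2 m hmS le_rfl false
    linarith
  refine ⟨m, hmS, ?_, ?_⟩
  · -- attained
    have h1 : ∃ r₀ < R, ∀ t ∈ S, m < t → ∀ b, a t b ≤ r₀ := by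
      rcases (hSw m hmS).lt_or_eq with h | h
      · obtain ⟨h2, h3, h4⟩ := hnx m hmS h
        have h5 : ¬ Q (nx m) := by
          intro h6
          exact absurd (hmax (subset_closure ⟨h2, h6⟩)) (not_le.2 h3)
        simp only [Q] at h5
        push Not at h5
        obtain ⟨r₀, hr₀, h6⟩ := h5
        exact ⟨r₀, hr₀, fun t ht hmt b => h6 t ht (h4 t ht hmt) b⟩
      · refine ⟨R - 1, by linarith, fun t ht hmt => ?_⟩
        exact absurd (hSw t ht) (not_le.2 (h ▸ hmt))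
    obtain ⟨r₀, hr₀, h2⟩ := h1
    by_contra hcon
    push Not at hcon
    have h3 : ∀ b, a m b < R := fun b => lt_of_le_of_ne (hR m hmS b) (hcon b)
    obtain ⟨t, ht, hmt, b, hb⟩ := hQm (max r₀ (max (a m false) (a m true)))
      (max_lt hr₀ (max_lt (h3 false) (h3 true)))
    rcases hmt.lt_or_eq with h | h
    · have := h2 t ht h b
      have := le_max_left r₀ (max (a m false) (a m true))
      linarith
    · subst h
      have h4 : a m b ≤ max (a m false) (a m true) := by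
        cases b
        · exact le_max_left _ _
        · exact le_max_right _ _
      have := le_max_right r₀ (max (a m false) (a m true))
      linarith
  · intro h b
    obtain ⟨h2, h3, h4⟩ := hnx m hmS h
    have h5 : ¬ Q (nx m) := by
      intro h6
      exact absurd (hmax (subset_closure ⟨h2, h6⟩)) (not_le.2 h3)
    simp only [Q] at h5
    push Not at h5
    obtain ⟨r₀, hr₀, h6⟩ := h5
    exact (h6 (nx m) h2 le_rfl b).trans_lt hr₀

end order

end SDN
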