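import Mathlib

/-!
# SDN: smooth norms on `C(K)` (MP_3b2a37_an). Definitions
-/

set_option autoImplicit false

namespace SDN

open Set Topology

/-- `x ↦ x² exp(-1/x)` for `x > 0`, `0` for `x ≤ 0`: convex, increasing, of class `C^∞` -/
noncomputable def th (x : ℝ) : ℝ := x ^ 2 * expNegInvGlue x

/-- `C(K)` has a norm `N`, of class `C^∞` off `0`, with `a ‖f‖ ≤ N f ≤ b ‖f‖` -/
def SN (K : Type) [TopologicalSpace K] [CompactSpace K] (a b : ℝ) : Prop :=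
  ∃ N : Seminorm ℝ C(K, ℝ), (∀ f : C(K, ℝ), a * ‖f‖ ≤ N f ∧ N f ≤ b * ‖f‖) ∧
    ∀ f : C(K, ℝ), f ≠ 0 → ContDiffAt ℝ ((⊤ : ℕ∞) : WithTop ℕ∞) (⇑N) f

/-- `C(K)` has an equivalent norm of class `C^∞` off `0` -/
def Smooth (K : Type) [TopologicalSpace K] [CompactSpace K] : Prop :=
  ∃ a b : ℝ, 0 < a ∧ 0 < b ∧ SN K a b

/-- `C(K)` has norms of class `C^∞` off `0` which are arbitrarily close to the supremum norm -/
def Close (K : Type) [TopologicalSpace K] [CompactSpace K] : Prop :=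
  ∀ ε : ℝ, 0 < ε → SN K 1 (1 + ε)

/-- `L` is the union of the relatively discrete sets `D n` -/
def SigmaDiscrete {L : Type} [TopologicalSpace L] (D : ℕ → Set L) : Prop :=
  (∀ n, ∀ y ∈ D n, ∃ V ∈ 𝓝 y, ∀ z ∈ V, z ∈ D n → z = y) ∧ ∀ y, ∃ n, y ∈ D n

end SDN
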