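import Pool.Agent.SDN.CK
import Pool.Agent.SDN.St2

/-!
# SDN: products with sigma-discrete compact spaces
-/

set_option autoImplicit false

namespace SDN

open Set Topology Filter

/-- restriction to a fibre of the product, scaled -/
theorem SP_res {K P : Type} [TopologicalSpace K] [CompactSpace K] [TopologicalSpace P] [CompactSpace P]
    (y : K) (s : ℝ) : ∃ R : C(K × P, ℝ) →L[ℝ] C(P, ℝ), ∀ f, R f = s • f.curry y := by
  let R0 : C(K × P, ℝ) →ₗ[ℝ] C(P, ℝ) :=
    { toFun := fun f => s • f.curry y
      map_add' := by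
        intro f g
        ext x
        simp
      map_smul' := by
        intro c f
        ext x
        simp
        ring }
  refine ⟨R0.mkContinuous |s| ?_, fun f => rfl⟩
  intro f
  change ‖s • f.curry y‖ ≤ |s| * ‖f‖
  rw [norm_smul, Real.norm_eq_abs]
  refine mul_le_mul_of_nonneg_left ?_ (abs_nonneg s)
  refine (ContinuousMap.norm_le _ (norm_nonneg f)).2 ?_
  intro x
  exact f.norm_coe_le_norm (y, x)

theorem thm_SP (hMA : St_MA) (hIX : St_IX) (K : Type) [TopologicalSpace K] [CompactSpace K] [T2Space K]
    (D : ℕ → Set K) (hD : SigmaDiscrete D) : Mult K := by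
  intro P _ _ _ a b ha hb hSN ε hε
  obtain ⟨q, hq, hqs⟩ := hSN
  rcases isEmpty_or_nonempty K with hK | ⟨⟨y0⟩⟩
  · have h0 : ∀ f : C(K × P, ℝ), f = 0 := by
      intro f
      ext x
      exact (hK.false x.1).elim
    refine ⟨0, ?_, fun f hf => absurd (h0 f) hf⟩
    intro f
    rw [h0 f]
    simp
  · obtain ⟨β, ω, hβ, hω, hbw, hsep⟩ := hIX K D hD (ε / b) (div_pos hε hb)
    have key : ∀ y, ∃ p : Seminorm ℝ C(K × P, ℝ), (∀ f, p f = a⁻¹ * q (f.curry y)) ∧
        ∀ f, p f ≠ 0 → ContDiffAt ℝ ((⊤ : ℕ∞) : WithTop ℕ∞) (⇑p) f := by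
      intro y
      obtain ⟨R, hR⟩ := SP_res (K := K) (P := P) y a⁻¹
      refine ⟨q.comp R.toLinearMap, ?_, ?_⟩
      · intro f
        rw [Seminorm.comp_apply]
        change q (R f) = _
        rw [hR, map_smul_eq_mul, Real.norm_of_nonneg (inv_nonneg.2 ha.le)]
      · intro f hf
        have h1 : R f ≠ 0 := by
          intro h0
          apply hf
          rw [Seminorm.comp_apply]
          change q (R f) = 0
          rw [h0, map_zero]
        exact (hqs _ h1).comp f R.contDiff.contDiffAt
    choose p hp hps using key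
    have hcur : ∀ y (f : C(K × P, ℝ)), ‖f.curry y‖ ≤ ‖f‖ := by
      intro y f
      refine (ContinuousMap.norm_le _ (norm_nonneg f)).2 ?_
      intro x
      exact f.norm_coe_le_norm (y, x)
    have hqc : Continuous q := MK_cont q b hb.le fun x => (hq x).2
    have H : ∃ N : Seminorm ℝ C(K × P, ℝ), (∀ x, ‖x‖ ≤ (1 + ε / b) * N x) ∧ (∀ x, N x ≤ b / a * ‖x‖) ∧
        ∀ x, x ≠ 0 → ContDiffAt ℝ ((⊤ : ℕ∞) : WithTop ℕ∞) (⇑N) x := by
      refine hMA C(K × P, ℝ) K (ε / b) (b / a) β ω (fun y f => p y f) p y0
        (div_pos hε hb) (div_pos hb ha) hβ hω hbw hsep ?_ ?_ ?_ ?_ ?_ hps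
      · intro f c y h
        have h1 : Continuous fun z => p z f := by
          have h2 : (fun z => p z f) = fun z => a⁻¹ * q (f.curry z) := by
            funext z
            exact hp z f
          rw [h2]
          exact continuous_const.mul (hqc.comp f.curry.continuous)
        exact (h1.tendsto y).eventually (gt_mem_nhds h)
      · intro f c h
        have hc : 0 ≤ c := (apply_nonneg (p y0) f).trans (h y0).le
        refine (ContinuousMap.norm_le _ hc).2 ?_
        rintro ⟨k, z⟩
        have h1 := (f.curry k).norm_coe_le_norm z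
        have h2 : ‖f (k, z)‖ ≤ ‖f.curry k‖ := h1
        have h3 := (hq (f.curry k)).1
        have h4 : ‖f.curry k‖ ≤ p k f := by
          rw [hp]
          rw [le_inv_mul_iff₀ ha]
          exact h3
        exact h2.trans (h4.trans (h k).le)
      · intro y f _
        exact le_rfl
      · intro y f
        rw [hp]
        have h1 := (hq (f.curry y)).2
        have h2 := mul_le_mul_of_nonneg_left (hcur y f) hb.le
        rw [inv_mul_le_iff₀ ha]
        have h3 : a * (b / a * ‖f‖) = b * ‖f‖ := by field_simp
        linarith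
      · intro y f
        have h1 := apply_nonneg (p y) f
        have h2 := hω y
        nlinarith
    obtain ⟨N, hN1, hN2, hN3⟩ := H
    · obtain ⟨R, hR⟩ : ∃ R : C(K × P, ℝ) →L[ℝ] C(K × P, ℝ), ∀ f, R f = (a * (1 + ε / b)) • f :=
        ⟨(a * (1 + ε / b)) • ContinuousLinearMap.id ℝ _, fun f => rfl⟩
      have hs : 0 < a * (1 + ε / b) := by positivity
      have hNR : ∀ f, N.comp R.toLinearMap f = a * (1 + ε / b) * N f := by
        intro f
        rw [Seminorm.comp_apply]
        change N (R f) = _
        rw [hR, map_smul_eq_mul, Real.norm_of_nonneg hs.le]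
      refine ⟨N.comp R.toLinearMap, ?_, ?_⟩
      · intro f
        rw [hNR]
        constructor
        · have := mul_le_mul_of_nonneg_left (hN1 f) ha.le
          linarith
        · have h1 := mul_le_mul_of_nonneg_left (hN2 f) hs.le
          have h2 : a * (1 + ε / b) * (b / a * ‖f‖) = (b + ε) * ‖f‖ := by
            field_simp
          linarith
      · intro f hf
        have h1 : R f ≠ 0 := by
          rw [hR]
          exact smul_ne_zero hs.ne' hf
        exact (hN3 _ h1).comp f R.contDiff.contDiffAt

end SDN
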