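import Pool.Agent.SDN.Defs

/-!
# SDN: statements
-/

set_option autoImplicit false

namespace SDN

open Set Topology

/-- [TH] the function `th`. -/
def St_TH : Prop :=
  ContDiff ℝ ((⊤ : ℕ∞) : WithTop ℕ∞) th ∧ (∀ x, x ≤ 0 → th x = 0) ∧ (∀ x, 0 < x → 0 < th x) ∧
    Monotone th ∧ ConvexOn ℝ univ th

/-- [GA] Smoothness of Minkowski functionals.
PROOF. `N x = 1`: `Ψ x = 1` (otherwise `x` is an inner point of `{N ≤ 1}`). `∂_λ Ψ(λ z)` at `(x, 1)` is `≥ 1` by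
convexity. Implicit function `λ(z)`, `Ψ (λ(z) z) = 1`, and `N z = 1 / λ(z)` by convexity. -/
def St_GA : Prop :=
  ∀ (E : Type) [NormedAddCommGroup E] [NormedSpace ℝ E] [CompleteSpace E] (N : Seminorm ℝ E),
    (∀ x, x ≠ 0 → N x ≠ 0) →
    (∀ x, N x = 1 → ∃ Ψ : E → ℝ, ContDiffAt ℝ ((⊤ : ℕ∞) : WithTop ℕ∞) Ψ x ∧ ConvexOn ℝ univ Ψ ∧
      Ψ 0 = 0 ∧ ∀ᶠ z in 𝓝 x, (N z ≤ 1 ↔ Ψ z ≤ 1)) →
    ∀ x, x ≠ 0 → ContDiffAt ℝ ((⊤ : ℕ∞) : WithTop ℕ∞) (⇑N) x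

/-- [IX] (1h) Thresholds on a sigma-discrete space.
PROOF. `n y` = the least `n` with `y ∈ D n`, `D' n = {y | n y = n}` (relatively discrete). `A y = {k | k < n y ∧ y ∈ closure
(D' k)}`, a finite set. Code of `y`: `c y = (n y, A y) : ℕ × Finset ℕ`, and its word `χ c : ℕ → ℕ`, `χ c k = 1` if `k = c.1`,
otherwise `2` if `k ∈ c.2`, otherwise `0`. `f ≺ g` for `f g : ℕ → ℕ`: there is `k` with `f j = g j` for `j < k` and
`f k < g k` (transitive, irreflexive; it follows from `f j ≤ g j` for `j < k`, `f k < g k`).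
For every `y`, with `n = n y`, there is an open `V ∋ y` with `V ∩ D' n = {y}` and `V ∩ D' k = ∅` for `k < n`, `k ∉ A y`. For
`z ∈ V`, `z ≠ y`, `m = n z`: `m ≠ n`. If `m < n`: `m ∈ A y` (`z ∈ V ∩ D' m`), and `k ∈ A z` implies `k < m` and `V ∩ D' k ≠ ∅`, so
`k ∈ A y`: hence `χ (c z) ≺ χ (c y)` (at the place `m`: `1 < 2`). If `n < m`: `n ∉ A z` (the open set `V ∖ {y} ∋ z` does not meet
`D' n`), and `k < n`, `k ∈ A z` implies `k ∈ A y`: hence `χ (c z) ≺ χ (c y)` (at the place `n`: `0 < 1`).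
Weights: `w : ℕ × Finset ℕ → ℝ` positive, `HasSum w s`, `s ≤ W` (`posSumOfEncodable`). `ω y = w (c y)`,
`β y = 1 + ∑' c, if χ (c y) ≺ χ c then w c else 0`. If `χ (c z) ≺ χ (c y)` then `β z ≥ β y + ω y` (transitivity; `c y` itself is
counted in `β z` and not in `β y`). -/
def St_IX : Prop :=
  ∀ (L : Type) [TopologicalSpace L] [T1Space L] (D : ℕ → Set L), SigmaDiscrete D → ∀ W : ℝ, 0 < W →
    ∃ β ω : L → ℝ, (∀ y, 1 ≤ β y) ∧ (∀ y, 0 < ω y) ∧ (∀ y, β y + ω y ≤ 1 + W) ∧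
      ∀ y, ∃ V ∈ 𝓝 y, ∀ z ∈ V, z ≠ y → β y + ω y ≤ β z

/-- [MA] The main construction: `Y` compact, thresholds `β`, `ω`; `m y x` is upper semicontinuous in `y`,
`q y` a seminorm of class `C^∞` off its zeros with `q y ≤ m y` (except at one point `y0`), `q y ≤ C ‖x‖` and
`m y ≤ (β y + ω y) / (β y + ω y / 2) q y`.
PROOF. `B = {x | ∀ T finite, ∑ y ∈ T, M y * th (q y x - β y) ≤ 1}`, `M y = 2 / th (ω y / 2)`; `N` its Minkowski
functional. `x ∈ B` gives `m y x < β y + ω y` for all `y`. Near `x ∈ B` only finitely many `y` are active: for every `s` let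
`2 ε = β s + ω s - m s x`; near `s` (`y ≠ s, y0`) `q y x ≤ m y x < β s + ω s - ε ≤ β y - ε`; compactness. -/
def St_MA : Prop :=
  ∀ (E : Type) [NormedAddCommGroup E] [NormedSpace ℝ E] [CompleteSpace E]
    (Y : Type) [TopologicalSpace Y] [CompactSpace Y] (W C : ℝ) (β ω : Y → ℝ) (m : Y → E → ℝ)
    (q : Y → Seminorm ℝ E) (y0 : Y), 0 < W → 0 < C →
    (∀ y, 1 ≤ β y) → (∀ y, 0 < ω y) → (∀ y, β y + ω y ≤ 1 + W) →
    (∀ y, ∃ V ∈ 𝓝 y, ∀ z ∈ V, z ≠ y → β y + ω y ≤ β z) →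
    (∀ x c y, m y x < c → ∀ᶠ z in 𝓝 y, m z x < c) →
    (∀ x c, (∀ y, m y x < c) → ‖x‖ ≤ c) →
    (∀ y x, y ≠ y0 → q y x ≤ m y x) → (∀ y x, q y x ≤ C * ‖x‖) →
    (∀ y x, m y x * (β y + ω y / 2) ≤ (β y + ω y) * q y x) →
    (∀ y x, q y x ≠ 0 → ContDiffAt ℝ ((⊤ : ℕ∞) : WithTop ℕ∞) (⇑(q y)) x) →
    ∃ N : Seminorm ℝ E, (∀ x, ‖x‖ ≤ (1 + W) * N x) ∧ (∀ x, N x ≤ C * ‖x‖) ∧
      ∀ x, x ≠ 0 → ContDiffAt ℝ ((⊤ : ℕ∞) : WithTop ℕ∞) (⇑N) x

/-- [CK] (from MA, IX) Fibres over a sigma-discrete compact space. -/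
def St_CK : Prop :=
  ∀ (K L : Type) [TopologicalSpace K] [CompactSpace K] [T2Space K] [TopologicalSpace L] [CompactSpace L]
    [T2Space L] (D : ℕ → Set L) (π : C(K, L)) (y0 : L), SigmaDiscrete D →
    (∀ y, y ≠ y0 → ∀ h : CompactSpace (π ⁻¹' {y}), @Close (π ⁻¹' {y}) _ h) →
    ((∀ h : CompactSpace (π ⁻¹' {y0}), @Smooth (π ⁻¹' {y0}) _ h) → Smooth K) ∧
      ((∀ h : CompactSpace (π ⁻¹' {y0}), @Close (π ⁻¹' {y0}) _ h) → Close K)

/-- [GT] (1.5h) Talagrand systems. `A i`, `J i` seminorms, of class `C^∞` off their zeros, `A i ≤ p`, `J i ≤ p`,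
`p` the supremum of the `A i`, `(J i x)_i` in `c_0`, and for `x ≠ 0` some `i` has `A i x = p x`, `J i x > 0`. Then there are
norms of class `C^∞` arbitrarily close to `p`.
PROOF. Let `0 < ε < 1`, `u a = 1 - th (a - (1 - ε)) / th ε` (concave, decreasing, `C^∞`, `= 1` for `a ≤ 1 - ε`, `u 1 = 0`,
`u a > 0` for `a < 1`) and `F a n = u a * th (n / u a - 1)` for `a < 1`, `n ≥ 0`: convex (perspective of the convex
function `x ↦ th (x - 1)` of `(u, n)`, which is decreasing in `u`, and `u` is concave), increasing in `a` and `n`, `0` if `a ≤ 1 - ε`,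
`n ≤ 1`, and `F a n → ∞` for `a → 1` with `n ≥ c > 0` (`th x ≥ x^2 / e` for `x ≥ 1`).
`B = {x | (∀ i, A i x < 1) ∧ ∀ T finite, ∑ i ∈ T, F (A i x) (J i x) ≤ 1}`. Convex, symmetric. `p x ≤ 1 - ε` gives
`x ∈ B`; `x ∈ B` gives `p x < 1` (the supremum is attained). Closed: let `x` be in the closure; `p x ≤ 1`; if `p x = 1`
let `A i x = 1`, `J i x > 0`: for `z ∈ B` near `x`, `F (A i z) (J i z) > 1`; so `p x < 1`, and the sums are continuous.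
Near `x ∈ B` only finitely many terms are not `0`: let `p x < a' < 1`, `c = u a' > 0`; for `z` near `x` the term `i` is `0`
unless `J i z > c`, then `J i x > c / 2`. Let `N` be the Minkowski functional of `B`: `N x ≤ 1 ↔ x ∈ B`; near `x ∈ B` this is
`Ψ z ≤ 1`. `GA` needs a function `Ψ` which is convex on the whole space: take
`Ψ` near `x` as the finite sum and use the version GA' below (convex on a convex open set containing the
segment `[0, x]`: here `{z | p z < a'}`). -/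
def St_GT : Prop :=
  ∀ (E : Type) [NormedAddCommGroup E] [NormedSpace ℝ E] [CompleteSpace E] (Γ : Type)
    (p : Seminorm ℝ E) (A J : Γ → Seminorm ℝ E) (c C : ℝ), 0 < c → 0 < C →
    (∀ x, c * ‖x‖ ≤ p x) → (∀ x, p x ≤ C * ‖x‖) →
    (∀ i x, A i x ≤ p x) → (∀ i x, J i x ≤ p x) →
    (∀ i x, A i x ≠ 0 → ContDiffAt ℝ ((⊤ : ℕ∞) : WithTop ℕ∞) (⇑(A i)) x) →
    (∀ i x, J i x ≠ 0 → ContDiffAt ℝ ((⊤ : ℕ∞) : WithTop ℕ∞) (⇑(J i)) x) →
    (∀ x, ∀ δ : ℝ, 0 < δ → {i | δ < J i x}.Finite) →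
    (∀ x, x ≠ 0 → ∃ i, A i x = p x ∧ 0 < J i x) →
    ∀ ε : ℝ, 0 < ε → ε < 1 → ∃ N : Seminorm ℝ E, (∀ x, p x ≤ N x) ∧ (∀ x, (1 - ε) * N x ≤ p x) ∧
      ∀ x, x ≠ 0 → ContDiffAt ℝ ((⊤ : ℕ∞) : WithTop ℕ∞) (⇑N) x

/-- [GA'] as GA, with `Ψ` convex and continuous on a convex open set `O` which contains `0` and `x`. -/
def St_GA' : Prop :=
  ∀ (E : Type) [NormedAddCommGroup E] [NormedSpace ℝ E] [CompleteSpace E] (N : Seminorm ℝ E),
    (∀ x, x ≠ 0 → N x ≠ 0) →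
    (∀ x, N x = 1 → ∃ (O : Set E) (Ψ : E → ℝ), IsOpen O ∧ (0 : E) ∈ O ∧ x ∈ O ∧
      ContDiffAt ℝ ((⊤ : ℕ∞) : WithTop ℕ∞) Ψ x ∧ ConvexOn ℝ O Ψ ∧
      Ψ 0 = 0 ∧ ∀ᶠ z in 𝓝 x, (N z ≤ 1 ↔ Ψ z ≤ 1)) →
    ∀ x, x ≠ 0 → ContDiffAt ℝ ((⊤ : ℕ∞) : WithTop ℕ∞) (⇑N) x

/-- [OR] (1.5h; GT) Products with ordinals: `O` a compact well-ordered space (`O = [0, μ]`).
PROOF. Let `q` be the norm of `C(P)`, `a ‖g‖ ≤ q g ≤ b ‖g‖`, and write `f(α) = f(α, ·) ∈ C(P)`: `α ↦ f(α)` is continuous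
(`ContinuousMap.curry`). `p f = sup_α q (f(α))` (a maximum), `A α f = q (f(α))`, `J α f = q (f(α) - f(α + 1)) / 2`, where
`α + 1 = SuccOrder`-successor, and `J α f = q (f(α))` if `α` is the greatest element (nothing if `O` is empty). `J α f > δ` only for
finitely many `α`: every `β ∈ O` has a neighbourhood `(γ, β]` (or `[0, β]`) on which `q (f(α) - f(β)) < δ`; for `α` with
`α, α + 1 ∈ (γ, β]` `J α f < δ`; the remaining `α` in the neighbourhood is `β`; compactness. The maximum: the set of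
`α` with `q (f(α)) = p f` is compact, take its greatest element. GT with `ε` and scaling of the result. -/
def St_OR : Prop :=
  ∀ (O P : Type) [LinearOrder O] [TopologicalSpace O] [OrderTopology O] [CompactSpace O] [WellFoundedLT O]
    [TopologicalSpace P] [CompactSpace P] [T2Space P] (a b : ℝ), 0 < a → 0 < b → SN P a b →
    ∀ ε : ℝ, 0 < ε → SN (O × P) a (b + ε)

end SDN
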