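import Pool.Agent.SDN.St2

/-!
# SDN: statements, third part
-/

set_option autoImplicit false

namespace SDN

open Set Topology

/-- [TS] (1h; CK, FB, PD) Closed subsets with a sigma-discrete complement.
PROOF. `L = OnePoint (Fᶜ)` (compact Hausdorff: `Fᶜ` is open in `K`, hence locally compact), `π : K → L`, `π k = ∞` for `k ∈ F`, `π k = k`
otherwise: continuous (at the points of `Fᶜ`, an open set, clear; at `k ∈ F`: a neighbourhood of `∞` contains the complement of a
compact subset of `Fᶜ`, which is closed in `K`). `D' 0 = {∞}`, `D' (n + 1) = D n \ F`: `SigmaDiscrete D'`. The fibre over `∞` is `F` (as a set: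
`subst`/`rw`), the others are singletons (`GoodK` and `Close` by PD). Apply CK with `y0 = ∞` and FB. -/
def St_TS : Prop :=
  ∀ (K : Type) [TopologicalSpace K] [CompactSpace K] [T2Space K] (F : Set K) (D : ℕ → Set K) [CompactSpace F],
    IsClosed F → (∀ n, ∀ y ∈ D n, ∃ V ∈ 𝓝 y, ∀ z ∈ V, z ∈ D n → z = y) → (∀ y, y ∉ F → ∃ n, y ∈ D n) →
    (Smooth F → Smooth K) ∧ (Close F → Close K) ∧ (GoodK F → GoodK K)

end SDN
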