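import Pool.Agent.SDN.St

/-!
# SDN: [TH] the function `th`
-/

set_option autoImplicit false

namespace SDN

open Set Topology

theorem th_contDiff : ContDiff ℝ ((⊤ : ℕ∞) : WithTop ℕ∞) th := by
  unfold th
  exact (contDiff_id.pow 2).mul expNegInvGlue.contDiff

theorem th_zero (x : ℝ) (hx : x ≤ 0) : th x = 0 := by
  simp [th, expNegInvGlue.zero_of_nonpos hx]

theorem th_pos (x : ℝ) (hx : 0 < x) : 0 < th x := by
  unfold th
  exact mul_pos (pow_pos hx 2) (expNegInvGlue.pos_of_pos hx)

theorem th_nonneg (x : ℝ) : 0 ≤ th x := by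
  rcases le_or_gt x 0 with h | h
  · rw [th_zero x h]
  · exact (th_pos x h).le

theorem th_hasDeriv (x : ℝ) : HasDerivAt th ((2 * x + 1) * expNegInvGlue x) x := by
  have h1 := expNegInvGlue.hasDerivAt_polynomial_eval_inv_mul 1 x
  simp only [Polynomial.eval_one, one_mul, Polynomial.derivative_one, sub_zero, mul_one,
    Polynomial.eval_pow, Polynomial.eval_X] at h1
  have h2 : HasDerivAt (fun y : ℝ => y ^ 2) (2 * x) x := by
    have := hasDerivAt_pow 2 x
    simpa using this
  have h3 := h2.mul h1
  have h4 : 2 * x * expNegInvGlue x + x ^ 2 * (x⁻¹ ^ 2 * expNegInvGlue x) =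
      (2 * x + 1) * expNegInvGlue x := by
    rcases eq_or_ne x 0 with rfl | hx
    · simp [expNegInvGlue.zero]
    · field_simp
  rw [h4] at h3
  exact h3

theorem mono_glue : Monotone expNegInvGlue := by
  intro x y h
  rcases le_or_gt x 0 with hx | hx
  · rw [expNegInvGlue.zero_of_nonpos hx]
    exact expNegInvGlue.nonneg y
  · have hy : 0 < y := lt_of_lt_of_le hx h
    unfold expNegInvGlue
    rw [if_neg (not_le.2 hx), if_neg (not_le.2 hy)]
    apply Real.exp_le_exp.2
    exact neg_le_neg (inv_anti₀ hx h)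

theorem th_deriv_mono : Monotone (deriv th) := by
  have h : deriv th = fun x => (2 * x + 1) * expNegInvGlue x := by
    funext x
    exact (th_hasDeriv x).deriv
  rw [h]
  intro x y hxy
  simp only
  rcases le_or_gt x 0 with hx | hx
  · rw [expNegInvGlue.zero_of_nonpos hx, mul_zero]
    rcases le_or_gt y 0 with hy | hy
    · rw [expNegInvGlue.zero_of_nonpos hy, mul_zero]
    · exact mul_nonneg (by linarith) (expNegInvGlue.nonneg y)
  · have hy : 0 < y := lt_of_lt_of_le hx hxy
    exact mul_le_mul (by linarith) (mono_glue hxy) (expNegInvGlue.nonneg x) (by linarith)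

theorem th_mono : Monotone th := by
  intro x y h
  rcases le_or_gt x 0 with hx | hx
  · rw [th_zero x hx]
    exact th_nonneg y
  · unfold th
    exact mul_le_mul (pow_le_pow_left₀ hx.le h 2) (mono_glue h) (expNegInvGlue.nonneg x)
      (sq_nonneg y)

theorem th_convex : ConvexOn ℝ univ th :=
  Monotone.convexOn_univ_of_deriv (fun x => (th_hasDeriv x).differentiableAt) th_deriv_mono

theorem thm_TH : St_TH :=
  ⟨th_contDiff, th_zero, th_pos, th_mono, th_convex⟩

end SDN
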