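import Pool.Agent.SDN.St3

/-!
# SDN, module TS: closed subsets with a sigma-discrete complement (helper9)
-/

set_option autoImplicit false

namespace SDN

open Set Topology

/-- the collapse of `F` to the point at infinity -/
private noncomputable def TS_f {K : Type} (F : Set K) (k : K) : OnePoint {x : K // x ∉ F} := by
  classical
  exact if h : k ∈ F then OnePoint.infty else ((⟨k, h⟩ : {x : K // x ∉ F}) : OnePoint {x : K // x ∉ F})

private theorem TS_f_mem {K : Type} {F : Set K} {k : K} (h : k ∈ F) : TS_f F k = OnePoint.infty := by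
  unfold TS_f
  rw [dif_pos h]

private theorem TS_f_notMem {K : Type} {F : Set K} {k : K} (h : k ∉ F) :
    TS_f F k = ((⟨k, h⟩ : {x : K // x ∉ F}) : OnePoint {x : K // x ∉ F}) := by
  unfold TS_f
  rw [dif_neg h]

private theorem TS_f_eq {K : Type} {F : Set K} {k : K} {z : {x : K // x ∉ F}}
    (h : TS_f F k = (z : OnePoint {x : K // x ∉ F})) : k = z := by
  by_cases hk : k ∈ F
  · rw [TS_f_mem hk] at h
    exact absurd h (OnePoint.infty_ne_coe z)
  · rw [TS_f_notMem hk] at h
    exact congrArg Subtype.val (OnePoint.coe_injective h)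

private theorem TS_f_inf {K : Type} {F : Set K} {k : K} (h : TS_f F k = OnePoint.infty) : k ∈ F := by
  by_contra hk
  rw [TS_f_notMem hk] at h
  exact OnePoint.coe_ne_infty _ h

private theorem TS_cont {K : Type} [TopologicalSpace K] [CompactSpace K] [T2Space K] {F : Set K}
    (hF : IsClosed F) : Continuous (TS_f F) := by
  rw [continuous_def]
  intro s hs
  rw [OnePoint.isOpen_def] at hs
  obtain ⟨h1, h2⟩ := hs
  by_cases hi : (OnePoint.infty : OnePoint {x : K // x ∉ F}) ∈ s
  · have h3 := (h1 hi).image continuous_subtype_val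
    have h4 : (TS_f F ⁻¹' s)ᶜ =
        Subtype.val '' ((fun z : {x : K // x ∉ F} => (z : OnePoint {x : K // x ∉ F})) ⁻¹' s)ᶜ := by
      ext k
      constructor
      · intro hk
        have hk' : TS_f F k ∉ s := hk
        by_cases hkF : k ∈ F
        · rw [TS_f_mem hkF] at hk'
          exact absurd hi hk'
        · rw [TS_f_notMem hkF] at hk'
          exact ⟨⟨k, hkF⟩, hk', rfl⟩
      · rintro ⟨z, hz, rfl⟩ hcon
        have h5 : TS_f F z ∈ s := hcon
        rw [TS_f_notMem z.2] at h5
        exact hz h5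
    rw [← isClosed_compl_iff, h4]
    exact h3.isClosed
  · have h3 := hF.isOpen_compl.isOpenMap_subtype_val _ h2
    have h4 : TS_f F ⁻¹' s =
        Subtype.val '' ((fun z : {x : K // x ∉ F} => (z : OnePoint {x : K // x ∉ F})) ⁻¹' s) := by
      ext k
      constructor
      · intro hk
        have hk' : TS_f F k ∈ s := hk
        by_cases hkF : k ∈ F
        · rw [TS_f_mem hkF] at hk'
          exact absurd hk' hi
        · rw [TS_f_notMem hkF] at hk'
          exact ⟨⟨k, hkF⟩, hk', rfl⟩
      · rintro ⟨z, hz, rfl⟩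
        show TS_f F z ∈ s
        rw [TS_f_notMem z.2]
        exact hz
    rw [h4]
    exact h3

/-- the sigma-discrete covering of the quotient -/
private def TS_D {K : Type} (F : Set K) (D : ℕ → Set K) : ℕ → Set (OnePoint {x : K // x ∉ F})
  | 0 => {OnePoint.infty}
  | n + 1 => (fun z : {x : K // x ∉ F} => (z : OnePoint {x : K // x ∉ F})) '' {z | (z : K) ∈ D n}

private theorem TS_sd {K : Type} [TopologicalSpace K] {F : Set K} {D : ℕ → Set K}
    (h : ∀ n, ∀ y ∈ D n, ∃ V ∈ 𝓝 y, ∀ z ∈ V, z ∈ D n → z = y) (h' : ∀ y, y ∉ F → ∃ n, y ∈ D n) :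
    SigmaDiscrete (TS_D F D) := by
  refine ⟨fun n => ?_, fun y => ?_⟩
  · rcases n with _ | n
    · intro y hy
      refine ⟨univ, Filter.univ_mem, fun z _ hz => ?_⟩
      have e1 : y = OnePoint.infty := hy
      have e2 : z = OnePoint.infty := hz
      rw [e1, e2]
    · rintro _ ⟨z0, hz0, rfl⟩
      obtain ⟨V, hV, hV2⟩ := h n z0 hz0
      refine ⟨(fun z : {x : K // x ∉ F} => (z : OnePoint {x : K // x ∉ F})) '' (Subtype.val ⁻¹' V), ?_, ?_⟩
      · show _ ∈ 𝓝 ((z0 : OnePoint {x : K // x ∉ F}))
        rw [OnePoint.nhds_coe_eq]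
        exact Filter.image_mem_map (continuous_subtype_val.continuousAt.preimage_mem_nhds hV)
      · rintro _ ⟨z1, hz1, rfl⟩ ⟨z2, hz2, h3⟩
        have h4 : z2 = z1 := OnePoint.coe_injective h3
        rw [h4] at hz2
        have h5 : (z1 : K) = z0 := hV2 z1 hz1 hz2
        show (z1 : OnePoint {x : K // x ∉ F}) = z0
        rw [Subtype.ext h5]
  · induction y using OnePoint.rec with
    | infty => exact ⟨0, rfl⟩
    | coe z =>
      obtain ⟨n, hn⟩ := h' z z.2
      exact ⟨n + 1, z, hn, rfl⟩

private theorem TS_smooth {K : Type} [TopologicalSpace K] {s t : Set K} (e : s = t) [CompactSpace t]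
    (h : Smooth t) : ∀ h : CompactSpace s, @Smooth s _ h := by
  subst e
  exact fun _ => h

private theorem TS_close {K : Type} [TopologicalSpace K] {s t : Set K} (e : s = t) [CompactSpace t]
    (h : Close t) : ∀ h : CompactSpace s, @Close s _ h := by
  subst e
  exact fun _ => h

private theorem TS_good {K : Type} [TopologicalSpace K] {s t : Set K} (e : s = t) [CompactSpace t]
    (h : GoodK t) : ∀ h : CompactSpace s, @GoodK s _ h := by
  subst e
  exact fun _ => h

/-- [TS] -/
theorem thm_TS (hCK : St_CK) (hFB : St_FB) (hPD : St_PD) : St_TS := by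
  intro K _ _ _ F D _ hF hD hD'
  have : LocallyCompactSpace {x : K // x ∉ F} := hF.isOpen_compl.locallyCompactSpace
  have hinf : TS_f F ⁻¹' {OnePoint.infty} = F := by
    ext k
    exact ⟨fun h => TS_f_inf h, fun h => TS_f_mem h⟩
  have hsub : ∀ y : OnePoint {x : K // x ∉ F}, y ≠ OnePoint.infty →
      Subsingleton (TS_f F ⁻¹' {y}) := by
    intro y hy
    induction y using OnePoint.rec with
    | infty => exact absurd rfl hy
    | coe z => exact ⟨fun a b => Subtype.ext ((TS_f_eq a.2).trans (TS_f_eq b.2).symm)⟩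
  let π : C(K, OnePoint {x : K // x ∉ F}) := ⟨TS_f F, TS_cont hF⟩
  have hgood : ∀ y, y ≠ OnePoint.infty → ∀ h : CompactSpace (π ⁻¹' {y}), @GoodK (π ⁻¹' {y}) _ h := by
    intro y hy h
    have : Subsingleton (π ⁻¹' {y}) := hsub y hy
    exact hPD.1 (π ⁻¹' {y})
  have hck := hCK K (OnePoint {x : K // x ∉ F}) (TS_D F D) π OnePoint.infty (TS_sd hD hD')
    (fun y hy h => hPD.2.2.2 (π ⁻¹' {y}) (hgood y hy h))
  refine ⟨fun h => hck.1 (TS_smooth hinf h), fun h => hck.2 (TS_close hinf h), fun h => ?_⟩
  refine hFB K (OnePoint {x : K // x ∉ F}) (TS_D F D) π (TS_sd hD hD') (fun y hc => ?_)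
  by_cases hy : y = OnePoint.infty
  · subst hy
    exact TS_good hinf h hc
  · exact hgood y hy hc

end SDN
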